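import Pool.Agent.Lib.MP_0775d3_lc.Kron.Mix

/-! Circulant matrices of products of cyclic groups. -/

set_option linter.unusedSectionVars false
set_option linter.unusedVariables false
set_option linter.deprecated false

namespace MP0775d3.Kron

open Matrix

section
variable {F : Type*} [Field F]
variable {ι : Type*} [Fintype ι] [DecidableEq ι] {I : ι → Type*} [∀ i, Fintype (I i)]
  [∀ i, DecidableEq (I i)]

/-- Kronecker products of arbitrary matrices. -/
theorem dec_kron (M : ∀ i, Matrix (I i) (I i) F) (η : ℝ) (hη : 0 < η) (δ : ℝ) (N : ℕ)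
    (hδ : 0 < δ) (hδ1 : δ ≤ 1) (hN : 128 ≤ δ * 2 ^ N) (hΛ : 0 < logSize I)
    (hd : ∀ i, Real.log (Fintype.card (I i)) ≤ η * logSize I) :
    Dec (kron M) (128 * Real.exp (-((δ / (256 * (N + 1))) ^ 2 / η)) * Fintype.card (∀ i, I i))
      (Real.exp (δ * logSize I)) := by
  set ε : ℝ := δ / (128 * (N + 1)) with hε
  have hN1 : (0 : ℝ) < N + 1 := by positivity
  have hε0 : 0 < ε := by positivity
  have hε1 : ε ≤ 1 := by
    rw [hε, div_le_one (by positivity)]
    have : (1 : ℝ) ≤ 128 * (N + 1) := by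
      have : (0 : ℝ) ≤ N := Nat.cast_nonneg _
      linarith
    linarith
  set s := Real.exp (((1 + N) * (2 * ε) + 2 * (1 / 2) ^ N) * logSize I) with hs
  have hs0 : 0 ≤ s := (Real.exp_pos _).le
  have h1 := dec_of_fac 32 M (fun i => fac_all (M i))
    (4 * Real.exp (-(ε ^ 2 / (4 * η))) * Fintype.card (∀ i, I i)) s hs0
    (fun E hE => layer E hE η ε hη hε0 hε1 N hΛ hd)
  refine h1.mono (le_of_eq ?_) ?_
  · have : ε ^ 2 / (4 * η) = (δ / (256 * (N + 1))) ^ 2 / η := by
      rw [hε]; field_simp; norm_num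
    rw [this]; push_cast; ring
  · rw [hs, ← Real.exp_nat_mul]
    apply Real.exp_le_exp.mpr
    have h2 : ((32 : ℕ) : ℝ) * ((1 + N) * (2 * ε) + 2 * (1 / 2) ^ N) ≤ δ := by
      have h3 : (32 : ℝ) * ((1 + N) * (2 * ε)) = δ / 2 := by
        rw [hε]; field_simp; ring
      have h4 : (32 : ℝ) * (2 * (1 / 2) ^ N) ≤ δ / 2 := by
        have h5 : (0 : ℝ) < 2 ^ N := by positivity
        have h6 : ((1 : ℝ) / 2) ^ N = 1 / 2 ^ N := by rw [_root_.one_div_pow]
        rw [h6]
        have : (32 : ℝ) * (2 * (1 / 2 ^ N)) = 64 / 2 ^ N := by ring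
        rw [this, div_le_div_iff₀ h5 (by norm_num)]
        linarith
      push_cast
      linarith
    calc ((32 : ℕ) : ℝ) * (((1 + N) * (2 * ε) + 2 * (1 / 2) ^ N) * logSize I)
        = (((32 : ℕ) : ℝ) * ((1 + N) * (2 * ε) + 2 * (1 / 2) ^ N)) * logSize I := by ring
      _ ≤ δ * logSize I := mul_le_mul_of_nonneg_right h2 hΛ.le

end

section
variable {F : Type*} [Field F]
variable {X Y : Type*} [Fintype X] [DecidableEq X] [Fintype Y] [DecidableEq Y]

theorem Dec.submatrix_inj {A : Matrix Y Y F} {r s : ℝ} (h : Dec A r s) (f : X → Y)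
    (hf : Function.Injective f) : Dec (A.submatrix f f) r s := by
  obtain ⟨R, S, rfl, h2, h3⟩ := h
  refine ⟨R.submatrix f f, S.submatrix f f, rfl, ?_, ?_, ?_⟩
  · refine le_trans ?_ h2
    exact_mod_cast Matrix.rank_submatrix_le R f f
  · intro x
    refine le_trans ?_ (h3.1 (f x))
    have : ({y | S.submatrix f f x y ≠ 0} : Set X).ncard ≤
        ({z | S (f x) z ≠ 0} : Set Y).ncard := by
      refine Set.ncard_le_ncard_of_injOn f (fun y hy => hy) hf.injOn (Set.toFinite _)
    exact_mod_cast this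
  · intro y
    refine le_trans ?_ (h3.2 (f y))
    have : ({x | S.submatrix f f x y ≠ 0} : Set X).ncard ≤
        ({z | S z (f y) ≠ 0} : Set Y).ncard := by
      refine Set.ncard_le_ncard_of_injOn f (fun y hy => hy) hf.injOn (Set.toFinite _)
    exact_mod_cast this

end

section
variable {ι : Type*} [Fintype ι] [DecidableEq ι] (m : ι → ℕ) [∀ i, NeZero (m i)]

/-- The discrete Fourier transforms. -/
noncomputable def dftM (i : ι) : Matrix (ZMod (m i)) (ZMod (m i)) ℂ :=
  fun x ξ => ZMod.stdAddChar (x * ξ)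

/-- The inverse discrete Fourier transforms. -/
noncomputable def dftI (i : ι) : Matrix (ZMod (m i)) (ZMod (m i)) ℂ :=
  fun ξ y => ZMod.stdAddChar (-(ξ * y)) / (m i : ℂ)

theorem circ_eq (g : (∀ i, ZMod (m i)) → ℂ) :
    (Matrix.of fun x y => g (x - y) : Matrix (∀ i, ZMod (m i)) (∀ i, ZMod (m i)) ℂ) =
      kron (dftM m) * Matrix.diagonal
        (fun ξ => ∑ h, g h * ∏ i, ZMod.stdAddChar (-(ξ i * h i))) * kron (dftI m) := by
  ext x y
  rw [Matrix.mul_apply]
  simp only [Matrix.mul_diagonal, Matrix.of_apply]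
  have e1 : ∀ ξ : ∀ i, ZMod (m i),
      kron (dftM m) x ξ * (∑ h, g h * ∏ i, ZMod.stdAddChar (-(ξ i * h i))) *
        kron (dftI m) ξ y =
      ∑ h, g h * ∏ i, (ZMod.stdAddChar (ξ i * (x i - h i - y i)) / (m i : ℂ)) := by
    intro ξ
    rw [Finset.mul_sum, Finset.sum_mul]
    refine Finset.sum_congr rfl fun h _ => ?_
    unfold kron dftM dftI
    have : ∀ i, (ZMod.stdAddChar (ξ i * (x i - h i - y i)) / (m i : ℂ)) =
        ZMod.stdAddChar (x i * ξ i) * ZMod.stdAddChar (-(ξ i * h i)) *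
          (ZMod.stdAddChar (-(ξ i * y i)) / (m i : ℂ)) := by
      intro i
      rw [← mul_div_assoc, ← AddChar.map_add_eq_mul, ← AddChar.map_add_eq_mul]
      congr 2
      ring
    rw [Finset.prod_congr rfl (fun i _ => this i), Finset.prod_mul_distrib,
      Finset.prod_mul_distrib]
    ring
  rw [Finset.sum_congr rfl (fun ξ _ => e1 ξ), Finset.sum_comm]
  have e2 : ∀ h : ∀ i, ZMod (m i),
      ∑ ξ : ∀ i, ZMod (m i), g h *
        ∏ i, (ZMod.stdAddChar (ξ i * (x i - h i - y i)) / (m i : ℂ)) =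
      if h = x - y then g h else 0 := by
    intro h
    rw [← Finset.mul_sum,
      ← Fintype.prod_sum (fun i (a : ZMod (m i)) =>
        (ZMod.stdAddChar (a * (x i - h i - y i)) / (m i : ℂ)))]
    have e3 : ∀ i, ∑ a : ZMod (m i), (ZMod.stdAddChar (a * (x i - h i - y i)) / (m i : ℂ)) =
        if x i - h i - y i = 0 then 1 else 0 := by
      intro i
      rw [← Finset.sum_div, AddChar.sum_mulShift _ (ZMod.isPrimitive_stdAddChar (m i))]
      split_ifs
      · rw [ZMod.card]
        exact div_self (by exact_mod_cast (NeZero.ne (m i)))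
      · rw [Nat.cast_zero, zero_div]
    rw [Finset.prod_congr rfl (fun i _ => e3 i)]
    split_ifs with hh
    · rw [Finset.prod_eq_one, mul_one]
      intro i _
      rw [if_pos]
      rw [hh, Pi.sub_apply]; ring
    · have : ∃ i, x i - h i - y i ≠ 0 := by
        by_contra hcon
        push Not at hcon
        apply hh
        funext i
        have := hcon i
        rw [Pi.sub_apply]
        linear_combination -this
      obtain ⟨i, hi⟩ := this
      rw [Finset.prod_eq_zero (Finset.mem_univ i) (if_neg hi), mul_zero]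
  rw [Finset.sum_congr rfl (fun h _ => e2 h), Finset.sum_ite_eq' Finset.univ (x - y)]
  simp

/-- Circulant matrices of a product of cyclic groups. -/
theorem dec_circ (g : (∀ i, ZMod (m i)) → ℂ) (η : ℝ) (hη : 0 < η) (δ : ℝ) (N : ℕ)
    (hδ : 0 < δ) (hδ1 : δ ≤ 1) (hN : 128 ≤ δ * 2 ^ N) (hΛ : 0 < ∑ i, Real.log (m i))
    (hd : ∀ i, Real.log (m i) ≤ η * ∑ i, Real.log (m i)) :
    Dec (Matrix.of fun x y => g (x - y) : Matrix (∀ i, ZMod (m i)) (∀ i, ZMod (m i)) ℂ)
      (256 * Real.exp (-((δ / (256 * (N + 1))) ^ 2 / η)) * ∏ i, (m i : ℝ))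
      (Real.exp (2 * δ * ∑ i, Real.log (m i))) := by
  have hl : logSize (fun i => ZMod (m i)) = ∑ i, Real.log (m i) := by
    unfold logSize
    refine Finset.sum_congr rfl fun i _ => ?_
    rw [ZMod.card]
  have hc : (Fintype.card (∀ i, ZMod (m i)) : ℝ) = ∏ i, (m i : ℝ) := by
    rw [Fintype.card_pi]
    push_cast
    refine Finset.prod_congr rfl fun i _ => ?_
    rw [ZMod.card]
  have hd' : ∀ i, Real.log (Fintype.card (ZMod (m i))) ≤
      η * logSize (fun i => ZMod (m i)) := by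
    intro i
    rw [hl, ZMod.card]
    exact hd i
  have hΛ' : 0 < logSize (fun i => ZMod (m i)) := by rw [hl]; exact hΛ
  have h1 := dec_kron (dftM m) η hη δ N hδ hδ1 hN hΛ' hd'
  have h2 := dec_kron (dftI m) η hη δ N hδ hδ1 hN hΛ' hd'
  rw [circ_eq]
  have hp : (0 : ℝ) ≤ Real.exp (δ * logSize (fun i => ZMod (m i))) := (Real.exp_pos _).le
  have h3 := Dec.mul (mul_nonneg hp zero_le_one) hp
    (Dec.mul hp zero_le_one h1 (isMono_diagonal
      (fun ξ : ∀ i, ZMod (m i) => ∑ h, g h * ∏ i, ZMod.stdAddChar (-(ξ i * h i)))).dec) h2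
  refine h3.mono (le_of_eq ?_) (le_of_eq ?_)
  · rw [hc]; ring
  · rw [mul_one, ← Real.exp_add, hl]
    congr 1
    ring

end

end MP0775d3.Kron
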