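import Pool.Agent.Lib.MP_0775d3_lc.Kron.Pow

/-! Kernels that are invariant under a product of cyclic groups, over a field with roots of
unity. -/

set_option linter.unusedSectionVars false
set_option linter.unusedVariables false
set_option linter.deprecated false

namespace MP0775d3.Kron

open Matrix

section
variable {F : Type*} [Field F]
variable {X Y Z : Type*} [Fintype X] [DecidableEq X] [Fintype Y] [DecidableEq Y]
  [Fintype Z] [DecidableEq Z]

theorem rank_submatrix_le' (A : Matrix Y Y F) (f g : X → Y) :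
    (A.submatrix f g).rank ≤ A.rank := by
  have h1 : (A.submatrix f g) = (1 : Matrix Y Y F).submatrix f id * A *
      (1 : Matrix Y Y F).submatrix id g := by
    ext i j
    simp [Matrix.mul_apply, Matrix.one_apply]
  rw [h1]
  exact (Matrix.rank_mul_le_left _ _).trans (Matrix.rank_mul_le_right _ _)

/-- Block diagonal matrices. -/
theorem dec_bd (M : Z → Matrix Y Y F) {r s : ℝ} (hs : 0 ≤ s) (h : ∀ z, Dec (M z) r s) :
    Dec (Matrix.of fun u v : Z × Y => if u.1 = v.1 then M u.1 u.2 v.2 else 0)
      (Fintype.card Z * r) s := by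
  classical
  choose R S h1 h2 h3 using h
  refine ⟨Matrix.of fun u v : Z × Y => if u.1 = v.1 then R u.1 u.2 v.2 else 0,
    Matrix.of fun u v : Z × Y => if u.1 = v.1 then S u.1 u.2 v.2 else 0, ?_, ?_, ?_, ?_⟩
  · ext u v
    rw [Matrix.add_apply, Matrix.of_apply, Matrix.of_apply, Matrix.of_apply]
    split_ifs
    · rw [h1, Matrix.add_apply]
    · rw [add_zero]
  · have e : (Matrix.of fun u v : Z × Y => if u.1 = v.1 then R u.1 u.2 v.2 else 0) =
        ∑ z : Z, Matrix.diagonal (fun u : Z × Y => if u.1 = z then (1 : F) else 0) *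
          (R z).submatrix Prod.snd Prod.snd *
          Matrix.diagonal (fun u : Z × Y => if u.1 = z then (1 : F) else 0) := by
      ext u v
      rw [Matrix.sum_apply, Matrix.of_apply]
      simp only [Matrix.mul_diagonal, Matrix.diagonal_mul, Matrix.submatrix_apply]
      rw [Finset.sum_eq_single u.1]
      · by_cases huv : u.1 = v.1
        · simp [huv]
        · simp [huv, Ne.symm huv]
      · intro z _ hz
        simp [Ne.symm hz]
      · intro hz
        exact absurd (Finset.mem_univ _) hz
    rw [e]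
    have := rank_sum_le (Finset.univ : Finset Z) (fun z =>
      Matrix.diagonal (fun u : Z × Y => if u.1 = z then (1 : F) else 0) *
          (R z).submatrix Prod.snd Prod.snd *
          Matrix.diagonal (fun u : Z × Y => if u.1 = z then (1 : F) else 0)) r ?_
    · rw [Finset.card_univ] at this
      exact this
    · intro z _
      refine le_trans ?_ (h2 z)
      have h4 := ((Matrix.rank_mul_le_left (Matrix.diagonal (fun u : Z × Y =>
        if u.1 = z then (1 : F) else 0) * (R z).submatrix Prod.snd Prod.snd)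
          (Matrix.diagonal (fun u : Z × Y => if u.1 = z then (1 : F) else 0))).trans
        (Matrix.rank_mul_le_right _ _)).trans (rank_submatrix_le' (R z) Prod.snd Prod.snd)
      exact_mod_cast h4
  · intro u
    refine le_trans ?_ ((h3 u.1).1 u.2)
    have : ({v : Z × Y | (Matrix.of fun u v : Z × Y =>
        if u.1 = v.1 then S u.1 u.2 v.2 else 0) u v ≠ 0} : Set (Z × Y)).ncard ≤
        ({y | S u.1 u.2 y ≠ 0} : Set Y).ncard := by
      refine Set.ncard_le_ncard_of_injOn Prod.snd ?_ ?_ (Set.toFinite _)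
      · intro v hv
        simp only [Set.mem_setOf_eq, Matrix.of_apply] at hv ⊢
        split_ifs at hv
        · exact hv
        · exact absurd rfl hv
      · intro v hv w hw hvw
        simp only [Set.mem_setOf_eq, Matrix.of_apply] at hv hw
        split_ifs at hv hw with a1 a2
        · exact Prod.ext (a1.symm.trans a2) hvw
        all_goals exact absurd rfl (by assumption)
    exact_mod_cast this
  · intro v
    refine le_trans ?_ ((h3 v.1).2 v.2)
    have : ({u : Z × Y | (Matrix.of fun u v : Z × Y =>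
        if u.1 = v.1 then S u.1 u.2 v.2 else 0) u v ≠ 0} : Set (Z × Y)).ncard ≤
        ({y | S v.1 y v.2 ≠ 0} : Set Y).ncard := by
      refine Set.ncard_le_ncard_of_injOn Prod.snd ?_ ?_ (Set.toFinite _)
      · intro u hu
        simp only [Set.mem_setOf_eq, Matrix.of_apply] at hu ⊢
        split_ifs at hu with a1
        · rwa [a1] at hu
        · exact absurd rfl hu
      · intro u hu w hw huw
        simp only [Set.mem_setOf_eq, Matrix.of_apply] at hu hw
        split_ifs at hu hw with a1 a2
        · exact Prod.ext (a1.trans a2.symm) huw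
        all_goals exact absurd rfl (by assumption)
    exact_mod_cast this

/-- `V ⊗ 1`. -/
theorem dec_tensor_one (V : Matrix Z Z F) {r s : ℝ} (hs : 0 ≤ s) (h : Dec V r s) :
    Dec (Matrix.of fun u v : Z × Y => if u.2 = v.2 then V u.1 v.1 else 0)
      (Fintype.card Y * r) s := by
  have := (dec_bd (Z := Y) (fun _ => V) hs (fun _ => h)).submatrix (Equiv.prodComm Z Y)
    (Equiv.prodComm Z Y)
  exact this

theorem dec_triv' (A : Matrix X X F) : Dec A 0 (Fintype.card X) := by
  refine Sparse.dec ⟨fun x => ?_, fun y => ?_⟩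
  · have := Set.ncard_le_card ({y | A x y ≠ 0} : Set X)
    rw [Nat.card_eq_fintype_card] at this
    exact_mod_cast this
  · have := Set.ncard_le_card ({x | A x y ≠ 0} : Set X)
    rw [Nat.card_eq_fintype_card] at this
    exact_mod_cast this

end

section
variable {E : Type*} [Field E]
variable {ι : Type*} [Fintype ι] [DecidableEq ι] (m : ι → ℕ) [∀ i, NeZero (m i)]
  (ψ : ∀ i, AddChar (ZMod (m i)) E)
variable {Y : Type*} [Fintype Y] [DecidableEq Y]

/-- The Fourier transforms. -/
def fM (i : ι) : Matrix (ZMod (m i)) (ZMod (m i)) E :=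
  fun x ξ => ψ i (x * ξ)

/-- The inverse Fourier transforms. -/
def fI (i : ι) : Matrix (ZMod (m i)) (ZMod (m i)) E :=
  fun ξ y => ψ i (-(ξ * y)) / (m i : E)

/-- The transform of a kernel. -/
def hat (Φ : (∀ i, ZMod (m i)) → Y → Y → E) (ξ : ∀ i, ZMod (m i)) : Matrix Y Y E :=
  fun u v => ∑ h, Φ h u v * ∏ i, ψ i (-(ξ i * h i))

theorem inversion (hψ : ∀ i, (ψ i).IsPrimitive) (hm : ∀ i, (m i : E) ≠ 0)
    (g : (∀ i, ZMod (m i)) → E) (x y : ∀ i, ZMod (m i)) :
    g (x - y) = ∑ ξ, kron (fM m ψ) x ξ * (∑ h, g h * ∏ i, ψ i (-(ξ i * h i))) *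
        kron (fI m ψ) ξ y := by
  have e1 : ∀ ξ : ∀ i, ZMod (m i),
      kron (fM m ψ) x ξ * (∑ h, g h * ∏ i, ψ i (-(ξ i * h i))) *
        kron (fI m ψ) ξ y =
      ∑ h, g h * ∏ i, (ψ i (ξ i * (x i - h i - y i)) / (m i : E)) := by
    intro ξ
    rw [Finset.mul_sum, Finset.sum_mul]
    refine Finset.sum_congr rfl fun h _ => ?_
    unfold kron fM fI
    have : ∀ i, (ψ i (ξ i * (x i - h i - y i)) / (m i : E)) =
        ψ i (x i * ξ i) * ψ i (-(ξ i * h i)) *
          (ψ i (-(ξ i * y i)) / (m i : E)) := by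
      intro i
      rw [← mul_div_assoc, ← AddChar.map_add_eq_mul, ← AddChar.map_add_eq_mul]
      congr 2
      ring
    rw [Finset.prod_congr rfl (fun i _ => this i), Finset.prod_mul_distrib,
      Finset.prod_mul_distrib]
    ring
  rw [Finset.sum_congr rfl (fun ξ _ => e1 ξ), Finset.sum_comm]
  have e2 : ∀ h : ∀ i, ZMod (m i),
      ∑ ξ : ∀ i, ZMod (m i), g h *
        ∏ i, (ψ i (ξ i * (x i - h i - y i)) / (m i : E)) =
      if h = x - y then g h else 0 := by
    intro h
    rw [← Finset.mul_sum,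
      ← Fintype.prod_sum (fun i (a : ZMod (m i)) =>
        (ψ i (a * (x i - h i - y i)) / (m i : E)))]
    have e3 : ∀ i, ∑ a : ZMod (m i), (ψ i (a * (x i - h i - y i)) / (m i : E)) =
        if x i - h i - y i = 0 then 1 else 0 := by
      intro i
      rw [← Finset.sum_div, AddChar.sum_mulShift _ (hψ i)]
      split_ifs
      · rw [ZMod.card]
        exact div_self (hm i)
      · rw [Nat.cast_zero, zero_div]
    rw [Finset.prod_congr rfl (fun i _ => e3 i)]
    split_ifs with hh
    · rw [Finset.prod_eq_one, mul_one]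
      intro i _
      rw [if_pos]
      rw [hh, Pi.sub_apply]; ring
    · have : ∃ i, x i - h i - y i ≠ 0 := by
        by_contra hcon
        push Not at hcon
        apply hh
        funext i
        have := hcon i
        rw [Pi.sub_apply]
        linear_combination -this
      obtain ⟨i, hi⟩ := this
      rw [Finset.prod_eq_zero (Finset.mem_univ i) (if_neg hi), mul_zero]
  rw [Finset.sum_congr rfl (fun h _ => e2 h), Finset.sum_ite_eq' Finset.univ (x - y)]
  simp

theorem fib_eq (hψ : ∀ i, (ψ i).IsPrimitive) (hm : ∀ i, (m i : E) ≠ 0)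
    (Φ : (∀ i, ZMod (m i)) → Y → Y → E) :
    (Matrix.of fun u v : (∀ i, ZMod (m i)) × Y => Φ (u.1 - v.1) u.2 v.2) =
      (Matrix.of fun u v : (∀ i, ZMod (m i)) × Y =>
        if u.2 = v.2 then kron (fM m ψ) u.1 v.1 else 0) *
      (Matrix.of fun u v : (∀ i, ZMod (m i)) × Y =>
        if u.1 = v.1 then hat m ψ Φ u.1 u.2 v.2 else 0) *
      (Matrix.of fun u v : (∀ i, ZMod (m i)) × Y =>
        if u.2 = v.2 then kron (fI m ψ) u.1 v.1 else 0) := by
  ext u v
  rw [Matrix.of_apply, inversion m ψ hψ hm (fun h => Φ h u.2 v.2) u.1 v.1, Matrix.mul_apply,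
    Fintype.sum_prod_type]
  refine Finset.sum_congr rfl fun ξ _ => ?_
  have e1 : ∀ b : Y, ((Matrix.of fun u v : (∀ i, ZMod (m i)) × Y =>
        if u.2 = v.2 then kron (fM m ψ) u.1 v.1 else 0) *
      (Matrix.of fun u v : (∀ i, ZMod (m i)) × Y =>
        if u.1 = v.1 then hat m ψ Φ u.1 u.2 v.2 else 0)) u (ξ, b) =
      kron (fM m ψ) u.1 ξ * hat m ψ Φ ξ u.2 b := by
    intro b
    rw [Matrix.mul_apply, Fintype.sum_prod_type, Finset.sum_eq_single ξ]
    · rw [Finset.sum_eq_single u.2]
      · simp only [Matrix.of_apply, if_true]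
      · intro b _ hb
        simp [Ne.symm hb]
      · intro hb
        exact absurd (Finset.mem_univ _) hb
    · intro η _ hη
      refine Finset.sum_eq_zero fun b _ => ?_
      simp [hη]
    · intro hb
      exact absurd (Finset.mem_univ _) hb
  rw [Finset.sum_congr rfl (fun b _ => congrArg (fun z => z * _) (e1 b)),
    Finset.sum_eq_single v.2]
  · simp only [Matrix.of_apply, if_true]
    rfl
  · intro b _ hb
    simp [hb]
  · intro hb
    exact absurd (Finset.mem_univ _) hb

theorem fib_dec (hψ : ∀ i, (ψ i).IsPrimitive) (hm : ∀ i, (m i : E) ≠ 0)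
    (Φ : (∀ i, ZMod (m i)) → Y → Y → E) {r s r' s' : ℝ} (hs : 0 ≤ s) (hs' : 0 ≤ s')
    (hV : Dec (kron (fM m ψ)) r s) (hV' : Dec (kron (fI m ψ)) r s)
    (h : ∀ ξ, Dec (hat m ψ Φ ξ) r' s') :
    Dec (Matrix.of fun u v : (∀ i, ZMod (m i)) × Y => Φ (u.1 - v.1) u.2 v.2)
      (2 * (Fintype.card Y * r) + Fintype.card (∀ i, ZMod (m i)) * r') (s * s' * s) := by
  rw [fib_eq m ψ hψ hm Φ]
  have h1 := dec_tensor_one (Y := Y) _ hs hV
  have h2 := dec_tensor_one (Y := Y) _ hs hV'
  have h3 := dec_bd (fun ξ => hat m ψ Φ ξ) hs' h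
  refine (Dec.mul (mul_nonneg hs hs') hs (Dec.mul hs hs' h1 h3) h2).mono (le_of_eq ?_)
    (le_of_eq ?_)
  · ring
  · ring

end

end MP0775d3.Kron
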