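import Pool.Agent.Lib.MP_0775d3_lc.Kron.Iter

/-! Matrices `t (a i - b j)` with integer nodes in an interval. -/

set_option linter.unusedSectionVars false
set_option linter.unusedVariables false
set_option linter.deprecated false

namespace MP0775d3.Kron

open Matrix Filter

section
variable {F : Type*} [Field F]
variable {X Y : Type*} [Fintype X] [DecidableEq X] [Fintype Y] [DecidableEq Y]

theorem rank_submatrix_le₂ (A : Matrix Y Y F) (f g : X → Y) :
    (A.submatrix f g).rank ≤ A.rank := by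
  have h1 : (A.submatrix f g) = (1 : Matrix Y Y F).submatrix f id * A *
      (1 : Matrix Y Y F).submatrix id g := by
    ext i j
    simp [Matrix.mul_apply, Matrix.one_apply]
  rw [h1]
  exact (Matrix.rank_mul_le_left _ _).trans (Matrix.rank_mul_le_right _ _)

theorem Dec.submatrix_inj₂ {A : Matrix Y Y F} {r s : ℝ} (h : Dec A r s) (f g : X → Y)
    (hf : Function.Injective f) (hg : Function.Injective g) : Dec (A.submatrix f g) r s := by
  obtain ⟨R, S, rfl, h2, h3⟩ := h
  refine ⟨R.submatrix f g, S.submatrix f g, rfl, ?_, ?_, ?_⟩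
  · refine le_trans ?_ h2
    exact_mod_cast rank_submatrix_le₂ R f g
  · intro x
    refine le_trans ?_ (h3.1 (f x))
    have : ({y | S.submatrix f g x y ≠ 0} : Set X).ncard ≤
        ({z | S (f x) z ≠ 0} : Set Y).ncard := by
      refine Set.ncard_le_ncard_of_injOn g (fun y hy => hy) hg.injOn (Set.toFinite _)
    exact_mod_cast this
  · intro y
    refine le_trans ?_ (h3.2 (g y))
    have : ({x | S.submatrix f g x y ≠ 0} : Set X).ncard ≤
        ({z | S z (g y) ≠ 0} : Set Y).ncard := by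
      refine Set.ncard_le_ncard_of_injOn f (fun y hy => hy) hf.injOn (Set.toFinite _)
    exact_mod_cast this

end

section

theorem nodes (k : ℕ) (δ : ℝ) (hδ : 0 < δ) : ∃ c : ℝ, 0 < c ∧ ∃ n₀ : ℕ, ∀ n : ℕ, n₀ ≤ n →
    ∀ a b : Fin n → ℤ, Function.Injective a → Function.Injective b →
    (∀ i, 0 ≤ a i ∧ (a i : ℝ) < (n : ℝ) ^ (1 + c / Real.log^[k + 2] n)) →
    (∀ i, 0 ≤ b i ∧ (b i : ℝ) < (n : ℝ) ^ (1 + c / Real.log^[k + 2] n)) →
    ∀ t : ℤ → ℂ, ∃ R S : Matrix (Fin n) (Fin n) ℂ,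
      (Matrix.of fun i j => t (a i - b j)) = R + S ∧
      (R.rank : ℝ) ≤ (n : ℝ) ^ (1 - c / Real.log^[k + 2] n) ∧
      Sparse S ((n : ℝ) ^ δ) := by
  obtain ⟨c₀, hc₀, m₀, hm₀⟩ := PP_all k (min δ 1 / 2) (by positivity)
    (by have := min_le_right δ 1; linarith)
  have E1 : ∀ᶠ n : ℕ in atTop, 0 < Real.log^[k + 2] (n : ℝ) :=
    tendsto_natCast_atTop_atTop.eventually ((itlog_tendsto (k + 2)).eventually_gt_atTop 0)
  have E2 : ∀ᶠ n : ℕ in atTop, ∀ z, (n : ℝ) ≤ z →
      Real.log^[k + 2] (n : ℝ) ≤ Real.log^[k + 2] z :=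
    tendsto_natCast_atTop_atTop.eventually (itlog_mono (k + 2))
  have E3 : ∀ᶠ n : ℕ in atTop, Real.log^[k + 2] ((n : ℝ) ^ 2) ≤ 2 * Real.log^[k + 2] (n : ℝ) :=
    tendsto_natCast_atTop_atTop.eventually (itlog_sq (k + 1))
  have E4 : ∀ᶠ n : ℕ in atTop, Real.log^[k + 2] (n : ℝ) ≤ Real.log (Real.log n) :=
    tendsto_natCast_atTop_atTop.eventually (itlog_le k)
  have E5 : ∀ᶠ n : ℕ in atTop, Real.log (Real.log n) ≤ (c₀ / 4) * Real.log n :=
    log_cast_tendsto.eventually (log_le_eps _ (by positivity))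
  have E6 : ∀ᶠ n : ℕ in atTop, c₀ / 4 ≤ Real.log^[k + 2] (n : ℝ) :=
    tendsto_natCast_atTop_atTop.eventually ((itlog_tendsto (k + 2)).eventually_ge_atTop _)
  have E7 : ∀ᶠ n : ℕ in atTop, ∀ z, ((n ^ 2 : ℕ) : ℝ) ≤ z →
      Real.log^[k + 2] ((n ^ 2 : ℕ) : ℝ) ≤ Real.log^[k + 2] z := by
    have : Tendsto (fun n : ℕ => ((n ^ 2 : ℕ) : ℝ)) atTop atTop :=
      tendsto_natCast_atTop_atTop.comp (tendsto_pow_atTop two_ne_zero)
    exact this.eventually (itlog_mono (k + 2))
  -- all larger sizes are good as well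
  obtain ⟨m₁, hm₁⟩ := eventually_atTop.mp (E1.and E2)
  refine ⟨c₀ / 8, by positivity, ?_⟩
  have key : ∀ᶠ n : ℕ in atTop, ∀ a b : Fin n → ℤ, Function.Injective a → Function.Injective b →
      (∀ i, 0 ≤ a i ∧ (a i : ℝ) < (n : ℝ) ^ (1 + c₀ / 8 / Real.log^[k + 2] n)) →
      (∀ i, 0 ≤ b i ∧ (b i : ℝ) < (n : ℝ) ^ (1 + c₀ / 8 / Real.log^[k + 2] n)) →
      ∀ t : ℤ → ℂ, Dec (Matrix.of fun i j => t (a i - b j))
        ((n : ℝ) ^ (1 - c₀ / 8 / Real.log^[k + 2] n)) ((n : ℝ) ^ δ) := by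
    filter_upwards [E1, E2, E3, E4, E5, E6, log_cast_tendsto.eventually_ge_atTop 4,
      eventually_ge_atTop 4, eventually_ge_atTop (max m₀ m₁)] with
      n f1 f2 f3 f4 f5 f6 f7 f8 f9 a b ha hb hab hbb t
    set L := Real.log (n : ℝ) with hL
    set ℓ := Real.log^[k + 2] (n : ℝ) with hℓ
    have hn4 : (4 : ℝ) ≤ n := by exact_mod_cast f8
    have hn0 : (0 : ℝ) < n := by linarith
    have hl2 := Real.log_two_lt_d9
    set q : ℝ := (n : ℝ) ^ (1 + c₀ / 8 / ℓ) with hq
    have hq1 : (n : ℝ) ≤ q := by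
      have h1 : (n : ℝ) ^ (1 : ℝ) ≤ (n : ℝ) ^ (1 + c₀ / 8 / ℓ) := by
        refine Real.rpow_le_rpow_of_exponent_le (by linarith) ?_
        have : 0 < c₀ / 8 / ℓ := by positivity
        linarith
      rwa [Real.rpow_one] at h1
    set M : ℕ := ⌈q⌉₊ with hM
    have hqM : q ≤ M := Nat.le_ceil q
    have hMq : (M : ℝ) ≤ 2 * q := by
      have := (Nat.ceil_lt_add_one (by linarith : (0 : ℝ) ≤ q)).le
      linarith
    have hnM : n ≤ M := by exact_mod_cast hq1.trans hqM
    have hM0 : (0 : ℝ) < M := lt_of_lt_of_le hn0 (by exact_mod_cast hnM)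
    have hlogq : Real.log q = L + c₀ / 8 / ℓ * L := by
      rw [hq, Real.log_rpow hn0]; ring
    have hlogM : Real.log M ≤ Real.log 2 + (L + c₀ / 8 / ℓ * L) := by
      have := Real.log_le_log hM0 hMq
      rwa [Real.log_mul (by norm_num) (by linarith), hlogq] at this
    have hLM : L ≤ Real.log M := Real.log_le_log hn0 (by exact_mod_cast hnM)
    have h8 : c₀ / 8 / ℓ ≤ 1 / 2 := by
      rw [div_le_div_iff₀ f1 (by norm_num)]
      linarith
    have hM2 : (M : ℝ) ≤ (n : ℝ) ^ 2 := by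
      rw [← Real.log_le_log_iff hM0 (by positivity), Real.log_pow]
      push_cast
      nlinarith
    have hLM2 : Real.log M ≤ 2 * L := by
      have := Real.log_le_log hM0 hM2
      rw [Real.log_pow] at this
      push_cast at this
      exact this
    have hMm : max m₀ m₁ ≤ M := f9.trans hnM
    obtain ⟨g1, g2⟩ := hm₁ M ((le_max_right _ _).trans hMm)
    have hℓM : Real.log^[k + 2] (M : ℝ) ≤ 2 * ℓ := (g2 _ hM2).trans f3
    have hMd := hm₀ M ((le_max_left _ _).trans hMm) t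
    have hfa : ∀ i, (a i).toNat < M := by
      intro i
      have h1 : (((a i).toNat : ℕ) : ℝ) = (a i : ℝ) := by
        have : (((a i).toNat : ℤ)) = a i := Int.toNat_of_nonneg (hab i).1
        exact_mod_cast this
      have h2 : (((a i).toNat : ℕ) : ℝ) < M := by
        rw [h1]
        exact lt_of_lt_of_le (hab i).2 hqM
      exact_mod_cast h2
    have hfb : ∀ i, (b i).toNat < M := by
      intro i
      have h1 : (((b i).toNat : ℕ) : ℝ) = (b i : ℝ) := by
        have : (((b i).toNat : ℤ)) = b i := Int.toNat_of_nonneg (hbb i).1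
        exact_mod_cast this
      have h2 : (((b i).toNat : ℕ) : ℝ) < M := by
        rw [h1]
        exact lt_of_lt_of_le (hbb i).2 hqM
      exact_mod_cast h2
    have hsub : (Matrix.of fun i j => t (a i - b j)) =
        (Toep M t).submatrix (fun i => (⟨(a i).toNat, hfa i⟩ : Fin M))
          (fun i => (⟨(b i).toNat, hfb i⟩ : Fin M)) := by
      ext i j
      show t (a i - b j) = t ((((a i).toNat : ℕ) : ℤ) - (((b j).toNat : ℕ) : ℤ))
      rw [Int.toNat_of_nonneg (hab i).1, Int.toNat_of_nonneg (hbb j).1]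
    rw [hsub]
    have hinja : Function.Injective (fun i => (⟨(a i).toNat, hfa i⟩ : Fin M)) := by
      intro i j hij
      have h1 := Fin.mk.inj hij
      apply ha
      have h2 := Int.toNat_of_nonneg (hab i).1
      have h3 := Int.toNat_of_nonneg (hab j).1
      omega
    have hinjb : Function.Injective (fun i => (⟨(b i).toNat, hfb i⟩ : Fin M)) := by
      intro i j hij
      have h1 := Fin.mk.inj hij
      apply hb
      have h2 := Int.toNat_of_nonneg (hbb i).1
      have h3 := Int.toNat_of_nonneg (hbb j).1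
      omega
    refine (hMd.submatrix_inj₂ _ _ hinja hinjb).mono ?_ ?_
    · rw [Real.rpow_def_of_pos hn0]
      apply Real.exp_le_exp.mpr
      have h1 : c₀ / (2 * ℓ) ≤ c₀ / Real.log^[k + 2] (M : ℝ) :=
        div_le_div_of_nonneg_left hc₀.le g1 hℓM
      have h2 : c₀ / (2 * ℓ) * L ≤ c₀ / Real.log^[k + 2] (M : ℝ) * Real.log M :=
        mul_le_mul h1 hLM (by linarith) (div_pos hc₀ g1).le
      have h3 : Real.log 2 ≤ c₀ / 4 / ℓ * L := by
        have h4 : ℓ ≤ c₀ / 4 * L := f4.trans f5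
        have h5 : (1 : ℝ) ≤ c₀ / 4 / ℓ * L := by
          rw [div_mul_eq_mul_div, le_div_iff₀ f1, one_mul]
          exact h4
        linarith
      have h6 : c₀ / (2 * ℓ) * L = 4 * (c₀ / 8 / ℓ * L) := by
        field_simp
        norm_num
      have h7 : c₀ / 4 / ℓ * L = 2 * (c₀ / 8 / ℓ * L) := by
        field_simp
        norm_num
      nlinarith
    · rw [Real.rpow_def_of_pos hn0]
      apply Real.exp_le_exp.mpr
      have h1 : min δ 1 / 2 * Real.log M ≤ min δ 1 / 2 * (2 * L) :=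
        mul_le_mul_of_nonneg_left hLM2 (by positivity)
      have h2 : min δ 1 * L ≤ δ * L := mul_le_mul_of_nonneg_right (min_le_left _ _) (by linarith)
      linarith
  obtain ⟨n₀, hn₀⟩ := eventually_atTop.mp key
  exact ⟨n₀, fun n hn a b ha hb hab hbb t => hn₀ n hn a b ha hb hab hbb t⟩

end

end MP0775d3.Kron
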