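import Pool.Agent.Lib.MP_0775d3_lc.Kron.Consts

/-! Descent to subfields and kernels invariant under a finite abelian group. -/

set_option linter.unusedSectionVars false
set_option linter.unusedVariables false
set_option linter.deprecated false

namespace MP0775d3.Kron

open Matrix

section
variable {F E : Type*} [Field F] [Field E] [Algebra F E] [FiniteDimensional F E]
variable {X : Type*} [Fintype X] [DecidableEq X]

theorem descend (M : Matrix X X F) {r s : ℝ} (h : Dec (M.map (algebraMap F E)) r s) :
    Dec M (Module.finrank F E * r) s := by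
  classical
  obtain ⟨R, S, h1, h2, h3⟩ := h
  obtain ⟨π, hπ⟩ : ∃ π : E →ₗ[F] F, π ∘ₗ Algebra.linearMap F E = LinearMap.id :=
    LinearMap.exists_leftInverse_of_injective _ (LinearMap.ker_eq_bot.mpr
      (algebraMap F E).injective)
  have hπ' : ∀ a : F, π (algebraMap F E a) = a := fun a => LinearMap.congr_fun hπ a
  refine ⟨R.map π, S.map π, ?_, ?_, ?_, ?_⟩
  · ext x y
    rw [Matrix.add_apply, Matrix.map_apply, Matrix.map_apply, ← map_add, ← Matrix.add_apply, ← h1,
      Matrix.map_apply, hπ']
  · obtain ⟨P, Q, d, hP, hQ, hR⟩ := exists_PDQ R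
    have hrank := rank_PDQ hP hQ hR
    set β := Module.finBasis F E with hβ
    have hfac : R.map π =
        (Matrix.of fun (x : X) (zc : {z // d z ≠ 0} × Fin (Module.finrank F E)) =>
          π (P x zc.1.1 * d zc.1.1 * β zc.2)) *
        (Matrix.of fun (zc : {z // d z ≠ 0} × Fin (Module.finrank F E)) (y : X) =>
          β.repr (Q zc.1.1 y) zc.2) := by
      ext x y
      rw [Matrix.mul_apply, Fintype.sum_prod_type, Matrix.map_apply, hR, Matrix.mul_apply]
      have e1 : ∑ z, (P * Matrix.diagonal d) x z * Q z y =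
          ∑ z : {z // d z ≠ 0}, P x z.1 * d z.1 * Q z.1 y := by
        have e2 : ∀ z, (P * Matrix.diagonal d) x z * Q z y = P x z * d z * Q z y := by
          intro z
          rw [Matrix.mul_diagonal]
        rw [Finset.sum_congr rfl (fun z _ => e2 z),
          ← Fintype.sum_subtype_add_sum_subtype (fun z => d z ≠ 0)
            (fun z => P x z * d z * Q z y)]
        have e3 : ∑ z : {z // ¬ d z ≠ 0}, P x z.1 * d z.1 * Q z.1 y = 0 := by
          refine Finset.sum_eq_zero fun z _ => ?_
          rw [not_not.mp z.2]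
          ring
        rw [e3, add_zero]
      rw [e1, map_sum]
      refine Finset.sum_congr rfl fun z _ => ?_
      have e4 : Q z.1 y = ∑ c, β.repr (Q z.1 y) c • β c := (β.sum_repr _).symm
      rw [e4, Finset.mul_sum, map_sum]
      refine Finset.sum_congr rfl fun c _ => ?_
      rw [mul_smul_comm, map_smul, smul_eq_mul, mul_comm]
      rfl
    have h5 : (R.map π).rank ≤ R.rank * Module.finrank F E := by
      rw [hfac]
      refine (Matrix.rank_mul_le_left _ _).trans ((Matrix.rank_le_card_width _).trans ?_)
      rw [Fintype.card_prod, Fintype.card_fin, hrank, ← Nat.card_eq_fintype_card]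
      rfl
    calc ((R.map π).rank : ℝ) ≤ ((R.rank * Module.finrank F E : ℕ) : ℝ) := by exact_mod_cast h5
      _ = Module.finrank F E * R.rank := by push_cast; ring
      _ ≤ Module.finrank F E * r := mul_le_mul_of_nonneg_left h2 (Nat.cast_nonneg _)
  · intro x
    refine le_trans ?_ (h3.1 x)
    have : ({y | S.map π x y ≠ 0} : Set X) ⊆ {y | S x y ≠ 0} := by
      intro y hy h0
      apply hy
      rw [Matrix.map_apply, h0, map_zero]
    exact_mod_cast Set.ncard_le_ncard this (Set.toFinite _)
  · intro y
    refine le_trans ?_ (h3.2 y)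
    have : ({x | S.map π x y ≠ 0} : Set X) ⊆ {x | S x y ≠ 0} := by
      intro x hx h0
      apply hx
      rw [Matrix.map_apply, h0, map_zero]
    exact_mod_cast Set.ncard_le_ncard this (Set.toFinite _)

end

section

/-- A small extension with all roots of unity of small order. -/
theorem exists_ext.{u} (F : Type u) [Field F] (b : ℕ) : ∃ (E : Type u) (_ : Field E) (_ : Algebra F E)
    (_ : FiniteDimensional F E), Module.finrank F E ≤ b.factorial ∧
    ∀ q : ℕ, q ≤ b → (q : F) ≠ 0 → ∃ ζ : E, IsPrimitiveRoot ζ q := by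
  classical
  set M : ℕ := ∏ q ∈ (Finset.Ico 1 (b + 1)).filter (fun q : ℕ => (q : F) ≠ 0), q with hM
  have hMF : (M : F) ≠ 0 := by
    rw [hM]
    push_cast
    rw [Finset.prod_ne_zero_iff]
    intro q hq
    exact (Finset.mem_filter.mp hq).2
  have hM0 : M ≠ 0 := by
    intro h
    apply hMF
    rw [h, Nat.cast_zero]
  have : NeZero M := ⟨hM0⟩
  have : NeZero (M : F) := ⟨hMF⟩
  have hMb : M ≤ b.factorial := by
    rw [← Finset.prod_Ico_id_eq_factorial b, hM]
    refine Finset.prod_le_prod_of_subset_of_one_le' (Finset.filter_subset _ _) fun q hq _ => ?_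
    exact (Finset.mem_Ico.mp hq).1
  have hfd : FiniteDimensional F (CyclotomicField M F) :=
    IsCyclotomicExtension.finiteDimensional {M} F (CyclotomicField M F)
  refine ⟨CyclotomicField M F, inferInstance, inferInstance, hfd, ?_, ?_⟩
  · have hζ := IsCyclotomicExtension.zeta_spec M F (CyclotomicField M F)
    have h1 := (hζ.powerBasis F).finrank
    rw [h1, ← (hζ.powerBasis F).natDegree_minpoly]
    have h2 : (hζ.powerBasis F).gen = IsCyclotomicExtension.zeta M F (CyclotomicField M F) := by
      simp
    rw [h2]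
    refine le_trans ?_ hMb
    have h3 : minpoly F (IsCyclotomicExtension.zeta M F (CyclotomicField M F)) ∣
        Polynomial.X ^ M - Polynomial.C 1 := by
      apply minpoly.dvd
      simp [hζ.pow_eq_one]
    have h4 := Polynomial.natDegree_le_of_dvd h3
      (Polynomial.X_pow_sub_C_ne_zero (Nat.pos_of_ne_zero hM0) _)
    rwa [Polynomial.natDegree_X_pow_sub_C] at h4
  · intro q hq hqF
    have hζ := IsCyclotomicExtension.zeta_spec M F (CyclotomicField M F)
    have hq0 : q ≠ 0 := by
      intro h
      apply hqF
      rw [h, Nat.cast_zero]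
    have hdvd : q ∣ M := by
      rw [hM]
      refine Finset.dvd_prod_of_mem _ ?_
      rw [Finset.mem_filter, Finset.mem_Ico]
      exact ⟨⟨Nat.pos_of_ne_zero hq0, Nat.lt_succ_of_le hq⟩, hqF⟩
    obtain ⟨k, hk⟩ := hdvd
    exact ⟨_, hζ.pow (Nat.pos_of_ne_zero hM0) (by rw [hk, mul_comm])⟩

end

end MP0775d3.Kron
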