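import Pool.Agent.Lib.MP_0775d3_lc.Kron.Combine2
import Pool.Agent.Lib.MP_0775d3_lc.Kron.Nodes

/-! Kernels invariant under a finite abelian group. -/

set_option linter.unusedSectionVars false
set_option linter.unusedVariables false
set_option linter.deprecated false

namespace MP0775d3.Kron

open Matrix Filter

section

universe u v

theorem inv_dec (δ : ℝ) (hδ : 0 < δ) (hδ1 : δ ≤ 1) : ∃ γ : ℝ, 0 < γ ∧ ∃ C : ℝ, 0 < C ∧
    ∀ (F : Type u) [Field F] (A : Type v) [Group A] [Finite A] (hA : ∀ g h : A, g * h = h * g)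
      (X : Type v) [Fintype X] [DecidableEq X] [MulAction A X] (K : X → X → F),
      (∀ (g : A) x y, K (g • x) (g • y) = K x y) →
    Dec (Matrix.of K)
      (C * (Nat.card (MulAction.orbitRel.Quotient A X) *
        Real.exp ((1 - γ) * Real.log (Nat.card A))))
      (Nat.card (MulAction.orbitRel.Quotient A X) * Real.exp (8 * δ * Real.log (Nat.card A))) := by
  obtain ⟨γ, hγ, C, hC, hker⟩ := ker_all.{u, 0, v} δ hδ hδ1
  refine ⟨γ, hγ, C, hC, ?_⟩
  intro F _ A _ _ hA X _ _ _ K hK
  classical
  let _ : CommGroup A := { ‹Group A› with mul_comm := hA }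
  obtain ⟨ι, _, p, hp, e, ⟨φ₀⟩⟩ := AddCommGroup.equiv_directSum_zmod_of_finite (Additive A)
  let φ : Additive A ≃+ ∀ i, ZMod (p i ^ e i) :=
    φ₀.trans (DirectSum.addEquivProd fun i => ZMod (p i ^ e i))
  have hne : ∀ i, NeZero (p i ^ e i) := fun i => ⟨pow_ne_zero _ (hp i).ne_zero⟩
  set Q := MulAction.orbitRel.Quotient A X with hQ
  let _ : Fintype Q := Fintype.ofFinite Q
  -- orbit representatives
  have hrep : ∀ x : X, ∃ g : A, g • (Quotient.out (Quotient.mk (MulAction.orbitRel A X) x)) = x := by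
    intro x
    have h1 : (MulAction.orbitRel A X) (Quotient.out (Quotient.mk (MulAction.orbitRel A X) x)) x :=
      Quotient.mk_out x
    rw [MulAction.orbitRel_apply] at h1
    obtain ⟨g, hg⟩ := h1
    refine ⟨g⁻¹, ?_⟩
    rw [← hg]
    exact inv_smul_smul g x
  choose α hα using hrep
  set rep : Q → X := fun q => Quotient.out q with hrepdef
  set q : X → Q := fun x => Quotient.mk (MulAction.orbitRel A X) x with hq
  have hα' : ∀ x, α x • rep (q x) = x := hα
  set f : Q → Q → (∀ i, ZMod (p i ^ e i)) → F := fun a b h =>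
    K ((φ.symm h).toMul • rep a) (rep b) with hf
  set ν : X → Q × (∀ i, ZMod (p i ^ e i)) := fun x => (q x, φ (Additive.ofMul (α x))) with hν
  have hνi : Function.Injective ν := by
    intro x y hxy
    simp only [hν, Prod.mk.injEq] at hxy
    have h1 : α x = α y := Additive.ofMul.injective (φ.injective hxy.2)
    rw [← hα' x, ← hα' y, hxy.1, h1]
  have hmat : Matrix.of K = (Matrix.of fun u v : Q × (∀ i, ZMod (p i ^ e i)) =>
      f u.1 v.1 (u.2 - v.2)).submatrix ν ν := by
    ext x y
    rw [Matrix.submatrix_apply, Matrix.of_apply, Matrix.of_apply]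
    show K x y = K ((φ.symm (φ (Additive.ofMul (α x)) - φ (Additive.ofMul (α y)))).toMul •
      rep (q x)) (rep (q y))
    rw [← map_sub, AddEquiv.symm_apply_apply]
    have h1 : (Additive.ofMul (α x) - Additive.ofMul (α y)).toMul = (α y)⁻¹ * α x := by
      rw [← ofMul_div, toMul_ofMul, div_eq_mul_inv, mul_comm]
    rw [h1]
    conv_lhs => rw [← hα' x, ← hα' y]
    rw [← hK (α y)⁻¹, inv_smul_smul, smul_smul]
  have hcard : Real.log (Nat.card A) = ∑ i, Real.log (p i ^ e i : ℕ) := by
    have h1 : Nat.card A = Nat.card (∀ i, ZMod (p i ^ e i)) := by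
      have h2 : Nat.card A = Nat.card (Additive A) := Nat.card_congr Additive.ofMul
      rw [h2]
      exact Nat.card_congr φ.toEquiv
    rw [h1, Nat.card_eq_fintype_card, card_zmods (fun i => p i ^ e i), Real.log_exp]
  have key := hker F ι p e hp Q f
  rw [hmat, hcard, Nat.card_eq_fintype_card]
  exact key.submatrix_inj ν hνi

end

end MP0775d3.Kron
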