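import Pool.Agent.Lib.MP_0775d3_lc.Kron.Invariant

/-! The asymptotic statements. -/

set_option linter.unusedSectionVars false
set_option linter.unusedVariables false
set_option linter.deprecated false

namespace MP0775d3.Kron

open Matrix Filter

section

universe u v

theorem card_le_orbits (A X : Type*) [Group A] [Finite A] [Finite X] [MulAction A X] :
    Nat.card X ≤ Nat.card A * Nat.card (MulAction.orbitRel.Quotient A X) := by
  rw [← Nat.card_prod]
  refine Nat.card_le_card_of_surjective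
    (fun gq : A × MulAction.orbitRel.Quotient A X => gq.1 • (Quotient.out gq.2 : X)) ?_
  intro x
  have h1 : (MulAction.orbitRel A X) (Quotient.out (Quotient.mk (MulAction.orbitRel A X) x)) x :=
    Quotient.mk_out x
  rw [MulAction.orbitRel_apply] at h1
  obtain ⟨g, hg⟩ := h1
  refine ⟨(g⁻¹, Quotient.mk (MulAction.orbitRel A X) x), ?_⟩
  show g⁻¹ • (Quotient.out (Quotient.mk (MulAction.orbitRel A X) x)) = x
  rw [← hg]
  exact inv_smul_smul g x

theorem partA (δ : ℝ) (hδ : 0 < δ) : ∃ γ : ℝ, 0 < γ ∧ ∃ n₀ : ℕ, ∀ n : ℕ, n₀ ≤ n →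
    ∀ (F : Type u) [Field F] (A X : Type v) [Group A] [Finite A] [Finite X] [MulAction A X],
      (∀ g h : A, g * h = h * g) →
      (Nat.card (MulAction.orbitRel.Quotient A X) : ℝ) ≤ (n : ℝ) ^ (δ / 2) →
      (Nat.card A * Nat.card (MulAction.orbitRel.Quotient A X) : ℝ) ≤ (n : ℝ) ^ (1 + γ) →
    ∀ K : X → X → F, (∀ (g : A) x y, K (g • x) (g • y) = K x y) →
    ∀ a b : Fin n → X, Function.Injective a → Function.Injective b →
      Dec (Matrix.of fun i j => K (a i) (b j)) ((n : ℝ) ^ (1 - γ)) ((n : ℝ) ^ δ) := by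
  rcases le_or_gt 1 δ with h1 | h1
  · refine ⟨1, one_pos, 1, ?_⟩
    intro n hn F _ A X _ _ _ _ hA hQ hAQ K hK a b ha hb
    have hn1 : (1 : ℝ) ≤ n := by exact_mod_cast hn
    refine (dec_triv' _).mono (by positivity) ?_
    rw [Fintype.card_fin]
    calc (n : ℝ) = (n : ℝ) ^ (1 : ℝ) := (Real.rpow_one _).symm
      _ ≤ (n : ℝ) ^ δ := Real.rpow_le_rpow_of_exponent_le hn1 h1
  · obtain ⟨γ₁, hγ₁, C, hC, hinv⟩ := inv_dec.{u, v} (δ / 64) (by positivity) (by linarith)
    have hev : ∀ᶠ n : ℕ in atTop, Real.log C ≤ γ₁ / 4 * Real.log (n : ℝ) := by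
      have h2 : Tendsto (fun n : ℕ => γ₁ / 4 * Real.log (n : ℝ)) atTop atTop :=
        log_cast_tendsto.const_mul_atTop (by positivity)
      exact h2.eventually_ge_atTop _
    obtain ⟨n₀, hn₀⟩ := eventually_atTop.mp (hev.and (eventually_ge_atTop 1))
    refine ⟨min (γ₁ / 8) 1, by positivity, n₀, ?_⟩
    intro n hn F _ A X _ _ _ _ hA hQ hAQ K hK a b ha hb
    classical
    obtain ⟨f1, f2⟩ := hn₀ n hn
    have hn1 : (1 : ℝ) ≤ n := by exact_mod_cast f2
    have hn0 : (0 : ℝ) < n := by linarith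
    set γ := min (γ₁ / 8) 1 with hγ
    have hγa : γ ≤ γ₁ / 8 := min_le_left _ _
    have hγb : γ ≤ 1 := min_le_right _ _
    have hγ0 : 0 < γ := by positivity
    set L := Real.log (n : ℝ) with hL
    have hL0 : 0 ≤ L := Real.log_nonneg hn1
    let _ : Fintype X := Fintype.ofFinite X
    set q := Nat.card (MulAction.orbitRel.Quotient A X) with hq
    have key := hinv F A hA X K hK
    rw [← hq] at key
    -- sizes
    have hnX : n ≤ Nat.card X := by
      have := Nat.card_le_card_of_injective a ha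
      rwa [Nat.card_eq_fintype_card, Fintype.card_fin] at this
    have hXle : Nat.card X ≤ Nat.card A * q := card_le_orbits A X
    have hAq : (n : ℝ) ≤ (Nat.card A : ℝ) * q := by exact_mod_cast hnX.trans hXle
    have hApos : (1 : ℝ) ≤ Nat.card A := by exact_mod_cast (Nat.card_pos : 0 < Nat.card A)
    have hqpos : (1 : ℝ) ≤ q := by
      have h3 : (0 : ℝ) < (Nat.card A : ℝ) * q := by linarith
      have h4 : 0 < q := by
        rcases Nat.eq_zero_or_pos q with h5 | h5
        · rw [h5] at h3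
          simp at h3
        · exact h5
      exact_mod_cast h4
    set lA := Real.log (Nat.card A : ℝ) with hlA
    have hlA0 : 0 ≤ lA := Real.log_nonneg hApos
    have hlq : Real.log (q : ℝ) ≤ δ / 2 * L := by
      have := Real.log_le_log (by linarith) hQ
      rwa [Real.log_rpow hn0] at this
    have hlAq : lA + Real.log (q : ℝ) ≤ (1 + γ) * L := by
      have := Real.log_le_log (by positivity) hAQ
      rwa [Real.log_rpow hn0, Real.log_mul (by linarith) (by linarith)] at this
    have hlAq2 : L ≤ lA + Real.log (q : ℝ) := by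
      have := Real.log_le_log hn0 hAq
      rwa [Real.log_mul (by linarith) (by linarith)] at this
    have hlq0 : 0 ≤ Real.log (q : ℝ) := Real.log_nonneg hqpos
    have hAlow : L / 2 ≤ lA := by nlinarith
    have hAup : lA ≤ 2 * L := by nlinarith
    have hqe : (q : ℝ) = Real.exp (Real.log (q : ℝ)) := (Real.exp_log (by linarith)).symm
    have hsub : (Matrix.of fun i j => K (a i) (b j)) = (Matrix.of K).submatrix a b := rfl
    rw [hsub]
    refine (key.submatrix_inj₂ a b ha hb).mono ?_ ?_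
    · rw [hqe, Real.rpow_def_of_pos hn0, ← Real.exp_add]
      have h5 : C = Real.exp (Real.log C) := (Real.exp_log hC).symm
      rw [h5, ← Real.exp_add]
      apply Real.exp_le_exp.mpr
      have h6 : γ₁ * (L / 2) ≤ γ₁ * lA := mul_le_mul_of_nonneg_left hAlow hγ₁.le
      have h7 : γ * L ≤ γ₁ / 8 * L := mul_le_mul_of_nonneg_right hγa hL0
      nlinarith
    · rw [hqe, Real.rpow_def_of_pos hn0, ← Real.exp_add]
      apply Real.exp_le_exp.mpr
      have h6 : 8 * (δ / 64) * lA ≤ 8 * (δ / 64) * (2 * L) :=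
        mul_le_mul_of_nonneg_left hAup (by positivity)
      have h7 : 0 ≤ δ * L := by positivity
      nlinarith

end

section

universe u v

theorem partB (δ γ : ℝ) (hδ : 0 < δ) (n : ℕ) (hn : 1 ≤ n) (F : Type u) [Field F]
    (h : ∀ (A X : Type) [Group A] [Finite A] [Finite X] [MulAction A X],
      (∀ g h : A, g * h = h * g) →
      (Nat.card (MulAction.orbitRel.Quotient A X) : ℝ) ≤ (n : ℝ) ^ (δ / 2) →
      (Nat.card A * Nat.card (MulAction.orbitRel.Quotient A X) : ℝ) ≤ (n : ℝ) ^ (1 + γ) →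
    ∀ K : X → X → F, (∀ (g : A) x y, K (g • x) (g • y) = K x y) →
    ∀ a b : Fin n → X, Function.Injective a → Function.Injective b →
      Dec (Matrix.of fun i j => K (a i) (b j)) ((n : ℝ) ^ (1 - γ)) ((n : ℝ) ^ δ))
    (k : ℕ) (N : Fin k → ℕ) (hN : ∏ l, 2 * (N l : ℝ) ≤ (n : ℝ) ^ (1 + γ))
    (a b : Fin n → Fin k → ℤ) (ha : Function.Injective a) (hb : Function.Injective b)
    (hab : ∀ i l, 0 ≤ a i l ∧ a i l < N l) (hbb : ∀ i l, 0 ≤ b i l ∧ b i l < N l)
    (t : (Fin k → ℤ) → F) :
    Dec (Matrix.of fun i j => t (a i - b j)) ((n : ℝ) ^ (1 - γ)) ((n : ℝ) ^ δ) := by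
  have hN0 : ∀ l, 0 < N l := by
    intro l
    have h1 := hab ⟨0, hn⟩ l
    have h2 : (0 : ℤ) < N l := lt_of_le_of_lt h1.1 h1.2
    exact_mod_cast h2
  have hne : ∀ l, NeZero (2 * N l) := fun l => ⟨by have := hN0 l; omega⟩
  have hn1 : (1 : ℝ) ≤ n := by exact_mod_cast hn
  set G := Multiplicative (∀ l, ZMod (2 * N l)) with hG
  have hG1 : Nat.card (MulAction.orbitRel.Quotient G G) ≤ 1 := by
    have : Subsingleton (MulAction.orbitRel.Quotient G G) :=
      MulAction.pretransitive_iff_subsingleton_quotient G G |>.mp inferInstance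
    exact Finite.card_le_one_iff_subsingleton.mpr this
  have hcG : (Nat.card G : ℝ) = ∏ l, 2 * (N l : ℝ) := by
    have : Nat.card G = ∏ l, (2 * N l) := by
      rw [hG]
      have h1 : Nat.card (Multiplicative (∀ l, ZMod (2 * N l))) =
          Nat.card (∀ l, ZMod (2 * N l)) := Nat.card_congr Multiplicative.toAdd
      rw [h1, Nat.card_pi]
      exact Finset.prod_congr rfl fun l _ => Nat.card_zmod _
    rw [this]
    push_cast
    rfl
  have hval : ∀ (l : Fin k) (x y : ℤ), 0 ≤ x → x < N l → 0 ≤ y → y < N l →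
      ((x : ZMod (2 * N l)) - (y : ZMod (2 * N l))).valMinAbs = x - y := by
    intro l x y h1 h2 h3 h4
    rw [ZMod.valMinAbs_spec]
    refine ⟨by push_cast; rfl, ?_⟩
    rw [Set.mem_Ioc]
    push_cast
    constructor <;> linarith
  have hinj : ∀ c : Fin n → Fin k → ℤ, Function.Injective c → (∀ i l, 0 ≤ c i l ∧ c i l < N l) →
      Function.Injective (fun i => (Multiplicative.ofAdd (fun l => ((c i l : ℤ) : ZMod (2 * N l))) :
        G)) := by
    intro c hc hcb i j hij
    apply hc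
    funext l
    have h1 : ((c i l : ℤ) : ZMod (2 * N l)) = ((c j l : ℤ) : ZMod (2 * N l)) :=
      congrFun (Multiplicative.ofAdd.injective hij) l
    have h2 := hval l (c i l) (c j l) (hcb i l).1 (hcb i l).2 (hcb j l).1 (hcb j l).2
    rw [h1, sub_self, ZMod.valMinAbs_zero] at h2
    linarith
  have key := h G G (fun x y => mul_comm x y) ?_ ?_
    (fun x y => t (fun l => (x.toAdd l - y.toAdd l).valMinAbs)) ?_
    (fun i => Multiplicative.ofAdd (fun l => ((a i l : ℤ) : ZMod (2 * N l))))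
    (fun i => Multiplicative.ofAdd (fun l => ((b i l : ℤ) : ZMod (2 * N l))))
    (hinj a ha hab) (hinj b hb hbb)
  · have e : (Matrix.of fun i j => t (a i - b j)) = (Matrix.of fun i j : Fin n =>
        t (fun l => ((Multiplicative.ofAdd (fun l => ((a i l : ℤ) : ZMod (2 * N l))) : G).toAdd l -
          (Multiplicative.ofAdd (fun l => ((b j l : ℤ) : ZMod (2 * N l))) : G).toAdd l).valMinAbs))
        := by
      ext i j
      rw [Matrix.of_apply, Matrix.of_apply]
      congr 1
      funext l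
      rw [Pi.sub_apply]
      exact (hval l _ _ (hab i l).1 (hab i l).2 (hbb j l).1 (hbb j l).2).symm
    rw [e]
    exact key
  · refine le_trans (by exact_mod_cast hG1) (Real.one_le_rpow hn1 (by positivity))
  · refine le_trans ?_ hN
    rw [← hcG]
    have h1 : (Nat.card (MulAction.orbitRel.Quotient G G) : ℝ) ≤ 1 := by exact_mod_cast hG1
    exact mul_le_of_le_one_right (Nat.cast_nonneg _) h1
  · intro g x y
    congr 1
    funext l
    congr 1
    show (g.toAdd l + x.toAdd l) - (g.toAdd l + y.toAdd l) = _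
    ring

theorem partC (δ γ : ℝ) (n : ℕ) (F : Type u) [Field F]
    (h : ∀ (A X : Type) [Group A] [Finite A] [Finite X] [MulAction A X],
      (∀ g h : A, g * h = h * g) →
      (Nat.card (MulAction.orbitRel.Quotient A X) : ℝ) ≤ (n : ℝ) ^ (δ / 2) →
      (Nat.card A * Nat.card (MulAction.orbitRel.Quotient A X) : ℝ) ≤ (n : ℝ) ^ (1 + γ) →
    ∀ K : X → X → F, (∀ (g : A) x y, K (g • x) (g • y) = K x y) →
    ∀ a b : Fin n → X, Function.Injective a → Function.Injective b →
      Dec (Matrix.of fun i j => K (a i) (b j)) ((n : ℝ) ^ (1 - γ)) ((n : ℝ) ^ δ))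
    (Γ : Type) [Group Γ] [Finite Γ] (A : Subgroup Γ) (hA : ∀ g ∈ A, ∀ h ∈ A, g * h = h * g)
    (hi : (A.index : ℝ) ≤ (n : ℝ) ^ (δ / 2)) (hΓ : (Nat.card Γ : ℝ) ≤ (n : ℝ) ^ (1 + γ))
    (a b : Fin n → Γ) (ha : Function.Injective a) (hb : Function.Injective b) (f : Γ → F) :
    Dec (Matrix.of fun i j => f (a i * (b j)⁻¹)) ((n : ℝ) ^ (1 - γ)) ((n : ℝ) ^ δ) := by
  have hq : Nat.card (MulAction.orbitRel.Quotient A.op Γ) = A.index := rfl
  have hAop : Nat.card A.op = Nat.card A := Nat.card_congr (Subgroup.equivOp A).symm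
  have hfin : Finite A.op := Finite.of_equiv A (Subgroup.equivOp A)
  refine h A.op Γ ?_ ?_ ?_ (fun x y => f (x * y⁻¹)) ?_ a b ha hb
  · intro g h
    apply Subtype.ext
    apply MulOpposite.unop_injective
    show (h : Γᵐᵒᵖ).unop * (g : Γᵐᵒᵖ).unop = (g : Γᵐᵒᵖ).unop * (h : Γᵐᵒᵖ).unop
    exact hA _ h.2 _ g.2
  · rw [hq]; exact hi
  · rw [hq, hAop]
    have : ((Nat.card A : ℕ) : ℝ) * (A.index : ℝ) = Nat.card Γ := by
      exact_mod_cast A.card_mul_index
    rw [this]
    exact hΓ
  · intro g x y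
    show f (x * (g : Γᵐᵒᵖ).unop * (y * (g : Γᵐᵒᵖ).unop)⁻¹) = f (x * y⁻¹)
    congr 1
    group

end

end MP0775d3.Kron
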