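import Pool.Agent.Lib.MP_0775d3_lc.Kron.Dft

/-! Asymptotic facts: iterated logarithms, primorials, counting primes. -/

set_option linter.unusedSectionVars false
set_option linter.unusedVariables false
set_option linter.deprecated false

namespace MP0775d3.Kron

open Matrix Filter

section

theorem itlog_tendsto (k : ℕ) : Tendsto (fun x : ℝ => Real.log^[k] x) atTop atTop := by
  induction k with
  | zero => exact tendsto_id
  | succ k ih =>
    have : (fun x : ℝ => Real.log^[k + 1] x) = fun x => Real.log (Real.log^[k] x) := by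
      funext x
      rw [Function.iterate_succ_apply']
    rw [this]
    exact Real.tendsto_log_atTop.comp ih

theorem itlog_mono (k : ℕ) : ∀ᶠ x : ℝ in atTop, ∀ z, x ≤ z → Real.log^[k] x ≤ Real.log^[k] z := by
  induction k with
  | zero => exact Eventually.of_forall fun x z h => h
  | succ k ih =>
    filter_upwards [ih, (itlog_tendsto k).eventually_gt_atTop 0] with x hx hx0 z hz
    rw [Function.iterate_succ_apply', Function.iterate_succ_apply']
    exact Real.log_le_log hx0 (hx z hz)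

theorem itlog_sq (k : ℕ) : ∀ᶠ x : ℝ in atTop,
    Real.log^[k + 1] (x ^ 2) ≤ 2 * Real.log^[k + 1] x := by
  induction k with
  | zero =>
    refine Eventually.of_forall fun x => ?_
    simp only [Function.iterate_succ_apply', Function.iterate_zero, id]
    rw [Real.log_pow]
    push_cast
    exact le_refl _
  | succ k ih =>
    have hsq : Tendsto (fun x : ℝ => x ^ 2) atTop atTop := tendsto_pow_atTop two_ne_zero
    filter_upwards [ih, (itlog_tendsto (k + 1)).eventually_gt_atTop 0,
      ((itlog_tendsto (k + 1)).comp hsq).eventually_gt_atTop 0,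
      (itlog_tendsto (k + 2)).eventually_ge_atTop 1] with x hx hx0 hx1 hx2
    have e1 : Real.log^[k + 1 + 1] (x ^ 2) = Real.log (Real.log^[k + 1] (x ^ 2)) :=
      Function.iterate_succ_apply' _ _ _
    have e2 : Real.log^[k + 1 + 1] x = Real.log (Real.log^[k + 1] x) :=
      Function.iterate_succ_apply' _ _ _
    have h1 : Real.log (Real.log^[k + 1] (x ^ 2)) ≤ Real.log (2 * Real.log^[k + 1] x) :=
      Real.log_le_log hx1 hx
    rw [Real.log_mul (by norm_num) hx0.ne'] at h1
    rw [e1]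
    have h2 : (1 : ℝ) ≤ Real.log^[k + 1 + 1] x := hx2
    rw [e2] at h2 ⊢
    have h3 := Real.log_two_lt_d9
    linarith

theorem itlog_le (k : ℕ) : ∀ᶠ x : ℝ in atTop, Real.log^[k + 2] x ≤ Real.log (Real.log x) := by
  induction k with
  | zero =>
    refine Eventually.of_forall fun x => ?_
    simp only [Function.iterate_succ_apply', Function.iterate_zero, id]
    exact le_refl _
  | succ k ih =>
    filter_upwards [ih, (itlog_tendsto (k + 2)).eventually_gt_atTop 0] with x hx hx0
    have e1 : Real.log^[k + 1 + 2] x = Real.log (Real.log^[k + 2] x) :=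
      Function.iterate_succ_apply' _ _ _
    rw [e1]
    have := Real.log_le_sub_one_of_pos hx0
    linarith

theorem log_cast_tendsto : Tendsto (fun n : ℕ => Real.log (n : ℝ)) atTop atTop :=
  Real.tendsto_log_atTop.comp tendsto_natCast_atTop_atTop

theorem log_le_eps (ε : ℝ) (hε : 0 < ε) : ∀ᶠ x : ℝ in atTop, Real.log x ≤ ε * x := by
  have h1 : ∀ᶠ x : ℝ in atTop, ‖Real.log x‖ ≤ ε * ‖x‖ := Real.isLittleO_log_id_atTop.bound hε
  filter_upwards [h1, eventually_ge_atTop 0] with x hx hx0
  rw [Real.norm_of_nonneg hx0] at hx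
  exact (Real.le_norm_self _).trans hx

theorem log_le_eps_sqrt (ε : ℝ) (hε : 0 < ε) : ∀ᶠ x : ℝ in atTop, Real.log x ≤ ε * √x := by
  have h1 : ∀ᶠ x : ℝ in atTop, ‖Real.log x‖ ≤ ε * ‖x ^ (1 / 2 : ℝ)‖ :=
    (isLittleO_log_rpow_atTop (r := 1 / 2) (by norm_num)).bound hε
  filter_upwards [h1, eventually_ge_atTop 0] with x hx hx0
  rw [← Real.sqrt_eq_rpow, Real.norm_of_nonneg (Real.sqrt_nonneg _)] at hx
  exact (Real.le_norm_self _).trans hx

/-- `(C + 2 log x) log x ≤ ε x` for large `x`. -/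
theorem log_sq_le (C ε : ℝ) (hε : 0 < ε) : ∀ᶠ x : ℝ in atTop,
    (C + 2 * Real.log x) * Real.log x ≤ ε * x := by
  have hε' : 0 < √(ε / 3) := Real.sqrt_pos.mpr (by positivity)
  filter_upwards [log_le_eps_sqrt (√(ε / 3)) hε', Real.tendsto_log_atTop.eventually_ge_atTop C,
    Real.tendsto_log_atTop.eventually_ge_atTop 0, eventually_ge_atTop 0] with x h1 h2 h3 h4
  have h5 : (C + 2 * Real.log x) * Real.log x ≤ 3 * (Real.log x * Real.log x) := by
    nlinarith
  have h6 : Real.log x * Real.log x ≤ (√(ε / 3) * √x) * (√(ε / 3) * √x) :=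
    mul_le_mul h1 h1 h3 (by positivity)
  have h7 : (√(ε / 3) * √x) * (√(ε / 3) * √x) = ε / 3 * x := by
    have e1 : √(ε / 3) * √(ε / 3) = ε / 3 := Real.mul_self_sqrt (by positivity)
    have e2 : √x * √x = x := Real.mul_self_sqrt h4
    calc (√(ε / 3) * √x) * (√(ε / 3) * √x) = (√(ε / 3) * √(ε / 3)) * (√x * √x) := by ring
      _ = ε / 3 * x := by rw [e1, e2]
  linarith

theorem exists_Y : ∃ Y : ℕ → ℕ, Tendsto Y atTop atTop ∧ ∀ᶠ n : ℕ in atTop,
    3 ≤ Y n ∧ 2 * n ≤ primorial (Y n) ∧ ((Y n : ℕ) : ℝ) ≤ (Real.log n) ^ 2 ∧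
    Real.log n ≤ Real.log (primorial (Y n)) ∧
    Real.log (primorial (Y n)) ≤ Real.log n + Real.log 2 + 2 * Real.log (Real.log n) := by
  classical
  choose! Y hY using exists_y
  have hT : Tendsto Y atTop atTop := by
    rw [tendsto_atTop]
    intro b
    filter_upwards [eventually_ge_atTop (primorial b + 2)] with n hn
    by_contra hcon
    push Not at hcon
    have h1 := (hY n (by omega)).2.1
    have h2 : primorial (Y n) ≤ primorial b := primorial_mono hcon.le
    omega
  refine ⟨Y, hT, ?_⟩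
  have hth : ∀ᶠ n : ℕ in atTop, ((Y n - 1 : ℕ) : ℝ) / 2 ≤ Real.log (primorial (Y n - 1)) := by
    have : Tendsto (fun n => Y n - 1) atTop atTop := by
      exact (tendsto_sub_atTop_nat 1).comp hT
    exact this.eventually theta_ev
  filter_upwards [hth, eventually_ge_atTop 2, log_cast_tendsto.eventually_ge_atTop 4] with n h1 hn h4
  obtain ⟨a1, a2, a3⟩ := hY n hn
  have hnR : (2 : ℝ) ≤ n := by exact_mod_cast hn
  have hn0 : (0 : ℝ) < n := by linarith
  have hl2 : Real.log (2 * (n : ℝ)) = Real.log 2 + Real.log n :=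
    Real.log_mul (by norm_num) hn0.ne'
  have hl2' := Real.log_two_lt_d9
  have hY1 : ((Y n - 1 : ℕ) : ℝ) = (Y n : ℝ) - 1 := by
    rw [Nat.cast_sub (by omega)]; simp
  have b1 : Real.log (primorial (Y n - 1)) ≤ Real.log 2 + Real.log n := by
    rw [← hl2]
    refine Real.log_le_log (by exact_mod_cast primorial_pos _) ?_
    exact_mod_cast a3.le
  have hYle : ((Y n : ℕ) : ℝ) ≤ (Real.log n) ^ 2 := by
    rw [hY1] at h1
    nlinarith
  refine ⟨a1, a2, hYle, ?_, ?_⟩
  · refine Real.log_le_log hn0 ?_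
    have : (n : ℝ) ≤ 2 * n := by linarith
    exact this.trans (by exact_mod_cast a2)
  · have c1 : primorial (Y n) ≤ Y n * (2 * n) :=
      (primorial_le_mul (Y n) (by omega)).trans (Nat.mul_le_mul_left _ a3.le)
    have hYpos : (0 : ℝ) < (Y n : ℝ) := by
      have : 0 < Y n := by omega
      exact_mod_cast this
    have c2 : Real.log (primorial (Y n)) ≤ Real.log ((Y n : ℝ) * (2 * n)) := by
      refine Real.log_le_log (by exact_mod_cast primorial_pos _) ?_
      exact_mod_cast c1
    rw [Real.log_mul hYpos.ne' (by positivity), hl2] at c2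
    have c3 : Real.log (Y n : ℝ) ≤ 2 * Real.log (Real.log n) := by
      have := Real.log_le_log hYpos hYle
      rw [Real.log_pow] at this
      push_cast at this
      exact this
    linarith

theorem card_PI_le (y : ℕ) (hy : 2 ≤ y) : (Fintype.card (PI y) : ℝ) ≤
    √(y : ℝ) + 2 * Real.log (primorial y) / Real.log y := by
  classical
  have hly : 0 < Real.log y := Real.log_pos (by exact_mod_cast hy)
  have hy0 : (0 : ℝ) < y := by
    have : 0 < y := by omega
    exact_mod_cast this
  have h1 : ∀ p : PI y, (1 : ℝ) ≤ (if (p.1 : ℝ) ≤ √(y : ℝ) then 1 else 0) +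
      2 / Real.log y * Real.log p.1 := by
    intro p
    have hp : 0 < Real.log (p.1 : ℝ) := Real.log_pos (by exact_mod_cast p.prime.one_lt)
    split_ifs with h
    · have : 0 ≤ 2 / Real.log y * Real.log p.1 := by positivity
      linarith
    · push Not at h
      have h2 : Real.log (√(y : ℝ)) ≤ Real.log p.1 :=
        Real.log_le_log (Real.sqrt_pos.mpr hy0) h.le
      rw [Real.log_sqrt hy0.le] at h2
      have h3 : 2 / Real.log y * (Real.log y / 2) ≤ 2 / Real.log y * Real.log p.1 :=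
        mul_le_mul_of_nonneg_left h2 (by positivity)
      have h4 : 2 / Real.log y * (Real.log y / 2) = 1 := by
        field_simp
      linarith
  have h2 : (Fintype.card (PI y) : ℝ) = ∑ p : PI y, (1 : ℝ) := by
    rw [Finset.sum_const, Finset.card_univ, nsmul_eq_mul, mul_one]
  rw [h2]
  refine (Finset.sum_le_sum fun p _ => h1 p).trans ?_
  rw [Finset.sum_add_distrib, ← Finset.mul_sum, sum_log_PI]
  refine add_le_add ?_ (le_of_eq (by ring))
  rw [← Finset.sum_filter, Finset.sum_const, nsmul_eq_mul, mul_one]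
  have h3 : (Finset.univ.filter (fun p : PI y => (p.1 : ℝ) ≤ √(y : ℝ))).card ≤
      (Finset.Icc 1 ⌊√(y : ℝ)⌋₊).card := by
    refine Finset.card_le_card_of_injOn (fun p => p.1) ?_ ?_
    · intro p hp
      have hp' := (Finset.mem_filter.mp (Finset.mem_coe.mp hp)).2
      rw [Finset.mem_coe, Finset.mem_Icc]
      exact ⟨p.prime.one_lt.le, Nat.le_floor hp'⟩
    · intro p _ q _ hpq
      exact Subtype.ext hpq
  rw [Nat.card_Icc, Nat.add_sub_cancel] at h3
  exact (by exact_mod_cast h3 : (((Finset.univ.filter (fun p : PI y =>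
    (p.1 : ℝ) ≤ √(y : ℝ))).card : ℕ) : ℝ) ≤ (⌊√(y : ℝ)⌋₊ : ℝ)).trans
    (Nat.floor_le (Real.sqrt_nonneg _))

theorem card_ev (τ : ℝ) (hτ : 0 < τ) : ∀ᶠ y : ℕ in atTop,
    ((Fintype.card (PI y) : ℝ) + 1) * Real.log (Real.log y) ≤ τ * Real.log (primorial y) := by
  have h1 : ∀ᶠ y : ℕ in atTop, Real.log (y : ℝ) ≤ (τ / 8) * √(y : ℝ) :=
    tendsto_natCast_atTop_atTop.eventually (log_le_eps_sqrt (τ / 8) (by positivity))
  have h2 : ∀ᶠ y : ℕ in atTop, Real.log (Real.log (y : ℝ)) ≤ (τ / 4) * Real.log (y : ℝ) :=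
    log_cast_tendsto.eventually (log_le_eps (τ / 4) (by positivity))
  filter_upwards [h1, h2, theta_ev, eventually_ge_atTop 2,
    log_cast_tendsto.eventually_ge_atTop 3] with y g1 g2 g3 hy g4
  have hc := card_PI_le y hy
  have hy0 : (2 : ℝ) ≤ y := by exact_mod_cast hy
  have hly : 0 < Real.log y := by linarith
  have hlly0 : 0 ≤ Real.log (Real.log (y : ℝ)) := Real.log_nonneg (by linarith)
  have hlly : Real.log (Real.log (y : ℝ)) ≤ Real.log y := by
    have := Real.log_le_sub_one_of_pos hly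
    linarith
  have hs1 : 1 ≤ √(y : ℝ) := by
    rw [Real.one_le_sqrt]; linarith
  have hsq : √(y : ℝ) * √(y : ℝ) = y := Real.mul_self_sqrt (by linarith)
  set θ := Real.log (primorial y) with hθ
  set c := (Fintype.card (PI y) : ℝ) with hcdef
  set ll := Real.log (Real.log (y : ℝ)) with hll
  have hθ0 : 0 ≤ θ := by linarith
  have k1 : (c + 1) * ll ≤ (√(y : ℝ) + 2 * θ / Real.log y + 1) * ll :=
    mul_le_mul_of_nonneg_right (by linarith) hlly0
  have k2 : (√(y : ℝ) + 1) * ll ≤ τ / 2 * θ := by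
    have m1 : (√(y : ℝ) + 1) * ll ≤ (2 * √(y : ℝ)) * (τ / 8 * √(y : ℝ)) :=
      mul_le_mul (by linarith) (hlly.trans g1) hlly0 (by positivity)
    have m2 : (2 * √(y : ℝ)) * (τ / 8 * √(y : ℝ)) = τ / 4 * y := by
      calc (2 * √(y : ℝ)) * (τ / 8 * √(y : ℝ)) = τ / 4 * (√(y : ℝ) * √(y : ℝ)) := by ring
        _ = τ / 4 * y := by rw [hsq]
    have m3 : τ / 4 * y ≤ τ / 2 * θ := by
      have := mul_le_mul_of_nonneg_left g3 (show (0 : ℝ) ≤ τ / 2 by positivity)
      linarith
    linarith
  have k3 : 2 * θ / Real.log y * ll ≤ τ / 2 * θ := by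
    have m1 : 2 * θ / Real.log y * ll ≤ 2 * θ / Real.log y * (τ / 4 * Real.log y) :=
      mul_le_mul_of_nonneg_left g2 (by positivity)
    have m2 : 2 * θ / Real.log y * (τ / 4 * Real.log y) = τ / 2 * θ := by
      field_simp
      ring
    linarith
  calc (c + 1) * ll ≤ (√(y : ℝ) + 2 * θ / Real.log y + 1) * ll := k1
    _ = (√(y : ℝ) + 1) * ll + 2 * θ / Real.log y * ll := by ring
    _ ≤ τ * θ := by linarith

end

end MP0775d3.Kron
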