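import Pool.Agent.Lib.MP_0775d3_lc.Kron.Fac

/-! Every square matrix over a field is a product of 32 block elementary matrices and monomial
matrices. -/

set_option linter.unusedSectionVars false
set_option linter.unusedVariables false
set_option linter.deprecated false

namespace MP0775d3.Kron

open Matrix

variable {F : Type*} [Field F]

/-- Unit lower triangular. -/
def UL {m : ℕ} (L : Matrix (Fin m) (Fin m) F) : Prop :=
  (∀ i, L i i = 1) ∧ ∀ i j, i < j → L i j = 0

theorem UL.exists_inv {m : ℕ} {L : Matrix (Fin m) (Fin m) F} (h : UL L) :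
    ∃ L' : Matrix (Fin m) (Fin m) F, L * L' = 1 ∧ L' * L = 1 := by
  have hd : L.det = 1 := by
    rw [Matrix.det_of_lowerTriangular L]
    · exact Finset.prod_eq_one fun i _ => h.1 i
    · intro i j hij
      exact h.2 i j hij
  have hu : IsUnit L.det := by rw [hd]; exact isUnit_one
  exact ⟨L⁻¹, Matrix.mul_nonsing_inv L hu, Matrix.nonsing_inv_mul L hu⟩

section hess
variable {n : ℕ} (L : Matrix (Fin (n + 1)) (Fin (n + 1)) F)

/-- The cyclic shift of the columns. -/
def Hm : Matrix (Fin (n + 1)) (Fin (n + 1)) F := L.submatrix id (finRotate (n + 1)).symm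

theorem Hm_apply (i l : Fin (n + 1)) : Hm L i (finRotate (n + 1) l) = L i l := by
  simp [Hm]

/-- The Krylov matrix. -/
def Km : Matrix (Fin (n + 1)) (Fin (n + 1)) F := fun i j => (Hm L ^ (i : ℕ)) 0 j

variable {L}

theorem Hm_pow (h : UL L) (i : ℕ) (hi : i ≤ n) :
    (∀ j : Fin (n + 1), i < j.val → (Hm L ^ i) 0 j = 0) ∧
      (Hm L ^ i) 0 ⟨i, Nat.lt_succ_of_le hi⟩ = 1 := by
  induction i with
  | zero =>
    constructor
    · intro j hj
      rw [pow_zero]
      apply Matrix.one_apply_ne
      intro h0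
      rw [← h0] at hj
      simp at hj
    · rw [pow_zero]
      exact Matrix.one_apply_eq _
  | succ i ih =>
    obtain ⟨ih1, ih2⟩ := ih (by omega)
    have key : ∀ (l' : ℕ) (hl' : l' < n),
        (Hm L ^ (i + 1)) 0 ⟨l' + 1, by omega⟩ =
          ∑ l, (Hm L ^ i) 0 l * L l ⟨l', by omega⟩ := by
      intro l' hl'
      rw [pow_succ, Matrix.mul_apply]
      refine Finset.sum_congr rfl fun l _ => ?_
      rw [← finRotate_of_lt hl', Hm_apply]
    constructor
    · intro j hj
      have hj2 := j.isLt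
      obtain ⟨l', hl'⟩ : ∃ l', j.val = l' + 1 := ⟨j.val - 1, by omega⟩
      have hjj : j = ⟨l' + 1, by omega⟩ := Fin.ext hl'
      rw [hjj, key l' (by omega)]
      refine Finset.sum_eq_zero fun l _ => ?_
      by_cases hl : i < l.val
      · rw [ih1 l hl, zero_mul]
      · rw [h.2 l _ (by rw [Fin.lt_def]; show l.val < l'; omega), mul_zero]
    · rw [key i (by omega), Finset.sum_eq_single (⟨i, by omega⟩ : Fin (n + 1))]
      · rw [ih2, h.1, one_mul]
      · intro l _ hl
        by_cases hl2 : i < l.val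
        · rw [ih1 l hl2, zero_mul]
        · have : l.val ≠ i := fun h' => hl (Fin.ext h')
          rw [h.2 l _ (by rw [Fin.lt_def]; show l.val < i; omega), mul_zero]
      · intro h'
        exact absurd (Finset.mem_univ _) h'

theorem Km_ul (h : UL L) : UL (Km L) := by
  constructor
  · intro i
    exact (Hm_pow h i.val (Nat.le_of_lt_succ i.isLt)).2
  · intro i j hij
    exact (Hm_pow h i.val (Nat.le_of_lt_succ i.isLt)).1 j hij

theorem Km_mul_Hm (i : Fin (n + 1)) (hi : i.val < n) (j : Fin (n + 1)) :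
    (Km L * Hm L) i j = Km L ⟨i.val + 1, by omega⟩ j := by
  rw [Matrix.mul_apply]
  show ∑ l, (Hm L ^ (i : ℕ)) 0 l * Hm L l j = (Hm L ^ (i.val + 1)) 0 j
  rw [pow_succ, Matrix.mul_apply]

theorem isMono_perm {α : Type*} [Fintype α] [DecidableEq α] (σ τ : Equiv.Perm α) :
    IsMono ((1 : Matrix α α F).submatrix σ τ) := by
  have key : ∀ a b : α, (1 : Matrix α α F) a b ≠ 0 → a = b := by
    intro a b h
    by_contra hab
    exact h (Matrix.one_apply_ne hab)
  constructor
  · intro a b c hb hc
    exact τ.injective ((key _ _ hb).symm.trans (key _ _ hc))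
  · intro a b c hb hc
    exact σ.injective ((key _ _ hb).trans (key _ _ hc).symm)

theorem mul_perm {α : Type*} [Fintype α] [DecidableEq α] (A : Matrix α α F) (τ : Equiv.Perm α) :
    A * (1 : Matrix α α F).submatrix id τ = A.submatrix id τ := by
  ext i j
  rw [Matrix.mul_apply]
  simp [Matrix.one_apply]

theorem perm_mul {α : Type*} [Fintype α] [DecidableEq α] (A : Matrix α α F) (τ : Equiv.Perm α) :
    (1 : Matrix α α F).submatrix τ id * A = A.submatrix τ id := by
  ext i j
  rw [Matrix.mul_apply]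
  simp [Matrix.one_apply]

theorem UL.exists_companion (h : UL L) :
    ∃ (K K' E P Q : Matrix (Fin (n + 1)) (Fin (n + 1)) F), K * K' = 1 ∧ K' * K = 1 ∧ IsElem E ∧
      IsMono P ∧ IsMono Q ∧ L = K' * (E * P) * K * Q := by
  obtain ⟨K', hK1, hK2⟩ := (Km_ul h).exists_inv
  set C : Matrix (Fin (n + 1)) (Fin (n + 1)) F := Km L * Hm L * K' with hC
  refine ⟨Km L, K', C.submatrix id (finRotate (n + 1)),
    (1 : Matrix _ _ F).submatrix id (finRotate (n + 1)).symm,
    (1 : Matrix _ _ F).submatrix id (finRotate (n + 1)), hK1, hK2, ?_, ?_, ?_, ?_⟩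
  · refine ⟨{l | l ≠ Fin.last n}, ?_⟩
    intro a b hab
    by_cases ha : a = Fin.last n
    · by_cases hb : b = Fin.last n
      · left; rw [ha, hb]
      · right; exact ⟨fun h' => h' ha, hb⟩
    · left
      have ha' : a.val < n := by
        have := a.isLt
        have h2 : a.val ≠ n := fun h' => ha (Fin.ext h')
        omega
      by_contra hne
      apply hab
      rw [Matrix.submatrix_apply, id, hC, Matrix.mul_apply]
      have e1 : ∀ l, (Km L * Hm L) a l * K' l (finRotate (n + 1) b) =
          Km L ⟨a.val + 1, by omega⟩ l * K' l (finRotate (n + 1) b) := by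
        intro l
        rw [Km_mul_Hm a ha' l]
      rw [Finset.sum_congr rfl (fun l _ => e1 l), ← Matrix.mul_apply, hK1]
      apply Matrix.one_apply_ne
      rw [← finRotate_of_lt ha']
      intro h'
      exact hne ((finRotate (n + 1)).injective h')
  · exact isMono_perm (Equiv.refl _) _
  · exact isMono_perm (Equiv.refl _) _
  · rw [mul_perm, mul_perm]
    have e1 : (C.submatrix id (finRotate (n + 1))).submatrix id (finRotate (n + 1)).symm = C := by
      ext i j
      simp
    rw [e1, hC]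
    have e2 : K' * (Km L * Hm L * K') * Km L = Hm L := by
      calc K' * (Km L * Hm L * K') * Km L = (K' * Km L) * Hm L * (K' * Km L) := by
            simp only [Matrix.mul_assoc]
        _ = Hm L := by rw [hK2, Matrix.one_mul, Matrix.mul_one]
    rw [e2]
    ext i j
    rw [Matrix.submatrix_apply, Hm_apply, id]

end hess

theorem UL.fac_blocks {m : ℕ} {L : Matrix (Fin m) (Fin m) F} (h : UL L) :
    Fac 7 (Matrix.fromBlocks (1 : Matrix (Fin m) (Fin m) F) 0 0 L) := by
  cases m with
  | zero =>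
    have : L = 1 := Subsingleton.elim _ _
    rw [this, Matrix.fromBlocks_one]
    exact (isMono_one.fac).mono (by omega)
  | succ n =>
    obtain ⟨K, K', E, P, Q, h1, h2, hE, hP, hQ, hL⟩ := h.exists_companion
    have e : Matrix.fromBlocks (1 : Matrix (Fin (n + 1)) (Fin (n + 1)) F) 0 0 L =
        Matrix.fromBlocks K 0 0 K' * Matrix.fromBlocks 1 0 0 (E * P) *
          Matrix.fromBlocks K' 0 0 K * Matrix.fromBlocks 1 0 0 Q := by
      rw [Matrix.fromBlocks_multiply, Matrix.fromBlocks_multiply, Matrix.fromBlocks_multiply]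
      simp [h1, hL]
    rw [e]
    have f1 : Fac 1 (Matrix.fromBlocks (1 : Matrix (Fin (n + 1)) (Fin (n + 1)) F) 0 0 (E * P)) :=
      Fac.blocks (isMono_one.fac.succ) (hE.fac.mul_mono hP)
    exact (((fac_whitehead h1).mul f1).mul (fac_whitehead h2)).mul_mono
      (isMono_one.blocks hQ)

/-- Two diagonal blocks. -/
theorem UL.fac_two {m : ℕ} {L₁ L₂ : Matrix (Fin m) (Fin m) F} (h₁ : UL L₁) (h₂ : UL L₂) :
    Fac 14 (Matrix.fromBlocks L₁ 0 0 L₂) := by
  have e : Matrix.fromBlocks L₁ 0 0 L₂ =
      Matrix.fromBlocks L₁ 0 0 1 * Matrix.fromBlocks 1 0 0 L₂ := by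
    rw [Matrix.fromBlocks_multiply]; simp
  have e2 : Matrix.fromBlocks L₁ 0 0 (1 : Matrix (Fin m) (Fin m) F) =
      (Matrix.fromBlocks (1 : Matrix (Fin m) (Fin m) F) 0 0 L₁).submatrix
        (Equiv.sumComm _ _) (Equiv.sumComm _ _) := by
    ext (i | i) (j | j) <;> rfl
  rw [e, e2]
  exact (h₁.fac_blocks.submatrix _).mul h₂.fac_blocks

theorem UL.split {a b : ℕ} {L : Matrix (Fin (a + b)) (Fin (a + b)) F} (h : UL L) {t : ℕ}
    (ht : ∀ (L₁ : Matrix (Fin a) (Fin a) F) (L₂ : Matrix (Fin b) (Fin b) F), UL L₁ → UL L₂ →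
      Fac t (Matrix.fromBlocks L₁ 0 0 L₂)) : Fac (1 + t) L := by
  apply Fac.of_submatrix finSumFinEquiv
  set B := L.submatrix (finSumFinEquiv (m := a) (n := b)) (finSumFinEquiv (m := a) (n := b))
    with hB
  have hL1 : UL B.toBlocks₁₁ := by
    constructor
    · intro i
      exact h.1 _
    · intro i j hij
      refine h.2 _ _ ?_
      rw [Fin.lt_def] at hij ⊢
      simpa using hij
  have hL2 : UL B.toBlocks₂₂ := by
    constructor
    · intro i
      exact h.1 _
    · intro i j hij
      refine h.2 _ _ ?_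
      rw [Fin.lt_def] at hij ⊢
      simpa using hij
  have h12 : B.toBlocks₁₂ = 0 := by
    ext i j
    refine h.2 _ _ ?_
    simp only [finSumFinEquiv_apply_left, finSumFinEquiv_apply_right]
    rw [Fin.lt_def]
    simp only [Fin.val_castAdd, Fin.val_natAdd]
    omega
  obtain ⟨L', h1, h2⟩ := hL1.exists_inv
  have e : B = Matrix.fromBlocks 1 0 (B.toBlocks₂₁ * L') 1 *
      Matrix.fromBlocks B.toBlocks₁₁ 0 0 B.toBlocks₂₂ := by
    rw [Matrix.fromBlocks_multiply]
    simp only [Matrix.one_mul, Matrix.mul_zero, Matrix.zero_mul, add_zero, zero_add]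
    rw [Matrix.mul_assoc, h2, Matrix.mul_one, ← h12]
    exact (Matrix.fromBlocks_toBlocks B).symm
  rw [e]
  exact (isElem_lower _).fac.mul (ht _ _ hL1 hL2)

theorem UL.fac {d : ℕ} {L : Matrix (Fin d) (Fin d) F} (h : UL L) : Fac 16 L := by
  obtain ⟨m, hm | hm⟩ := Nat.even_or_odd' d
  · have hd : d = m + m := by omega
    subst hd
    exact (h.split (t := 14) fun L₁ L₂ h₁ h₂ => h₁.fac_two h₂).mono (by omega)
  · have hd : d = (m + m) + 1 := by omega
    subst hd
    refine (h.split (t := 15) fun L₁ L₂ h₁ h₂ => ?_).mono (by omega)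
    have hL2 : L₂ = 1 := by
      ext i j
      rw [Subsingleton.elim i j, h₂.1, Matrix.one_apply_eq]
    rw [hL2]
    refine Fac.blocks ?_ (isMono_one.fac.mono (by omega))
    exact (h₁.split (t := 14) fun L₁ L₂ h₁ h₂ => h₁.fac_two h₂).mono (by omega)

end MP0775d3.Kron
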