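import Pool.Agent.Lib.MP_0775d3_lc.Kron.Defs

/-! Low rank plus sparse: elementary calculus. -/

set_option linter.unusedSectionVars false
set_option linter.deprecated false

namespace MP0775d3.Kron

open Matrix

variable {F : Type*} [Field F]

section
variable {X : Type*} [Fintype X] [DecidableEq X]

theorem rank_add_le (A B : Matrix X X F) : (A + B).rank ≤ A.rank + B.rank := by
  unfold Matrix.rank
  have h : LinearMap.range (A + B).mulVecLin ≤
      LinearMap.range A.mulVecLin ⊔ LinearMap.range B.mulVecLin := by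
    rintro _ ⟨v, rfl⟩
    rw [Matrix.mulVecLin_add, LinearMap.add_apply]
    exact Submodule.add_mem_sup ⟨v, rfl⟩ ⟨v, rfl⟩
  exact (Submodule.finrank_mono h).trans (Submodule.finrank_add_le_finrank_add_finrank _ _)

/-- `A` is the sum of a matrix of rank at most `r` and a matrix with at most `s` nonzero entries
in each row and each column. -/
def Dec (A : Matrix X X F) (r s : ℝ) : Prop :=
  ∃ R S : Matrix X X F, A = R + S ∧ (R.rank : ℝ) ≤ r ∧ Sparse S s

theorem Sparse.mono {S : Matrix X X F} {s s' : ℝ} (h : Sparse S s) (hs : s ≤ s') :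
    Sparse S s' := ⟨fun x => (h.1 x).trans hs, fun y => (h.2 y).trans hs⟩

theorem Dec.mono {A : Matrix X X F} {r s r' s' : ℝ} (h : Dec A r s) (hr : r ≤ r')
    (hs : s ≤ s') : Dec A r' s' := by
  obtain ⟨R, S, h1, h2, h3⟩ := h
  exact ⟨R, S, h1, h2.trans hr, h3.mono hs⟩

theorem Sparse.transpose {S : Matrix X X F} {s : ℝ} (h : Sparse S s) : Sparse Sᵀ s :=
  ⟨fun x => h.2 x, fun y => h.1 y⟩

theorem row_mul {S S' : Matrix X X F} {s s' : ℝ} (hs' : 0 ≤ s')
    (h : ∀ x, (({y | S x y ≠ 0} : Set X).ncard : ℝ) ≤ s)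
    (h' : ∀ x, (({y | S' x y ≠ 0} : Set X).ncard : ℝ) ≤ s') (x : X) :
    (({y | (S * S') x y ≠ 0} : Set X).ncard : ℝ) ≤ s * s' := by
  classical
  have h1 : ({y | (S * S') x y ≠ 0} : Set X) ⊆
      ((Finset.univ.filter (fun z => S x z ≠ 0)).biUnion
        (fun z => Finset.univ.filter (fun y => S' z y ≠ 0)) : Finset X) := by
    intro y hy
    simp only [Set.mem_setOf_eq, Matrix.mul_apply] at hy
    obtain ⟨z, _, hz⟩ := Finset.exists_ne_zero_of_sum_ne_zero hy
    simp only [Finset.coe_biUnion, Finset.coe_filter, Finset.mem_univ, true_and, Set.mem_setOf_eq,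
      Set.mem_iUnion, exists_prop]
    exact ⟨z, left_ne_zero_of_mul hz, right_ne_zero_of_mul hz⟩
  have h2 : ({y | (S * S') x y ≠ 0} : Set X).ncard ≤
      ∑ z ∈ Finset.univ.filter (fun z => S x z ≠ 0),
        (Finset.univ.filter (fun y => S' z y ≠ 0)).card := by
    refine (Set.ncard_le_ncard h1 (Finset.finite_toSet _)).trans ?_
    rw [Set.ncard_coe_finset]
    exact Finset.card_biUnion_le
  have e1 : ∀ (B : Matrix X X F) (z : X), ((Finset.univ.filter (fun y => B z y ≠ 0)).card : ℝ) =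
      (({y | B z y ≠ 0} : Set X).ncard : ℝ) := by
    intro B z
    congr 1
    rw [← Set.ncard_coe_finset]
    congr 1
    ext y
    simp
  calc (({y | (S * S') x y ≠ 0} : Set X).ncard : ℝ)
      ≤ ((∑ z ∈ Finset.univ.filter (fun z => S x z ≠ 0),
        (Finset.univ.filter (fun y => S' z y ≠ 0)).card : ℕ) : ℝ) := by exact_mod_cast h2
    _ = ∑ z ∈ Finset.univ.filter (fun z => S x z ≠ 0),
        ((Finset.univ.filter (fun y => S' z y ≠ 0)).card : ℝ) := by push_cast; rfl
    _ ≤ ∑ z ∈ Finset.univ.filter (fun z => S x z ≠ 0), s' := by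
        refine Finset.sum_le_sum fun z _ => ?_
        rw [e1]; exact h' z
    _ = ((Finset.univ.filter (fun z => S x z ≠ 0)).card : ℝ) * s' := by
        rw [Finset.sum_const, nsmul_eq_mul]
    _ ≤ s * s' := by
        refine mul_le_mul_of_nonneg_right ?_ hs'
        rw [e1]; exact h x

theorem Sparse.mul {S S' : Matrix X X F} {s s' : ℝ} (hs : 0 ≤ s) (hs' : 0 ≤ s') (h : Sparse S s)
    (h' : Sparse S' s') : Sparse (S * S') (s * s') := by
  refine ⟨row_mul hs' h.1 h'.1, ?_⟩
  intro y
  have h3 := row_mul (S := S'ᵀ) (S' := Sᵀ) hs h'.2 h.2 y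
  rw [← Matrix.transpose_mul] at h3
  rw [mul_comm]
  exact h3

theorem Dec.mul {A B : Matrix X X F} {r s r' s' : ℝ} (hs : 0 ≤ s) (hs' : 0 ≤ s') (h : Dec A r s)
    (h' : Dec B r' s') : Dec (A * B) (r + r') (s * s') := by
  obtain ⟨R, S, rfl, h2, h3⟩ := h
  obtain ⟨R', S', rfl, h2', h3'⟩ := h'
  refine ⟨R * (R' + S') + S * R', S * S', by noncomm_ring, ?_, h3.mul hs hs' h3'⟩
  have e1 : (R * (R' + S') + S * R').rank ≤ R.rank + R'.rank :=
    (rank_add_le _ _).trans (add_le_add (Matrix.rank_mul_le_left _ _)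
      (Matrix.rank_mul_le_right _ _))
  calc ((R * (R' + S') + S * R').rank : ℝ) ≤ ((R.rank + R'.rank : ℕ) : ℝ) := by exact_mod_cast e1
    _ = R.rank + R'.rank := by push_cast; rfl
    _ ≤ r + r' := add_le_add h2 h2'

theorem Dec.transpose {A : Matrix X X F} {r s : ℝ} (h : Dec A r s) : Dec Aᵀ r s := by
  obtain ⟨R, S, rfl, h2, h3⟩ := h
  exact ⟨Rᵀ, Sᵀ, by rw [Matrix.transpose_add], by rwa [Matrix.rank_transpose], h3.transpose⟩

/-- Each row and each column has at most one nonzero entry. -/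
def IsMono (N : Matrix X X F) : Prop :=
  (∀ a b c, N a b ≠ 0 → N a c ≠ 0 → b = c) ∧ (∀ a b c, N b a ≠ 0 → N c a ≠ 0 → b = c)

theorem IsMono.sparse {N : Matrix X X F} (h : IsMono N) : Sparse N 1 := by
  constructor
  · intro x
    have : ({y | N x y ≠ 0} : Set X).ncard ≤ 1 := by
      rw [Set.ncard_le_one (Set.toFinite _)]
      intro a ha b hb
      exact h.1 x a b ha hb
    exact_mod_cast this
  · intro y
    have : ({x | N x y ≠ 0} : Set X).ncard ≤ 1 := by
      rw [Set.ncard_le_one (Set.toFinite _)]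
      intro a ha b hb
      exact h.2 y a b ha hb
    exact_mod_cast this

theorem Sparse.dec {S : Matrix X X F} {s : ℝ} (h : Sparse S s) : Dec S 0 s :=
  ⟨0, S, by rw [zero_add], by simp, h⟩

theorem IsMono.dec {N : Matrix X X F} (h : IsMono N) : Dec N 0 1 := h.sparse.dec

/-- Cutting out rows and columns outside a set. -/
theorem dec_of_typical (E : Matrix X X F) (G : Set X) (s b : ℝ)
    (hb : ((Gᶜ : Set X).ncard : ℝ) ≤ b)
    (hr : ∀ x ∈ G, (({y | y ∈ G ∧ E x y ≠ 0} : Set X).ncard : ℝ) ≤ s)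
    (hc : ∀ y ∈ G, (({x | x ∈ G ∧ E x y ≠ 0} : Set X).ncard : ℝ) ≤ s) (hs : 0 ≤ s) :
    Dec E (b + b) s := by
  classical
  let S : Matrix X X F := fun x y => if x ∈ G ∧ y ∈ G then E x y else 0
  let R₁ : Matrix X X F := fun x y => if x ∈ G then 0 else E x y
  let R₂ : Matrix X X F := fun x y => if x ∈ G ∧ y ∉ G then E x y else 0
  refine ⟨R₁ + R₂, S, ?_, ?_, ?_, ?_⟩
  · ext x y
    simp only [Matrix.add_apply, S, R₁, R₂]
    by_cases h1 : x ∈ G <;> by_cases h2 : y ∈ G <;> simp [h1, h2]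
  · have hG : (Gᶜ : Set X).ncard = (Finset.univ.filter (fun x => x ∉ G)).card := by
      rw [← Set.ncard_coe_finset]
      congr 1
      ext x
      simp
    have e1 : R₁.rank ≤ (Gᶜ : Set X).ncard := by
      rw [hG]
      refine Matrix.rank_le_card_of_support_subset _ _ ?_
      intro x hx
      simp only [Finset.coe_filter, Finset.mem_univ, true_and, Set.mem_setOf_eq]
      intro hxG
      apply hx
      ext y
      simp [R₁, Matrix.row, hxG]
    have e2 : R₂.rank ≤ (Gᶜ : Set X).ncard := by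
      rw [hG, ← Matrix.rank_transpose]
      refine Matrix.rank_le_card_of_support_subset _ _ ?_
      intro x hx
      simp only [Finset.coe_filter, Finset.mem_univ, true_and, Set.mem_setOf_eq]
      intro hxG
      apply hx
      ext y
      simp [R₂, Matrix.row, hxG]
    calc ((R₁ + R₂).rank : ℝ) ≤ ((R₁.rank + R₂.rank : ℕ) : ℝ) := by
          exact_mod_cast rank_add_le R₁ R₂
      _ = (R₁.rank : ℝ) + R₂.rank := by push_cast; rfl
      _ ≤ (Gᶜ : Set X).ncard + (Gᶜ : Set X).ncard := by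
          gcongr
      _ ≤ b + b := add_le_add hb hb
  · intro x
    by_cases hx : x ∈ G
    · have : ({y | S x y ≠ 0} : Set X) ⊆ {y | y ∈ G ∧ E x y ≠ 0} := by
        intro y hy
        simp only [Set.mem_setOf_eq, S] at hy ⊢
        by_cases hy2 : y ∈ G
        · rw [if_pos ⟨hx, hy2⟩] at hy
          exact ⟨hy2, hy⟩
        · rw [if_neg (fun h => hy2 h.2)] at hy
          exact absurd rfl hy
      refine le_trans ?_ (hr x hx)
      exact_mod_cast Set.ncard_le_ncard this (Set.toFinite _)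
    · have : ({y | S x y ≠ 0} : Set X) = ∅ := by
        ext y
        simp [S, hx]
      rw [this]
      simpa using hs
  · intro y
    by_cases hy : y ∈ G
    · have : ({x | S x y ≠ 0} : Set X) ⊆ {x | x ∈ G ∧ E x y ≠ 0} := by
        intro x hx
        simp only [Set.mem_setOf_eq, S] at hx ⊢
        by_cases hx2 : x ∈ G
        · rw [if_pos ⟨hx2, hy⟩] at hx
          exact ⟨hx2, hx⟩
        · rw [if_neg (fun h => hx2 h.1)] at hx
          exact absurd rfl hx
      refine le_trans ?_ (hc y hy)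
      exact_mod_cast Set.ncard_le_ncard this (Set.toFinite _)
    · have : ({x | S x y ≠ 0} : Set X) = ∅ := by
        ext x
        simp [S, hy]
      rw [this]
      simpa using hs

end

end MP0775d3.Kron
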