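import Pool.Agent.Lib.MP_0775d3_lc.Kron.Large

/-! Kernels of arbitrary products of cyclic groups. -/

set_option linter.unusedSectionVars false
set_option linter.unusedVariables false
set_option linter.deprecated false

namespace MP0775d3.Kron

open Matrix

section
variable {E : Type*} [Field E]
variable {ι : Type*} [Fintype ι] [DecidableEq ι] (m : ι → ℕ) [∀ i, NeZero (m i)]

theorem card_zmods : (Fintype.card (∀ i, ZMod (m i)) : ℝ) = Real.exp (∑ i, Real.log (m i)) := by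
  rw [Real.exp_sum, Fintype.card_pi]
  push_cast
  refine Finset.prod_congr rfl fun j _ => ?_
  rw [Real.exp_log, ZMod.card]
  exact_mod_cast Nat.pos_of_ne_zero (NeZero.ne (m j))

theorem logSize_zmods : logSize (fun i => ZMod (m i)) = ∑ i, Real.log (m i) := by
  unfold logSize
  exact Finset.sum_congr rfl fun i _ => by rw [ZMod.card]

theorem small_dec (ψ : ∀ i, AddChar (ZMod (m i)) E) (V : ∀ i, Matrix (ZMod (m i)) (ZMod (m i)) E)
    (lb : ℝ) (hlb : 0 < lb) (hm : ∀ i, Real.log (m i) ≤ lb)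
    (δ κ : ℝ) (N : ℕ) (hδ : 0 < δ) (hδ1 : δ ≤ 1) (hN : 128 ≤ δ * 2 ^ N)
    (hκ : κ = (δ / (256 * (N + 1))) ^ 2) (Λ : ℝ) (hΛ : ∑ i, Real.log (m i) ≤ Λ) (hΛ0 : 0 ≤ Λ) :
    Dec (kron V) (128 * Real.exp (-(κ / lb * (δ * Λ))) * Real.exp (∑ i, Real.log (m i)))
      (Real.exp (δ * Λ)) := by
  set ΛS := ∑ i, Real.log (m i : ℝ) with hΛS
  have hκ0 : 0 ≤ κ := by rw [hκ]; positivity
  rcases le_or_gt ΛS (δ * Λ) with h | h
  · refine (dec_triv' (kron V)).mono (by positivity) ?_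
    rw [card_zmods]
    exact Real.exp_le_exp.mpr h
  · have hpos : 0 < ΛS := lt_of_le_of_lt (by positivity) h
    have d := dec_kron V (lb / ΛS) (div_pos hlb hpos) δ N hδ hδ1 hN
      (by rw [logSize_zmods]; exact hpos)
      (fun i => by
        rw [logSize_zmods, div_mul_cancel₀ _ hpos.ne', ZMod.card]
        exact hm i)
    rw [logSize_zmods, card_zmods, ← hκ] at d
    refine d.mono ?_ ?_
    · refine mul_le_mul_of_nonneg_right (mul_le_mul_of_nonneg_left (Real.exp_le_exp.mpr ?_)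
        (by norm_num)) (Real.exp_pos _).le
      have h1 : κ / (lb / ΛS) = κ / lb * ΛS := by field_simp
      rw [h1]
      have := mul_le_mul_of_nonneg_left h.le (show 0 ≤ κ / lb by positivity)
      linarith
    · apply Real.exp_le_exp.mpr
      exact mul_le_mul_of_nonneg_left hΛ hδ.le

variable {Q : Type*} [Fintype Q] [DecidableEq Q]

/-- The trivial and the nontrivial case for the large factors. -/
theorem large' (P : Finset ℕ) (hP : ∀ p ∈ P, p.Prime) (hE : ∀ p ∈ P, (p : E) ≠ 0)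
    (hroots : ∀ p ∈ P, ∃ ζ : E, IsPrimitiveRoot ζ p)
    (y : ℝ) (hy : 1 < y) (hPy : ∀ p ∈ P, (p : ℝ) ≤ y) (hB : 2 ≤ ∏ p ∈ P, p)
    (δ κ : ℝ) (N : ℕ) (hδ : 0 < δ) (hδ1 : δ ≤ 1) (hN : 128 ≤ δ * 2 ^ N)
    (hκ : κ = (δ / (256 * (N + 1))) ^ 2)
    (C1 : 8 * Real.log 2 * Real.log y ≤ κ * Real.log (∏ p ∈ P, p : ℕ))
    (C2 : 2 * Real.log 2 ≤ δ * Real.log (∏ p ∈ P, p : ℕ))
    (lb : ℝ) (C3 : Real.log (∏ p ∈ P, p : ℕ) ≤ lb)
    (C4 : 4 * Real.log (∏ p ∈ P, p : ℕ) * Real.log y ≤ κ * lb)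
    (hm : ∀ i, lb ≤ Real.log (m i)) (Λ : ℝ) (hΛ : ∑ i, Real.log (m i) ≤ Λ) (hΛ0 : 0 ≤ Λ)
    (F : Q → Q → (∀ i, ZMod (m i)) → E) :
    Dec (Matrix.of fun u v : Q × (∀ i, ZMod (m i)) => F u.1 v.1 (u.2 - v.2))
      (256 * (Fintype.card Q * Real.exp (∑ i, Real.log (m i) -
        κ / (2 * Real.log y) * (δ * Λ))))
      (Fintype.card Q * Real.exp (5 * (δ * Λ))) := by
  have hκ0 : 0 ≤ κ := by rw [hκ]; positivity
  have hly : 0 < Real.log y := Real.log_pos hy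
  rcases le_or_gt (∑ i, Real.log (m i : ℝ)) (δ * Λ) with h | h
  · refine (dec_triv' _).mono (by positivity) ?_
    rw [Fintype.card_prod]
    push_cast
    rw [card_zmods]
    refine mul_le_mul_of_nonneg_left (Real.exp_le_exp.mpr ?_) (Nat.cast_nonneg _)
    have : 0 ≤ δ * Λ := by positivity
    linarith
  · have hpos : 0 < ∑ i, Real.log (m i : ℝ) := lt_of_le_of_lt (by positivity) h
    have hne : Nonempty ι := by
      by_contra hcon
      rw [not_nonempty_iff] at hcon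
      rw [Finset.univ_eq_empty, Finset.sum_empty] at hpos
      exact lt_irrefl _ hpos
    have : ∀ p : P, NeZero p.1 := fun p => ⟨(hP p.1 p.2).pos.ne'⟩
    refine (large m P hP hE hroots y hy hPy hB δ κ N hδ hδ1 hN hκ C1 C2 lb C3 C4 hm hne F).mono
      ?_ ?_
    · refine mul_le_mul_of_nonneg_left (mul_le_mul_of_nonneg_left (Real.exp_le_exp.mpr ?_)
        (Nat.cast_nonneg _)) (by norm_num)
      have := mul_le_mul_of_nonneg_left h.le (show 0 ≤ κ / (2 * Real.log y) by positivity)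
      linarith
    · refine mul_le_mul_of_nonneg_left (Real.exp_le_exp.mpr ?_) (Nat.cast_nonneg _)
      have := mul_le_mul_of_nonneg_left hΛ hδ.le
      linarith

theorem combine (P : Finset ℕ) (hP : ∀ p ∈ P, p.Prime) (hE : ∀ p ∈ P, (p : E) ≠ 0)
    (hroots : ∀ p ∈ P, ∃ ζ : E, IsPrimitiveRoot ζ p)
    (y : ℝ) (hy : 1 < y) (hPy : ∀ p ∈ P, (p : ℝ) ≤ y) (hB : 2 ≤ ∏ p ∈ P, p)
    (δ κ : ℝ) (N : ℕ) (hδ : 0 < δ) (hδ1 : δ ≤ 1) (hN : 128 ≤ δ * 2 ^ N)
    (hκ : κ = (δ / (256 * (N + 1))) ^ 2)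
    (C1 : 8 * Real.log 2 * Real.log y ≤ κ * Real.log (∏ p ∈ P, p : ℕ))
    (C2 : 2 * Real.log 2 ≤ δ * Real.log (∏ p ∈ P, p : ℕ))
    (lb : ℝ) (C3 : Real.log (∏ p ∈ P, p : ℕ) ≤ lb)
    (C4 : 4 * Real.log (∏ p ∈ P, p : ℕ) * Real.log y ≤ κ * lb)
    (hgood : ∀ i, Real.log (m i) < lb → (m i : E) ≠ 0)
    (hroot' : ∀ i, Real.log (m i) < lb → ∃ ζ : E, IsPrimitiveRoot ζ (m i))
    (γ : ℝ) (hγ1 : γ ≤ κ / lb * δ) (hγ2 : γ ≤ κ / (2 * Real.log y) * δ)
    (F : Q → Q → (∀ i, ZMod (m i)) → E) :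
    Dec (Matrix.of fun u v : Q × (∀ i, ZMod (m i)) => F u.1 v.1 (u.2 - v.2))
      (512 * (Fintype.card Q * Real.exp ((1 - γ) * ∑ i, Real.log (m i))))
      (Fintype.card Q * Real.exp (7 * δ * ∑ i, Real.log (m i))) := by
  classical
  set Λ := ∑ i, Real.log (m i : ℝ) with hΛ
  have hm1 : ∀ i, (1 : ℝ) ≤ m i := fun i => by
    exact_mod_cast Nat.one_le_iff_ne_zero.mpr (NeZero.ne (m i))
  have hlog0 : ∀ i, 0 ≤ Real.log (m i : ℝ) := fun i => Real.log_nonneg (hm1 i)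
  have hΛ0 : 0 ≤ Λ := Finset.sum_nonneg fun i _ => hlog0 i
  have hβ0 : 0 < Real.log (∏ p ∈ P, p : ℕ) := Real.log_pos (by exact_mod_cast hB)
  have hlb : 0 < lb := lt_of_lt_of_le hβ0 C3
  set sm : ι → Prop := fun i => Real.log (m i : ℝ) < lb with hsm
  set mS : {i // sm i} → ℕ := fun i => m i.1 with hmS
  set mL : {i // ¬ sm i} → ℕ := fun i => m i.1 with hmL
  have hsplit : ∑ i, Real.log (mS i : ℝ) + ∑ i, Real.log (mL i : ℝ) = Λ := by
    rw [hΛ]
    exact Fintype.sum_subtype_add_sum_subtype sm (fun i => Real.log (m i : ℝ))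
  have hS0 : 0 ≤ ∑ i, Real.log (mS i : ℝ) := Finset.sum_nonneg fun i _ => hlog0 _
  have hL0 : 0 ≤ ∑ i, Real.log (mL i : ℝ) := Finset.sum_nonneg fun i _ => hlog0 _
  choose ζ hζ using fun i : {i // sm i} => hroot' i.1 i.2
  set ψ : ∀ i : {i // sm i}, AddChar (ZMod (mS i)) E := fun i =>
    AddChar.zmodChar (mS i) ((IsPrimitiveRoot.iff_def _ _).mp (hζ i)).1 with hψ
  have hψp : ∀ j, (ψ j).IsPrimitive := fun j =>
    AddChar.zmodChar_primitive_of_primitive_root _ (hζ j)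
  have dM := small_dec mS ψ (fM mS ψ) lb hlb (fun i => i.2.le) δ κ N hδ hδ1 hN hκ Λ (by linarith)
    hΛ0
  have dI := small_dec mS ψ (fI mS ψ) lb hlb (fun i => i.2.le) δ κ N hδ hδ1 hN hκ Λ (by linarith)
    hΛ0
  set glue : (∀ i, ZMod (mS i)) → (∀ i, ZMod (mL i)) → ∀ i, ZMod (m i) := fun h h' i =>
    if hi : sm i then h ⟨i, hi⟩ else h' ⟨i, hi⟩ with hglue
  set Φ : (∀ i, ZMod (mS i)) → (Q × ∀ i, ZMod (mL i)) → (Q × ∀ i, ZMod (mL i)) → E :=
    fun h u v => F u.1 v.1 (glue h (u.2 - v.2)) with hΦ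
  have hL : ∀ ξ, Dec (hat mS ψ Φ ξ)
      (256 * (Fintype.card Q * Real.exp (∑ i, Real.log (mL i : ℝ) -
        κ / (2 * Real.log y) * (δ * Λ))))
      (Fintype.card Q * Real.exp (5 * (δ * Λ))) := fun ξ =>
    large' mL P hP hE hroots y hy hPy hB δ κ N hδ hδ1 hN hκ C1 C2 lb C3 C4
      (fun i => not_lt.mp i.2) Λ (by linarith) hΛ0
      (fun q q' k => ∑ h, F q q' (glue h k) * ∏ i, ψ i (-(ξ i * h i)))
  have key := fib_dec mS ψ hψp (fun i => hgood i.1 i.2) Φ (Real.exp_pos _).le (by positivity)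
    dM dI hL
  set f : Q × (∀ i, ZMod (m i)) → (∀ i, ZMod (mS i)) × (Q × ∀ i, ZMod (mL i)) :=
    fun u => (fun i => u.2 i.1, (u.1, fun i => u.2 i.1)) with hf
  have hfi : Function.Injective f := by
    intro u v huv
    simp only [hf, Prod.mk.injEq] at huv
    refine Prod.ext huv.2.1 ?_
    funext i
    by_cases hi : sm i
    · exact congrFun huv.1 ⟨i, hi⟩
    · exact congrFun huv.2.2 ⟨i, hi⟩
  have e : (Matrix.of fun u v : Q × (∀ i, ZMod (m i)) => F u.1 v.1 (u.2 - v.2)) =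
      (Matrix.of fun u v : (∀ i, ZMod (mS i)) × (Q × ∀ i, ZMod (mL i)) =>
        Φ (u.1 - v.1) u.2 v.2).submatrix f f := by
    ext u v
    rw [Matrix.submatrix_apply, Matrix.of_apply, Matrix.of_apply]
    show F u.1 v.1 (u.2 - v.2) = F u.1 v.1 _
    congr 1
    funext i
    by_cases hi : sm i
    · simp only [hglue, dif_pos hi]
      rfl
    · simp only [hglue, dif_neg hi]
      rfl
  rw [e]
  refine (key.submatrix_inj f hfi).mono ?_ (le_of_eq ?_)
  · rw [Fintype.card_prod]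
    push_cast
    rw [card_zmods, card_zmods]
    set ΛS := ∑ i, Real.log (mS i : ℝ) with hΛS
    set ΛL := ∑ i, Real.log (mL i : ℝ) with hΛL
    have e1 : 2 * ((Fintype.card Q : ℝ) * Real.exp ΛL *
        (128 * Real.exp (-(κ / lb * (δ * Λ))) * Real.exp ΛS)) =
        256 * (Fintype.card Q * Real.exp (Λ - κ / lb * (δ * Λ))) := by
      rw [← hsplit, sub_eq_add_neg, Real.exp_add, Real.exp_add]
      ring
    have e2 : Real.exp ΛS * (256 * ((Fintype.card Q : ℝ) * Real.exp (ΛL -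
        κ / (2 * Real.log y) * (δ * Λ)))) =
        256 * (Fintype.card Q * Real.exp (Λ - κ / (2 * Real.log y) * (δ * Λ))) := by
      rw [← hsplit, sub_eq_add_neg, sub_eq_add_neg, Real.exp_add, Real.exp_add, Real.exp_add]
      ring
    rw [e1, e2]
    have h1 : Real.exp (Λ - κ / lb * (δ * Λ)) ≤ Real.exp ((1 - γ) * Λ) := by
      apply Real.exp_le_exp.mpr
      have := mul_le_mul_of_nonneg_right hγ1 hΛ0
      nlinarith
    have h2 : Real.exp (Λ - κ / (2 * Real.log y) * (δ * Λ)) ≤ Real.exp ((1 - γ) * Λ) := by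
      apply Real.exp_le_exp.mpr
      have := mul_le_mul_of_nonneg_right hγ2 hΛ0
      nlinarith
    have h3 := mul_le_mul_of_nonneg_left h1 (Nat.cast_nonneg (Fintype.card Q) : (0 : ℝ) ≤ _)
    have h4 := mul_le_mul_of_nonneg_left h2 (Nat.cast_nonneg (Fintype.card Q) : (0 : ℝ) ≤ _)
    linarith
  · have e1 : Real.exp (7 * δ * Λ) = Real.exp (δ * Λ) * Real.exp (5 * (δ * Λ)) *
        Real.exp (δ * Λ) := by
      rw [← Real.exp_add, ← Real.exp_add]
      congr 1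
      ring
    rw [e1]
    ring

end

end MP0775d3.Kron
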