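import Pool.Agent.Lib.MP_0775d3_lc.Kron.Digits

/-! Kernels of products of cyclic groups: numerics. -/

set_option linter.unusedSectionVars false
set_option linter.unusedVariables false
set_option linter.deprecated false

namespace MP0775d3.Kron

open Matrix

section
variable {E : Type*} [Field E]
variable {ι : Type*} [Fintype ι] [DecidableEq ι] (m : ι → ℕ) [∀ i, NeZero (m i)]

/-- The number of digits. -/
theorem exists_digits (B : ℕ) (hB : 2 ≤ B) (k : ℕ) (hk : 1 ≤ k) : ∃ a : ℕ, k ≤ B ^ a ∧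
    (a : ℝ) * Real.log B ≤ Real.log k + Real.log B := by
  have hex : ∃ a : ℕ, k ≤ B ^ a := ⟨k, (Nat.lt_pow_self (by omega)).le⟩
  classical
  refine ⟨Nat.find hex, Nat.find_spec hex, ?_⟩
  have hlB : 0 < Real.log B := Real.log_pos (by exact_mod_cast hB)
  have hlk : 0 ≤ Real.log k := Real.log_nonneg (by exact_mod_cast hk)
  rcases Nat.eq_zero_or_pos (Nat.find hex) with h0 | h0
  · rw [h0]
    simp only [Nat.cast_zero, zero_mul]
    linarith
  · have h1 := Nat.find_min hex (Nat.sub_lt h0 one_pos)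
    push Not at h1
    have h2 : Real.log ((B : ℝ) ^ (Nat.find hex - 1)) ≤ Real.log k := by
      refine Real.log_le_log (by positivity) ?_
      exact_mod_cast h1.le
    rw [Real.log_pow, Nat.cast_sub h0] at h2
    push_cast at h2
    linarith

variable (P : Finset ℕ) [∀ p : P, NeZero p.1]
variable {Q : Type*} [Fintype Q] [DecidableEq Q]

theorem large (hP : ∀ p ∈ P, p.Prime) (hE : ∀ p ∈ P, (p : E) ≠ 0)
    (hroots : ∀ p ∈ P, ∃ ζ : E, IsPrimitiveRoot ζ p)
    (y : ℝ) (hy : 1 < y) (hPy : ∀ p ∈ P, (p : ℝ) ≤ y) (hB : 2 ≤ ∏ p ∈ P, p)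
    (δ κ : ℝ) (N : ℕ) (hδ : 0 < δ) (hδ1 : δ ≤ 1) (hN : 128 ≤ δ * 2 ^ N)
    (hκ : κ = (δ / (256 * (N + 1))) ^ 2)
    (C1 : 8 * Real.log 2 * Real.log y ≤ κ * Real.log (∏ p ∈ P, p : ℕ))
    (C2 : 2 * Real.log 2 ≤ δ * Real.log (∏ p ∈ P, p : ℕ))
    (lb : ℝ) (C3 : Real.log (∏ p ∈ P, p : ℕ) ≤ lb)
    (C4 : 4 * Real.log (∏ p ∈ P, p : ℕ) * Real.log y ≤ κ * lb)
    (hm : ∀ i, lb ≤ Real.log (m i)) (hne : Nonempty ι)
    (F : Q → Q → (∀ i, ZMod (m i)) → E) :
    Dec (Matrix.of fun u v : Q × (∀ i, ZMod (m i)) => F u.1 v.1 (u.2 - v.2))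
      (256 * (Fintype.card Q * Real.exp ((1 - κ / (2 * Real.log y)) * ∑ i, Real.log (m i))))
      (Fintype.card Q * Real.exp (5 * δ * ∑ i, Real.log (m i))) := by
  classical
  set β := Real.log (∏ p ∈ P, p : ℕ) with hβ
  have hβ0 : 0 < β := Real.log_pos (by exact_mod_cast hB)
  have hly : 0 < Real.log y := Real.log_pos hy
  have hlb : 0 < lb := lt_of_lt_of_le hβ0 C3
  have hl2 : 0 < Real.log 2 := Real.log_pos (by norm_num)
  have hm1 : ∀ i, 1 ≤ m i := fun i => Nat.one_le_iff_ne_zero.mpr (NeZero.ne _)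
  choose a ha1 ha2 using fun i => exists_digits (∏ p ∈ P, p) hB (m i) (hm1 i)
  set Λ := ∑ i, Real.log (m i : ℝ) with hΛ
  set A := ∑ i, a i with hA
  have hΛ0 : 0 < Λ := by
    obtain ⟨i⟩ := hne
    exact Finset.sum_pos (fun i _ => lt_of_lt_of_le hlb (hm i)) ⟨i, Finset.mem_univ i⟩
  have hι : (Fintype.card ι : ℝ) * lb ≤ Λ := by
    rw [hΛ, ← nsmul_eq_mul, ← Finset.card_univ, ← Finset.sum_const]
    exact Finset.sum_le_sum fun i _ => hm i
  have hA1 : (A : ℝ) * β ≤ Λ + Fintype.card ι * β := by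
    rw [hA, hΛ]
    push_cast
    rw [Finset.sum_mul]
    have : (Fintype.card ι : ℝ) * β = ∑ i : ι, β := by
      rw [Finset.sum_const, nsmul_eq_mul, Finset.card_univ]
    rw [this, ← Finset.sum_add_distrib]
    exact Finset.sum_le_sum fun i _ => ha2 i
  have hA2 : Λ ≤ (A : ℝ) * β := by
    rw [hA, hΛ]
    push_cast
    rw [Finset.sum_mul]
    refine Finset.sum_le_sum fun i _ => ?_
    have h1 : Real.log (m i : ℝ) ≤ Real.log (((∏ p ∈ P, p : ℕ) : ℝ) ^ (a i)) := by
      refine Real.log_le_log (by exact_mod_cast hm1 i) ?_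
      exact_mod_cast ha1 i
    rwa [Real.log_pow] at h1
  have hιβ : (Fintype.card ι : ℝ) * β ≤ κ / (4 * Real.log y) * Λ := by
    have h1 : (Fintype.card ι : ℝ) * (4 * β * Real.log y) ≤ (Fintype.card ι : ℝ) * (κ * lb) :=
      mul_le_mul_of_nonneg_left C4 (Nat.cast_nonneg _)
    have hκ0 : 0 ≤ κ := by rw [hκ]; positivity
    have h2 : κ * ((Fintype.card ι : ℝ) * lb) ≤ κ * Λ := mul_le_mul_of_nonneg_left hι hκ0
    rw [div_mul_eq_mul_div, le_div_iff₀ (by positivity)]
    nlinarith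
  have hιβ' : (Fintype.card ι : ℝ) * β ≤ Λ := by
    have : (Fintype.card ι : ℝ) * β ≤ (Fintype.card ι : ℝ) * lb :=
      mul_le_mul_of_nonneg_left C3 (Nat.cast_nonneg _)
    linarith
  have hA3 : (A : ℝ) * β ≤ 2 * Λ := by linarith
  have hAl2 : (A : ℝ) * Real.log 2 ≤ κ / (4 * Real.log y) * Λ := by
    have hκ0 : 0 ≤ κ := by rw [hκ]; positivity
    rw [div_mul_eq_mul_div, le_div_iff₀ (by positivity)]
    have h1 : (A : ℝ) * (8 * Real.log 2 * Real.log y) ≤ (A : ℝ) * (κ * β) :=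
      mul_le_mul_of_nonneg_left C1 (Nat.cast_nonneg _)
    have h2 : κ * ((A : ℝ) * β) ≤ κ * (2 * Λ) := mul_le_mul_of_nonneg_left hA3 hκ0
    nlinarith
  have hAl2' : (A : ℝ) * Real.log 2 ≤ δ * Λ := by
    have h1 : (A : ℝ) * (2 * Real.log 2) ≤ (A : ℝ) * (δ * β) :=
      mul_le_mul_of_nonneg_left C2 (Nat.cast_nonneg _)
    have h2 : δ * ((A : ℝ) * β) ≤ δ * (2 * Λ) := mul_le_mul_of_nonneg_left hA3 hδ.le
    nlinarith
  -- characters
  choose ζ hζ using fun p : P => hroots p.1 p.2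
  set ψ : ∀ j : (Σ i, Fin (a i)) × P, AddChar (ZMod j.2.1) E := fun j =>
    AddChar.zmodChar j.2.1 ((IsPrimitiveRoot.iff_def _ _).mp (hζ j.2)).1 with hψ
  have hψp : ∀ j, (ψ j).IsPrimitive := fun j =>
    AddChar.zmodChar_primitive_of_primitive_root _ (hζ j.2)
  -- sizes
  have hls : logSize (fun j : (Σ i, Fin (a i)) × P => ZMod j.2.1) = A * β := by
    unfold logSize
    rw [Fintype.sum_prod_type]
    have h1 : ∀ d : (Σ i, Fin (a i)), ∑ p : P, Real.log (Fintype.card (ZMod p.1)) = β := by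
      intro d
      have h2 : ∀ p : P, Real.log (Fintype.card (ZMod p.1)) = Real.log p.1 := by
        intro p
        rw [ZMod.card]
      rw [Finset.sum_congr rfl (fun p _ => h2 p), Finset.sum_coe_sort P (fun p => Real.log (p : ℝ)),
        hβ]
      push_cast
      rw [Real.log_prod]
      intro p hp
      exact_mod_cast (hP p hp).pos.ne'
    rw [Finset.sum_congr rfl (fun d _ => h1 d), Finset.sum_const, Finset.card_univ,
      Fintype.card_sigma, nsmul_eq_mul]
    simp only [Fintype.card_fin]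
    rw [hA]
  have hA0 : 0 < (A : ℝ) * β := lt_of_lt_of_le hΛ0 hA2
  have hcard : (Fintype.card (∀ j : (Σ i, Fin (a i)) × P, ZMod j.2.1) : ℝ) =
      Real.exp (A * β) := by
    rw [← hls]
    unfold logSize
    rw [Real.exp_sum, Fintype.card_pi]
    push_cast
    refine Finset.prod_congr rfl fun j _ => ?_
    rw [Real.exp_log]
    rw [ZMod.card]
    exact_mod_cast (hP _ j.2.2).pos
  have hd : ∀ j : (Σ i, Fin (a i)) × P, Real.log (Fintype.card (ZMod j.2.1)) ≤
      (Real.log y / (A * β)) * logSize (fun j : (Σ i, Fin (a i)) × P => ZMod j.2.1) := by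
    intro j
    rw [hls, div_mul_cancel₀ _ hA0.ne', ZMod.card]
    exact Real.log_le_log (by exact_mod_cast (hP _ j.2.2).pos) (hPy _ j.2.2)
  have hη : 0 < Real.log y / (A * β) := div_pos hly hA0
  have d1 := dec_kron (fM (fun j : (Σ i, Fin (a i)) × P => j.2.1) ψ) _ hη δ N hδ hδ1 hN
    (by rw [hls]; exact hA0) hd
  have d2 := dec_kron (fI (fun j : (Σ i, Fin (a i)) × P => j.2.1) ψ) _ hη δ N hδ hδ1 hN
    (by rw [hls]; exact hA0) hd
  rw [hls, hcard, ← hκ] at d1 d2
  have key := digits_dec m a P ha1 hP ψ hψp hE F (Real.exp_pos _).le d1 d2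
  have hκ0 : 0 ≤ κ := by rw [hκ]; positivity
  have hpow : (2 : ℝ) ^ A = Real.exp (A * Real.log 2) := by
    rw [← Real.log_pow, Real.exp_log (by positivity)]
  refine key.mono ?_ ?_
  · rw [← hA, hpow]
    have e1 : 2 * ((Fintype.card Q : ℝ) * Real.exp (A * Real.log 2) *
        (128 * Real.exp (-(κ / (Real.log y / (A * β)))) * Real.exp (A * β))) =
        256 * (Fintype.card Q * Real.exp (A * Real.log 2 - κ / (Real.log y / (A * β)) +
          A * β)) := by
      rw [Real.exp_add, Real.exp_sub, Real.exp_neg]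
      field_simp
      ring
    rw [e1]
    refine mul_le_mul_of_nonneg_left (mul_le_mul_of_nonneg_left (Real.exp_le_exp.mpr ?_)
      (Nat.cast_nonneg _)) (by norm_num)
    have h1 : κ / (Real.log y / (A * β)) = κ / Real.log y * (A * β) := by
      field_simp
    have h2 : κ / Real.log y * Λ ≤ κ / Real.log y * (A * β) :=
      mul_le_mul_of_nonneg_left hA2 (by positivity)
    have h3 : (1 - κ / (2 * Real.log y)) * Λ = Λ - κ / Real.log y * Λ +
        2 * (κ / (4 * Real.log y) * Λ) := by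
      field_simp
      ring
    rw [h1, h3]
    linarith
  · rw [← hA, hpow]
    have e1 : (Fintype.card Q : ℝ) * Real.exp (A * Real.log 2) * Real.exp (δ * (A * β)) ^ 2 =
        Fintype.card Q * Real.exp (A * Real.log 2 + 2 * (δ * (A * β))) := by
      rw [Real.exp_add, ← Real.exp_nat_mul]
      push_cast
      ring
    rw [e1]
    refine mul_le_mul_of_nonneg_left (Real.exp_le_exp.mpr ?_) (Nat.cast_nonneg _)
    have h2 : δ * (A * β) ≤ δ * (2 * Λ) := mul_le_mul_of_nonneg_left hA3 hδ.le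
    nlinarith

end

end MP0775d3.Kron
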