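import Pool.Agent.Lib.MP_0775d3_lc.Kron.TriOne
import Pool.Agent.Lib.MP_0775d3_lc.Kron.Large

/-! Kernels of products of small cyclic groups over an arbitrary field. -/

set_option linter.unusedSectionVars false
set_option linter.unusedVariables false
set_option linter.deprecated false

namespace MP0775d3.Kron

open Matrix

section
variable {F : Type*} [Field F]
variable {X Y Z : Type*} [Fintype X] [DecidableEq X] [Fintype Y] [DecidableEq Y]
  [Fintype Z] [DecidableEq Z]

theorem ncard_eq_sum (p : X → Prop) [DecidablePred p] : (({x | p x} : Set X).ncard : ℝ) =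
    ∑ x, if p x then (1 : ℝ) else 0 := by
  rw [Finset.sum_boole, ← Set.ncard_coe_finset]
  congr 2
  ext x
  simp

theorem ncard_blocks (A : Z → Prop) (B : Z → Y → Prop) (t s : ℝ) (hs : 0 ≤ s)
    (hA : (({z | A z} : Set Z).ncard : ℝ) ≤ t)
    (hB : ∀ z, (({y | B z y} : Set Y).ncard : ℝ) ≤ s) :
    (({v : Z × Y | A v.1 ∧ B v.1 v.2} : Set (Z × Y)).ncard : ℝ) ≤ t * s := by
  classical
  rw [ncard_eq_sum, Fintype.sum_prod_type]
  have h1 : ∀ z, ∑ y, (if A z ∧ B z y then (1 : ℝ) else 0) ≤ (if A z then (1 : ℝ) else 0) * s := by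
    intro z
    by_cases hz : A z
    · rw [if_pos hz, one_mul]
      refine le_trans (le_of_eq ?_) (hB z)
      rw [ncard_eq_sum]
      exact Finset.sum_congr rfl fun y _ => by simp [hz]
    · rw [if_neg hz, zero_mul]
      refine le_of_eq (Finset.sum_eq_zero fun y _ => ?_)
      rw [if_neg (fun h => hz h.1)]
  refine (Finset.sum_le_sum fun z _ => h1 z).trans ?_
  rw [← Finset.sum_mul]
  refine mul_le_mul_of_nonneg_right ?_ hs
  refine le_trans (le_of_eq ?_) hA
  rw [ncard_eq_sum]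

/-- Block matrices all of whose blocks decompose. -/
theorem dec_blocks (M : Z → Z → Matrix Y Y F) (G : Set Z) (t b r s : ℝ) (ht : 0 ≤ t)
    (hr : 0 ≤ r) (hs : 0 ≤ s) (hb : ((Gᶜ : Set Z).ncard : ℝ) ≤ b)
    (hrow : ∀ j ∈ G, (({k | k ∈ G ∧ M j k ≠ 0} : Set Z).ncard : ℝ) ≤ t)
    (hcol : ∀ k ∈ G, (({j | j ∈ G ∧ M j k ≠ 0} : Set Z).ncard : ℝ) ≤ t)
    (h : ∀ j k, Dec (M j k) r s) :
    Dec (Matrix.of fun u v : Z × Y => M u.1 v.1 u.2 v.2)
      (2 * (b * Fintype.card Y) + Fintype.card Z * t * r) (t * s) := by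
  classical
  choose R S h1 h2 h3 using h
  set K : Finset (Z × Z) := Finset.univ.filter (fun p => p.1 ∈ G ∧ p.2 ∈ G ∧ M p.1 p.2 ≠ 0) with hK
  set Rt : Matrix (Z × Y) (Z × Y) F := ∑ p ∈ K,
    Matrix.diagonal (fun u : Z × Y => if u.1 = p.1 then (1 : F) else 0) *
      (R p.1 p.2).submatrix Prod.snd Prod.snd *
      Matrix.diagonal (fun u : Z × Y => if u.1 = p.2 then (1 : F) else 0) with hRt
  have hRe : ∀ u v : Z × Y, Rt u v = if (u.1, v.1) ∈ K then R u.1 v.1 u.2 v.2 else 0 := by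
    intro u v
    rw [hRt, Matrix.sum_apply]
    simp only [Matrix.mul_diagonal, Matrix.diagonal_mul, Matrix.submatrix_apply]
    by_cases hk : (u.1, v.1) ∈ K
    · rw [if_pos hk, Finset.sum_eq_single (u.1, v.1)]
      · simp
      · intro p _ hp
        by_cases c1 : u.1 = p.1
        · have c2 : ¬ v.1 = p.2 := fun c2 => hp (Prod.ext c1.symm c2.symm)
          simp [c2]
        · simp [c1]
      · intro h0
        exact absurd hk h0
    · rw [if_neg hk]
      refine Finset.sum_eq_zero fun p hp => ?_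
      by_cases c1 : u.1 = p.1
      · have c2 : ¬ v.1 = p.2 := by
          intro c2
          apply hk
          rw [c1, c2]
          exact hp
        simp [c2]
      · simp [c1]
  have hKc : (K.card : ℝ) ≤ Fintype.card Z * t := by
    have e1 : (K.card : ℝ) = ∑ p : Z × Z, if p.1 ∈ G ∧ p.2 ∈ G ∧ M p.1 p.2 ≠ 0 then (1 : ℝ)
        else 0 := by
      rw [Finset.sum_boole]
    rw [e1, Fintype.sum_prod_type]
    have e2 : ∀ j : Z, ∑ k : Z, (if j ∈ G ∧ k ∈ G ∧ M j k ≠ 0 then (1 : ℝ) else 0) ≤ t := by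
      intro j
      by_cases hj : j ∈ G
      · refine le_trans (le_of_eq ?_) (hrow j hj)
        rw [ncard_eq_sum]
        exact Finset.sum_congr rfl fun k _ => by simp [hj]
      · refine le_trans (le_of_eq ?_) ht
        refine Finset.sum_eq_zero fun k _ => ?_
        rw [if_neg (fun h => hj h.1)]
    refine (Finset.sum_le_sum fun j _ => e2 j).trans (le_of_eq ?_)
    rw [Finset.sum_const, Finset.card_univ, nsmul_eq_mul]
  have hRr : (Rt.rank : ℝ) ≤ Fintype.card Z * t * r := by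
    refine (rank_sum_le K _ r ?_).trans (mul_le_mul_of_nonneg_right hKc hr)
    intro p _
    refine le_trans ?_ (h2 p.1 p.2)
    have h4 := ((Matrix.rank_mul_le_left (Matrix.diagonal (fun u : Z × Y =>
      if u.1 = p.1 then (1 : F) else 0) * (R p.1 p.2).submatrix Prod.snd Prod.snd)
        (Matrix.diagonal (fun u : Z × Y => if u.1 = p.2 then (1 : F) else 0))).trans
      (Matrix.rank_mul_le_right _ _)).trans (rank_submatrix_le' (R p.1 p.2) Prod.snd Prod.snd)
    exact_mod_cast h4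
  set E : Matrix (Z × Y) (Z × Y) F := (Matrix.of fun u v : Z × Y => M u.1 v.1 u.2 v.2) - Rt with hE
  have hEe : ∀ u v : Z × Y, u.1 ∈ G → v.1 ∈ G → E u v ≠ 0 →
      M u.1 v.1 ≠ 0 ∧ S u.1 v.1 u.2 v.2 ≠ 0 := by
    intro u v hu hv huv
    have e1 : E u v = M u.1 v.1 u.2 v.2 - Rt u v := rfl
    rw [e1, hRe] at huv
    by_cases hM : M u.1 v.1 = 0
    · exfalso
      apply huv
      have : (u.1, v.1) ∉ K := by
        intro hk
        rw [hK, Finset.mem_filter] at hk
        exact hk.2.2.2 hM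
      rw [if_neg this, hM]
      simp
    · refine ⟨hM, ?_⟩
      have : (u.1, v.1) ∈ K := by
        rw [hK, Finset.mem_filter]
        exact ⟨Finset.mem_univ _, hu, hv, hM⟩
      rw [if_pos this, h1, Matrix.add_apply, add_sub_cancel_left] at huv
      exact huv
  have hdec := dec_of_typical E {u : Z × Y | u.1 ∈ G} (t * s) (b * Fintype.card Y) ?_ ?_ ?_
    (mul_nonneg ht hs)
  · obtain ⟨R', S', g1, g2, g3⟩ := hdec
    refine ⟨Rt + R', S', ?_, ?_, g3⟩
    · rw [add_assoc, ← g1, hE, add_sub_cancel]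
    · calc (((Rt + R').rank : ℕ) : ℝ) ≤ ((Rt.rank + R'.rank : ℕ) : ℝ) := by
            exact_mod_cast rank_add_le Rt R'
        _ = (Rt.rank : ℝ) + R'.rank := by push_cast; rfl
        _ ≤ 2 * (b * Fintype.card Y) + Fintype.card Z * t * r := by linarith
  · have e1 : ({u : Z × Y | u.1 ∈ G}ᶜ : Set (Z × Y)) = (Gᶜ) ×ˢ (Set.univ : Set Y) := by
      ext u
      simp
    rw [e1, Set.ncard_prod, Set.ncard_univ, Nat.card_eq_fintype_card]
    push_cast
    exact mul_le_mul_of_nonneg_right hb (Nat.cast_nonneg _)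
  · intro u hu
    refine le_trans ?_ (ncard_blocks (fun k => k ∈ G ∧ M u.1 k ≠ 0)
      (fun k y => S u.1 k u.2 y ≠ 0) t s hs (hrow u.1 hu) (fun k => (h3 u.1 k).1 u.2))
    have : ({v | v ∈ {u : Z × Y | u.1 ∈ G} ∧ E u v ≠ 0} : Set (Z × Y)) ⊆
        {v | (v.1 ∈ G ∧ M u.1 v.1 ≠ 0) ∧ S u.1 v.1 u.2 v.2 ≠ 0} := by
      intro v hv
      have := hEe u v hu hv.1 hv.2
      exact ⟨⟨hv.1, this.1⟩, this.2⟩
    exact_mod_cast Set.ncard_le_ncard this (Set.toFinite _)
  · intro v hv
    refine le_trans ?_ (ncard_blocks (fun j => j ∈ G ∧ M j v.1 ≠ 0)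
      (fun j y => S j v.1 y v.2 ≠ 0) t s hs (hcol v.1 hv) (fun j => (h3 j v.1).2 v.2))
    have : ({u | u ∈ {u : Z × Y | u.1 ∈ G} ∧ E u v ≠ 0} : Set (Z × Y)) ⊆
        {u | (u.1 ∈ G ∧ M u.1 v.1 ≠ 0) ∧ S u.1 v.1 u.2 v.2 ≠ 0} := by
      intro u hu
      have := hEe u v hu.1 hv hu.2
      exact ⟨⟨hu.1, this.1⟩, this.2⟩
    exact_mod_cast Set.ncard_le_ncard this (Set.toFinite _)

end

section
variable {E : Type*} [Field E]
variable {ι : Type*} [Fintype ι] [DecidableEq ι] (m : ι → ℕ) [∀ i, NeZero (m i)]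
variable {Y : Type*} [Fintype Y] [DecidableEq Y]

theorem tri_eq (P P' : ∀ i, Matrix (ZMod (m i)) (ZMod (m i)) E)
    (N : ∀ i, ZMod (m i) → Matrix (ZMod (m i)) (ZMod (m i)) E)
    (hC : ∀ i h x y, (P i * N i h * P' i) x y = if x - y = h then 1 else 0)
    (Φ : (∀ i, ZMod (m i)) → Y → Y → E) :
    (Matrix.of fun u v : (∀ i, ZMod (m i)) × Y => Φ (u.1 - v.1) u.2 v.2) =
      (Matrix.of fun u v : (∀ i, ZMod (m i)) × Y =>
        if u.2 = v.2 then kron P u.1 v.1 else 0) *
      (Matrix.of fun u v : (∀ i, ZMod (m i)) × Y =>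
        ∑ h, Φ h u.2 v.2 * kron (fun i => N i (h i)) u.1 v.1) *
      (Matrix.of fun u v : (∀ i, ZMod (m i)) × Y =>
        if u.2 = v.2 then kron P' u.1 v.1 else 0) := by
  ext u v
  have e0 : Φ (u.1 - v.1) u.2 v.2 =
      ∑ h, Φ h u.2 v.2 * (kron P * kron (fun i => N i (h i)) * kron P') u.1 v.1 := by
    rw [Finset.sum_eq_single (u.1 - v.1)]
    · rw [← kron_mul, ← kron_mul]
      unfold kron
      rw [Finset.prod_eq_one, mul_one]
      intro i _
      show (P i * N i ((u.1 - v.1) i) * P' i) (u.1 i) (v.1 i) = 1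
      rw [hC, if_pos]
      rfl
    · intro h _ hne
      rw [← kron_mul, ← kron_mul]
      obtain ⟨i, hi⟩ := Function.ne_iff.mp hne
      unfold kron
      rw [Finset.prod_eq_zero (Finset.mem_univ i), mul_zero]
      show (P i * N i (h i) * P' i) (u.1 i) (v.1 i) = 0
      rw [hC, if_neg]
      intro h0
      exact hi h0.symm
    · intro h0
      exact absurd (Finset.mem_univ _) h0
  rw [Matrix.of_apply, e0, Matrix.mul_apply, Fintype.sum_prod_type]
  have e1 : ∀ (k : ∀ i, ZMod (m i)) (b : Y), ((Matrix.of fun u v : (∀ i, ZMod (m i)) × Y =>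
        if u.2 = v.2 then kron P u.1 v.1 else 0) *
      (Matrix.of fun u v : (∀ i, ZMod (m i)) × Y =>
        ∑ h, Φ h u.2 v.2 * kron (fun i => N i (h i)) u.1 v.1)) u (k, b) =
      ∑ h, Φ h u.2 b * (kron P * kron (fun i => N i (h i))) u.1 k := by
    intro k b
    rw [Matrix.mul_apply, Fintype.sum_prod_type]
    have e2 : ∀ j : ∀ i, ZMod (m i), ∑ c : Y, (Matrix.of fun u v : (∀ i, ZMod (m i)) × Y =>
        if u.2 = v.2 then kron P u.1 v.1 else 0) u (j, c) *
        (Matrix.of fun u v : (∀ i, ZMod (m i)) × Y =>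
        ∑ h, Φ h u.2 v.2 * kron (fun i => N i (h i)) u.1 v.1) (j, c) (k, b) =
        kron P u.1 j * ∑ h, Φ h u.2 b * kron (fun i => N i (h i)) j k := by
      intro j
      rw [Finset.sum_eq_single u.2]
      · simp only [Matrix.of_apply, if_true]
      · intro c _ hc
        simp [Ne.symm hc]
      · intro h0
        exact absurd (Finset.mem_univ _) h0
    rw [Finset.sum_congr rfl (fun j _ => e2 j)]
    simp only [Finset.mul_sum, Matrix.mul_apply]
    rw [Finset.sum_comm]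
    refine Finset.sum_congr rfl fun h _ => Finset.sum_congr rfl fun j _ => ?_
    ring
  have e3 : ∀ k : ∀ i, ZMod (m i), ∑ b : Y, ((Matrix.of fun u v : (∀ i, ZMod (m i)) × Y =>
        if u.2 = v.2 then kron P u.1 v.1 else 0) *
      (Matrix.of fun u v : (∀ i, ZMod (m i)) × Y =>
        ∑ h, Φ h u.2 v.2 * kron (fun i => N i (h i)) u.1 v.1)) u (k, b) *
      (Matrix.of fun u v : (∀ i, ZMod (m i)) × Y =>
        if u.2 = v.2 then kron P' u.1 v.1 else 0) (k, b) v =
      (∑ h, Φ h u.2 v.2 * (kron P * kron (fun i => N i (h i))) u.1 k) * kron P' k v.1 := by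
    intro k
    rw [Finset.sum_eq_single v.2]
    · rw [e1]
      simp only [Matrix.of_apply, if_true]
    · intro b _ hb
      simp [hb]
    · intro h0
      exact absurd (Finset.mem_univ _) h0
  rw [Finset.sum_congr rfl (fun k _ => e3 k)]
  simp only [Finset.sum_mul]
  rw [Finset.sum_comm]
  refine Finset.sum_congr rfl fun h _ => ?_
  rw [Matrix.mul_apply, Finset.mul_sum]
  refine Finset.sum_congr rfl fun k _ => ?_
  ring

theorem tri_dec (P P' : ∀ i, Matrix (ZMod (m i)) (ZMod (m i)) E)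
    (N : ∀ i, ZMod (m i) → Matrix (ZMod (m i)) (ZMod (m i)) E)
    (hC : ∀ i h x y, (P i * N i h * P' i) x y = if x - y = h then 1 else 0)
    (hN : ∀ i h j k, N i h j k ≠ 0 → j = k ∨ j.val < k.val)
    (Φ : (∀ i, ZMod (m i)) → Y → Y → E) {r s r' s' : ℝ} (hs : 0 ≤ s) (hr' : 0 ≤ r') (hs' : 0 ≤ s')
    (dP : Dec (kron P) r s) (dP' : Dec (kron P') r s)
    (h : ∀ c : (∀ i, ZMod (m i)) → E, Dec (fun u v => ∑ h, Φ h u v * c h) r' s')
    (b : ℝ) (hb : ∀ i, (m i : ℝ) ≤ b) (lb : ℝ) (hlb : 0 < lb) (hm : ∀ i, Real.log (m i) ≤ lb)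
    (hΛ : 0 < ∑ i, Real.log (m i)) (ε : ℝ) (hε : 0 < ε) (hε1 : ε ≤ 1) (K : ℕ) :
    Dec (Matrix.of fun u v : (∀ i, ZMod (m i)) × Y => Φ (u.1 - v.1) u.2 v.2)
      (2 * (Fintype.card Y * r) + (2 * (2 * Real.exp (-(ε ^ 2 / (4 * lb) * ∑ i, Real.log (m i))) *
        Fintype.card (∀ i, ZMod (m i)) * Fintype.card Y) + Fintype.card (∀ i, ZMod (m i)) *
        Real.exp (((1 + K) * (2 * (b * ε)) + 2 * (1 / 2) ^ K) * ∑ i, Real.log (m i)) * r'))
      (s * (Real.exp (((1 + K) * (2 * (b * ε)) + 2 * (1 / 2) ^ K) * ∑ i, Real.log (m i)) * s') *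
        s) := by
  classical
  have hls : logSize (fun i => ZMod (m i)) = ∑ i, Real.log (m i) := by
    unfold logSize
    exact Finset.sum_congr rfl fun i _ => by rw [ZMod.card]
  set Λ := ∑ i, Real.log (m i : ℝ) with hΛdef
  have hm1 : ∀ i, (1 : ℝ) ≤ m i := fun i => by
    exact_mod_cast Nat.one_le_iff_ne_zero.mpr (NeZero.ne (m i))
  have hl0 : ∀ i, 0 ≤ Real.log (m i : ℝ) := fun i => Real.log_nonneg (hm1 i)
  have hne : Nonempty ι := by
    by_contra hcon
    rw [not_nonempty_iff] at hcon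
    rw [hΛdef, Finset.univ_eq_empty, Finset.sum_empty] at hΛ
    exact lt_irrefl _ hΛ
  have hb1 : 1 ≤ b := by
    obtain ⟨i⟩ := hne
    exact (hm1 i).trans (hb i)
  -- weights
  set μ : ι → ℝ := fun i => (∑ a : ZMod (m i), (a.val : ℝ)) / m i with hμ
  set g : ∀ i, ZMod (m i) → ℝ := fun i a => Real.log (m i) / m i * ((a.val : ℝ) - μ i) with hg
  have h0 : ∀ i, ∑ a, g i a = 0 := by
    intro i
    simp only [hg]
    rw [← Finset.mul_sum, Finset.sum_sub_distrib, Finset.sum_const, Finset.card_univ, ZMod.card,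
      nsmul_eq_mul]
    have hmi : (m i : ℝ) ≠ 0 := by have := hm1 i; positivity
    have : (m i : ℝ) * μ i = ∑ a : ZMod (m i), (a.val : ℝ) := by
      rw [hμ]; field_simp
    rw [this, sub_self, mul_zero]
  have hμ0 : ∀ i, 0 ≤ μ i := fun i =>
    div_nonneg (Finset.sum_nonneg fun a _ => Nat.cast_nonneg _) (Nat.cast_nonneg _)
  have hμ1 : ∀ i, μ i ≤ m i := by
    intro i
    have hmi : (0 : ℝ) < m i := lt_of_lt_of_le one_pos (hm1 i)
    rw [hμ]
    simp only
    rw [div_le_iff₀ hmi]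
    calc ∑ a : ZMod (m i), (a.val : ℝ) ≤ ∑ a : ZMod (m i), (m i : ℝ) :=
          Finset.sum_le_sum fun a _ => by exact_mod_cast (ZMod.val_lt a).le
      _ = (m i : ℝ) * m i := by
          rw [Finset.sum_const, Finset.card_univ, ZMod.card, nsmul_eq_mul]
  have hg1 : ∀ i a, |g i a| ≤ Real.log (Fintype.card (ZMod (m i))) := by
    intro i a
    have hmi : (0 : ℝ) < m i := lt_of_lt_of_le one_pos (hm1 i)
    rw [ZMod.card]
    simp only [hg]
    rw [abs_mul, abs_of_nonneg (div_nonneg (hl0 i) hmi.le)]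
    have h1 : |((a.val : ℕ) : ℝ) - μ i| ≤ m i := by
      have h2 : ((a.val : ℕ) : ℝ) ≤ m i := by exact_mod_cast (ZMod.val_lt a).le
      have h3 : (0 : ℝ) ≤ ((a.val : ℕ) : ℝ) := Nat.cast_nonneg _
      rw [abs_le]
      constructor <;> linarith [hμ0 i, hμ1 i]
    calc Real.log (m i) / m i * |((a.val : ℕ) : ℝ) - μ i| ≤ Real.log (m i) / m i * m i :=
          mul_le_mul_of_nonneg_left h1 (div_nonneg (hl0 i) hmi.le)
      _ = Real.log (m i) := by field_simp
  have hηpos : 0 < lb / Λ := div_pos hlb hΛ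
  have htail := two_tails g (lb / Λ) ε hηpos hε hε1 (by rw [hls]; exact hΛ)
    (fun i => by rw [hls, div_mul_cancel₀ _ hΛ.ne', ZMod.card]; exact hm i) h0 hg1
  rw [hls] at htail
  set G : Set (∀ i, ZMod (m i)) := {x | |∑ i, g i (x i)| ≤ ε * Λ} with hG
  set Mb : (∀ i, ZMod (m i)) → (∀ i, ZMod (m i)) → Matrix Y Y E := fun j k u v =>
    ∑ h, Φ h u v * kron (fun i => N i (h i)) j k with hMb
  have hnear : ∀ j ∈ G, ∀ k ∈ G, Mb j k ≠ 0 →
      ∑ i, (if j i = k i then (0 : ℝ) else Real.log (Fintype.card (ZMod (m i)))) ≤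
        2 * (b * ε) * Λ := by
    intro j hj k hk hjk
    obtain ⟨hh, hhne⟩ : ∃ hh : ∀ i, ZMod (m i), kron (fun i => N i (hh i)) j k ≠ 0 := by
      by_contra hcon
      push Not at hcon
      apply hjk
      ext u v
      simp only [hMb, Matrix.zero_apply]
      exact Finset.sum_eq_zero fun h _ => by rw [hcon, mul_zero]
    have hpat : ∀ i, j i = k i ∨ (j i).val < (k i).val := fun i =>
      hN i _ _ _ (kron_ne hhne i)
    have h1 : ∀ i, (if j i = k i then (0 : ℝ) else Real.log (Fintype.card (ZMod (m i)))) ≤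
        b * (g i (k i) - g i (j i)) := by
      intro i
      have hmi : (0 : ℝ) < m i := lt_of_lt_of_le one_pos (hm1 i)
      have e1 : g i (k i) - g i (j i) = Real.log (m i) / m i *
          (((k i).val : ℝ) - ((j i).val : ℝ)) := by
        simp only [hg]; ring
      rw [e1]
      rcases hpat i with hi | hi
      · rw [if_pos hi, hi]
        simp
      · have hne' : j i ≠ k i := fun h0 => by rw [h0] at hi; exact lt_irrefl _ hi
        rw [if_neg hne', ZMod.card]
        have h2 : (1 : ℝ) ≤ ((k i).val : ℝ) - ((j i).val : ℝ) := by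
          have : (j i).val + 1 ≤ (k i).val := hi
          have h3 : (((j i).val : ℕ) : ℝ) + 1 ≤ (((k i).val : ℕ) : ℝ) := by exact_mod_cast this
          linarith
        have h4 : Real.log (m i) / m i * 1 ≤ Real.log (m i) / m i *
            (((k i).val : ℝ) - ((j i).val : ℝ)) :=
          mul_le_mul_of_nonneg_left h2 (div_nonneg (hl0 i) hmi.le)
        have h5 : Real.log (m i) = m i * (Real.log (m i) / m i * 1) := by field_simp
        have h6 : (m i : ℝ) * (Real.log (m i) / m i * 1) ≤ b * (Real.log (m i) / m i * 1) :=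
          mul_le_mul_of_nonneg_right (hb i) (by have := hl0 i; positivity)
        have h7 := mul_le_mul_of_nonneg_left h4 (show 0 ≤ b by linarith)
        linarith
    refine (Finset.sum_le_sum fun i _ => h1 i).trans ?_
    rw [← Finset.mul_sum, Finset.sum_sub_distrib]
    have hj' := (abs_le.mp (show |∑ i, g i (j i)| ≤ ε * Λ from hj)).1
    have hk' := (abs_le.mp (show |∑ i, g i (k i)| ≤ ε * Λ from hk)).2
    have h8 : ∑ i, g i (k i) - ∑ i, g i (j i) ≤ 2 * (ε * Λ) := by linarith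
    have h9 := mul_le_mul_of_nonneg_left h8 (show 0 ≤ b by linarith)
    linarith
  set t := Real.exp (((1 + K) * (2 * (b * ε)) + 2 * (1 / 2) ^ K) * Λ) with ht
  have hexpeq : Real.exp ((1 + K) * (2 * (b * ε) * Λ) + 2 * (1 / 2) ^ K *
      ∑ i, Real.log (Fintype.card (ZMod (m i)))) = t := by
    rw [ht]
    congr 1
    change _ + 2 * (1 / 2) ^ K * logSize (fun i => ZMod (m i)) = _
    rw [hls]
    ring
  have hMid := dec_blocks Mb G t _ r' s' (Real.exp_pos _).le hr' hs' htail ?_ ?_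
    (fun j k => h (fun hh => kron (fun i => N i (hh i)) j k))
  · rw [tri_eq m P P' N hC Φ]
    have h1 := dec_tensor_one (Y := Y) _ hs dP
    have h2 := dec_tensor_one (Y := Y) _ hs dP'
    have hts : 0 ≤ t * s' := mul_nonneg (Real.exp_pos _).le hs'
    refine (Dec.mul (mul_nonneg hs hts) hs (Dec.mul hs hts h1 hMid) h2).mono (le_of_eq ?_)
      (le_of_eq ?_)
    · have e1 : ε ^ 2 / (4 * (lb / Λ)) = ε ^ 2 / (4 * lb) * Λ := by field_simp
      rw [e1]
      ring
    · ring
  · intro j hj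
    rw [← hexpeq]
    refine le_trans ?_ (count_near j K (2 * (b * ε) * Λ))
    have : ({k | k ∈ G ∧ Mb j k ≠ 0} : Set (∀ i, ZMod (m i))) ⊆
        {y | ∑ i, (if j i = y i then (0 : ℝ) else Real.log (Fintype.card (ZMod (m i)))) ≤
          2 * (b * ε) * Λ} := fun k hk => hnear j hj k hk.1 hk.2
    exact_mod_cast Set.ncard_le_ncard this (Set.toFinite _)
  · intro k hk
    rw [← hexpeq]
    refine le_trans ?_ (count_near k K (2 * (b * ε) * Λ))
    have : ({j | j ∈ G ∧ Mb j k ≠ 0} : Set (∀ i, ZMod (m i))) ⊆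
        {x | ∑ i, (if k i = x i then (0 : ℝ) else Real.log (Fintype.card (ZMod (m i)))) ≤
          2 * (b * ε) * Λ} := by
      intro j hj
      have := hnear j hj.1 k hk hj.2
      simp only [Set.mem_setOf_eq]
      simp only [eq_comm] at this ⊢
      exact this
    exact_mod_cast Set.ncard_le_ncard this (Set.toFinite _)

end

end MP0775d3.Kron
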