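import Pool.Agent.Lib.MP_0775d3_lc.Kron.Combine
import Pool.Agent.Lib.MP_0775d3_lc.Kron.Tri
import Pool.Agent.Lib.MP_0775d3_lc.Kron.Descend

/-! Kernels of arbitrary products of cyclic groups of prime power order, over arbitrary fields. -/

set_option linter.unusedSectionVars false
set_option linter.unusedVariables false
set_option linter.deprecated false

namespace MP0775d3.Kron

open Matrix

section
variable {E : Type*} [Field E]
variable {ι : Type*} [Fintype ι] [DecidableEq ι] (m : ι → ℕ) [∀ i, NeZero (m i)]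
variable {Q : Type*} [Fintype Q] [DecidableEq Q]

theorem combine2 (P : Finset ℕ) (hP : ∀ p ∈ P, p.Prime) (hE : ∀ p ∈ P, (p : E) ≠ 0)
    (hroots : ∀ p ∈ P, ∃ ζ : E, IsPrimitiveRoot ζ p)
    (y : ℝ) (hy : 1 < y) (hPy : ∀ p ∈ P, (p : ℝ) ≤ y) (hB : 2 ≤ ∏ p ∈ P, p)
    (δ κ : ℝ) (N : ℕ) (hδ : 0 < δ) (hδ1 : δ ≤ 1) (hN : 128 ≤ δ * 2 ^ N)
    (hκ : κ = (δ / (256 * (N + 1))) ^ 2)
    (C1 : 8 * Real.log 2 * Real.log y ≤ κ * Real.log (∏ p ∈ P, p : ℕ))
    (C2 : 2 * Real.log 2 ≤ δ * Real.log (∏ p ∈ P, p : ℕ))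
    (lb : ℝ) (C3 : Real.log (∏ p ∈ P, p : ℕ) ≤ lb)
    (C4 : 4 * Real.log (∏ p ∈ P, p : ℕ) * Real.log y ≤ κ * lb)
    (hsmall : ∀ i, Real.log (m i) < lb → Tri E (m i))
    (ε : ℝ) (hε : 0 < ε) (hε1 : ε ≤ 1) (K : ℕ) (δ' : ℝ)
    (hδ' : (1 + K) * (2 * (Real.exp lb * ε)) + 2 * (1 / 2) ^ K = δ') (hδ'δ : δ' ≤ δ)
    (γ : ℝ) (hγ1 : γ ≤ κ / lb * δ) (hγ2 : γ + δ' ≤ κ / (2 * Real.log y) * δ)
    (hγ3 : γ ≤ ε ^ 2 / (4 * lb) * δ)
    (F : Q → Q → (∀ i, ZMod (m i)) → E) :
    Dec (Matrix.of fun u v : Q × (∀ i, ZMod (m i)) => F u.1 v.1 (u.2 - v.2))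
      (516 * (Fintype.card Q * Real.exp ((1 - γ) * ∑ i, Real.log (m i))))
      (Fintype.card Q * Real.exp (8 * δ * ∑ i, Real.log (m i))) := by
  classical
  set Λ := ∑ i, Real.log (m i : ℝ) with hΛ
  have hδ'0 : 0 ≤ δ' := by rw [← hδ']; positivity
  have hm1 : ∀ i, (1 : ℝ) ≤ m i := fun i => by
    exact_mod_cast Nat.one_le_iff_ne_zero.mpr (NeZero.ne (m i))
  have hlog0 : ∀ i, 0 ≤ Real.log (m i : ℝ) := fun i => Real.log_nonneg (hm1 i)
  have hΛ0 : 0 ≤ Λ := Finset.sum_nonneg fun i _ => hlog0 i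
  have hβ0 : 0 < Real.log (∏ p ∈ P, p : ℕ) := Real.log_pos (by exact_mod_cast hB)
  have hlb : 0 < lb := lt_of_lt_of_le hβ0 C3
  set sm : ι → Prop := fun i => Real.log (m i : ℝ) < lb with hsm
  set mS : {i // sm i} → ℕ := fun i => m i.1 with hmS
  set mL : {i // ¬ sm i} → ℕ := fun i => m i.1 with hmL
  have hsplit : ∑ i, Real.log (mS i : ℝ) + ∑ i, Real.log (mL i : ℝ) = Λ := by
    rw [hΛ]
    exact Fintype.sum_subtype_add_sum_subtype sm (fun i => Real.log (m i : ℝ))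
  have hS0 : 0 ≤ ∑ i, Real.log (mS i : ℝ) := Finset.sum_nonneg fun i _ => hlog0 _
  have hL0 : 0 ≤ ∑ i, Real.log (mL i : ℝ) := Finset.sum_nonneg fun i _ => hlog0 _
  set glue : (∀ i, ZMod (mS i)) → (∀ i, ZMod (mL i)) → ∀ i, ZMod (m i) := fun h h' i =>
    if hi : sm i then h ⟨i, hi⟩ else h' ⟨i, hi⟩ with hglue
  have hgl : ∀ x z : ∀ i, ZMod (m i),
      glue ((fun i : {i // sm i} => x i.1) - fun i : {i // sm i} => z i.1)
      ((fun i : {i // ¬ sm i} => x i.1) - fun i : {i // ¬ sm i} => z i.1) = x - z := by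
    intro x z
    funext i
    by_cases hi : sm i
    · simp only [hglue, dif_pos hi]
      rfl
    · simp only [hglue, dif_neg hi]
      rfl
  set ΛS := ∑ i, Real.log (mS i : ℝ) with hΛS
  set ΛL := ∑ i, Real.log (mL i : ℝ) with hΛL
  rcases le_or_gt ΛS (δ * Λ) with hcase | hcase
  · -- few small factors
    have key := large' (Q := Q × (∀ i, ZMod (mS i))) mL P hP hE hroots y hy hPy hB δ κ N hδ hδ1 hN
      hκ C1 C2 lb C3 C4 (fun i => not_lt.mp i.2) Λ (by linarith) hΛ0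
      (fun q q' k => F q.1 q'.1 (glue (q.2 - q'.2) k))
    set f : Q × (∀ i, ZMod (m i)) → (Q × (∀ i, ZMod (mS i))) × (∀ i, ZMod (mL i)) :=
      fun u => ((u.1, fun i => u.2 i.1), fun i => u.2 i.1) with hf
    have hfi : Function.Injective f := by
      intro u v huv
      simp only [hf, Prod.mk.injEq] at huv
      refine Prod.ext huv.1.1 ?_
      funext i
      by_cases hi : sm i
      · exact congrFun huv.1.2 ⟨i, hi⟩
      · exact congrFun huv.2 ⟨i, hi⟩
    have e : (Matrix.of fun u v : Q × (∀ i, ZMod (m i)) => F u.1 v.1 (u.2 - v.2)) =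
        (Matrix.of fun u v : (Q × (∀ i, ZMod (mS i))) × (∀ i, ZMod (mL i)) =>
          F u.1.1 v.1.1 (glue (u.1.2 - v.1.2) (u.2 - v.2))).submatrix f f := by
      ext u v
      rw [Matrix.submatrix_apply, Matrix.of_apply, Matrix.of_apply]
      show F u.1 v.1 (u.2 - v.2) = F u.1 v.1 _
      congr 1
      exact (hgl u.2 v.2).symm
    rw [e]
    refine (key.submatrix_inj f hfi).mono ?_ ?_
    · rw [Fintype.card_prod]
      push_cast
      rw [card_zmods]
      have e1 : (Fintype.card Q : ℝ) * Real.exp ΛS * Real.exp (ΛL -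
          κ / (2 * Real.log y) * (δ * Λ)) =
          Fintype.card Q * Real.exp (Λ - κ / (2 * Real.log y) * δ * Λ) := by
        rw [← hsplit, mul_assoc, ← Real.exp_add]
        congr 2
        ring
      rw [e1]
      have h2 : Real.exp (Λ - κ / (2 * Real.log y) * δ * Λ) ≤ Real.exp ((1 - γ) * Λ) := by
        apply Real.exp_le_exp.mpr
        have := mul_le_mul_of_nonneg_right hγ2 hΛ0
        nlinarith [mul_nonneg hδ'0 hΛ0]
      have h4 := mul_le_mul_of_nonneg_left h2 (Nat.cast_nonneg (Fintype.card Q) : (0 : ℝ) ≤ _)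
      have h5 : (0 : ℝ) ≤ Fintype.card Q * Real.exp ((1 - γ) * Λ) := by positivity
      linarith
    · rw [Fintype.card_prod]
      push_cast
      rw [card_zmods, mul_assoc, ← Real.exp_add]
      refine mul_le_mul_of_nonneg_left (Real.exp_le_exp.mpr ?_) (Nat.cast_nonneg _)
      have : 0 ≤ δ * Λ := by positivity
      linarith
  · -- many small factors
    choose P₁ P₂ NN hC hNN using fun i : {i // sm i} => hsmall i.1 i.2
    have hSpos : 0 < ΛS := lt_of_le_of_lt (by positivity) hcase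
    have dM := small_dec mS (fun _ => 1) P₁ lb hlb (fun i => i.2.le) δ κ N hδ hδ1 hN hκ Λ
      (by linarith) hΛ0
    have dI := small_dec mS (fun _ => 1) P₂ lb hlb (fun i => i.2.le) δ κ N hδ hδ1 hN hκ Λ
      (by linarith) hΛ0
    set Φ : (∀ i, ZMod (mS i)) → (Q × ∀ i, ZMod (mL i)) → (Q × ∀ i, ZMod (mL i)) → E :=
      fun h u v => F u.1 v.1 (glue h (u.2 - v.2)) with hΦ
    have hL : ∀ c : (∀ i, ZMod (mS i)) → E, Dec (fun u v => ∑ h, Φ h u v * c h)
        (256 * (Fintype.card Q * Real.exp (∑ i, Real.log (mL i : ℝ) -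
          κ / (2 * Real.log y) * (δ * Λ))))
        (Fintype.card Q * Real.exp (5 * (δ * Λ))) := fun c =>
      large' mL P hP hE hroots y hy hPy hB δ κ N hδ hδ1 hN hκ C1 C2 lb C3 C4
        (fun i => not_lt.mp i.2) Λ (by linarith) hΛ0
        (fun q q' k => ∑ h, F q q' (glue h k) * c h)
    have key := tri_dec mS P₁ P₂ NN hC hNN Φ (Real.exp_pos _).le (by positivity) (by positivity)
      dM dI hL (Real.exp lb) (fun i => by
        rw [← Real.log_le_iff_le_exp (lt_of_lt_of_le one_pos (hm1 i.1))]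
        exact i.2.le) lb hlb (fun i => i.2.le) hSpos ε hε hε1 K
    rw [hδ'] at key
    set f : Q × (∀ i, ZMod (m i)) → (∀ i, ZMod (mS i)) × (Q × ∀ i, ZMod (mL i)) :=
      fun u => (fun i => u.2 i.1, (u.1, fun i => u.2 i.1)) with hf
    have hfi : Function.Injective f := by
      intro u v huv
      simp only [hf, Prod.mk.injEq] at huv
      refine Prod.ext huv.2.1 ?_
      funext i
      by_cases hi : sm i
      · exact congrFun huv.1 ⟨i, hi⟩
      · exact congrFun huv.2.2 ⟨i, hi⟩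
    have e : (Matrix.of fun u v : Q × (∀ i, ZMod (m i)) => F u.1 v.1 (u.2 - v.2)) =
        (Matrix.of fun u v : (∀ i, ZMod (mS i)) × (Q × ∀ i, ZMod (mL i)) =>
          Φ (u.1 - v.1) u.2 v.2).submatrix f f := by
      ext u v
      rw [Matrix.submatrix_apply, Matrix.of_apply, Matrix.of_apply]
      show F u.1 v.1 (u.2 - v.2) = F u.1 v.1 _
      congr 1
      exact (hgl u.2 v.2).symm
    rw [e]
    refine (key.submatrix_inj f hfi).mono ?_ ?_
    · rw [Fintype.card_prod]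
      push_cast
      rw [card_zmods, card_zmods]
      have e1 : 2 * ((Fintype.card Q : ℝ) * Real.exp ΛL *
          (128 * Real.exp (-(κ / lb * (δ * Λ))) * Real.exp ΛS)) =
          256 * (Fintype.card Q * Real.exp (Λ - κ / lb * (δ * Λ))) := by
        rw [← hsplit, sub_eq_add_neg, Real.exp_add, Real.exp_add]
        ring
      have e2 : 2 * (2 * Real.exp (-(ε ^ 2 / (4 * lb) * ΛS)) * Real.exp ΛS *
          ((Fintype.card Q : ℝ) * Real.exp ΛL)) =
          4 * (Fintype.card Q * Real.exp (Λ - ε ^ 2 / (4 * lb) * ΛS)) := by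
        rw [← hsplit, sub_eq_add_neg, Real.exp_add, Real.exp_add]
        ring
      have e3 : Real.exp ΛS * Real.exp (δ' * ΛS) * (256 * ((Fintype.card Q : ℝ) *
          Real.exp (ΛL - κ / (2 * Real.log y) * (δ * Λ)))) =
          256 * (Fintype.card Q * Real.exp (Λ + δ' * ΛS - κ / (2 * Real.log y) * (δ * Λ))) := by
        rw [← hsplit, sub_eq_add_neg, sub_eq_add_neg, Real.exp_add, Real.exp_add, Real.exp_add,
          Real.exp_add]
        ring
      rw [e1, e2, e3]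
      have h1 : Real.exp (Λ - κ / lb * (δ * Λ)) ≤ Real.exp ((1 - γ) * Λ) := by
        apply Real.exp_le_exp.mpr
        have := mul_le_mul_of_nonneg_right hγ1 hΛ0
        nlinarith
      have h2 : Real.exp (Λ - ε ^ 2 / (4 * lb) * ΛS) ≤ Real.exp ((1 - γ) * Λ) := by
        apply Real.exp_le_exp.mpr
        have a1 := mul_le_mul_of_nonneg_right hγ3 hΛ0
        have a2 := mul_le_mul_of_nonneg_left hcase.le (show 0 ≤ ε ^ 2 / (4 * lb) by positivity)
        nlinarith
      have h3 : Real.exp (Λ + δ' * ΛS - κ / (2 * Real.log y) * (δ * Λ)) ≤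
          Real.exp ((1 - γ) * Λ) := by
        apply Real.exp_le_exp.mpr
        have a1 := mul_le_mul_of_nonneg_right hγ2 hΛ0
        have a2 := mul_le_mul_of_nonneg_left (show ΛS ≤ Λ by linarith) hδ'0
        nlinarith
      have k1 := mul_le_mul_of_nonneg_left h1 (Nat.cast_nonneg (Fintype.card Q) : (0 : ℝ) ≤ _)
      have k2 := mul_le_mul_of_nonneg_left h2 (Nat.cast_nonneg (Fintype.card Q) : (0 : ℝ) ≤ _)
      have k3 := mul_le_mul_of_nonneg_left h3 (Nat.cast_nonneg (Fintype.card Q) : (0 : ℝ) ≤ _)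
      linarith
    · have e1 : Real.exp (δ * Λ) * (Real.exp (δ' * ΛS) * ((Fintype.card Q : ℝ) *
          Real.exp (5 * (δ * Λ)))) * Real.exp (δ * Λ) =
          Fintype.card Q * Real.exp (7 * (δ * Λ) + δ' * ΛS) := by
        have : 7 * (δ * Λ) + δ' * ΛS = δ * Λ + (δ' * ΛS + (5 * (δ * Λ) + δ * Λ)) := by ring
        rw [this, Real.exp_add, Real.exp_add, Real.exp_add]
        ring
      rw [e1]
      refine mul_le_mul_of_nonneg_left (Real.exp_le_exp.mpr ?_) (Nat.cast_nonneg _)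
      have a2 : δ' * ΛS ≤ δ * Λ := mul_le_mul hδ'δ (by linarith) hS0 hδ.le
      linarith

end

section

universe u v w

/-- The main estimate for kernels, over an arbitrary field. -/
theorem ker_all (δ : ℝ) (hδ : 0 < δ) (hδ1 : δ ≤ 1) : ∃ γ : ℝ, 0 < γ ∧ ∃ C : ℝ, 0 < C ∧
    ∀ (F : Type u) [Field F] (ι : Type v) [Fintype ι] [DecidableEq ι] (p e : ι → ℕ)
      [∀ i, NeZero (p i ^ e i)], (∀ i, (p i).Prime) →
    ∀ (Q : Type w) [Fintype Q] [DecidableEq Q] (f : Q → Q → (∀ i, ZMod (p i ^ e i)) → F),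
    Dec (Matrix.of fun u v : Q × (∀ i, ZMod (p i ^ e i)) => f u.1 v.1 (u.2 - v.2))
      (C * (Fintype.card Q * Real.exp ((1 - γ) * ∑ i, Real.log (p i ^ e i : ℕ))))
      (Fintype.card Q * Real.exp (8 * δ * ∑ i, Real.log (p i ^ e i : ℕ))) := by
  obtain ⟨N, hN⟩ : ∃ N : ℕ, 128 / δ < 2 ^ N := pow_unbounded_of_one_lt _ (by norm_num)
  have hN' : 128 ≤ δ * 2 ^ N := by
    rw [div_lt_iff₀ hδ] at hN
    linarith
  set κ : ℝ := (δ / (256 * (N + 1))) ^ 2 with hκ
  have hκ0 : 0 < κ := by positivity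
  obtain ⟨y, hy2, T1, T2, T3⟩ := exists_consts δ hδ κ hκ0
  have hyR : (2 : ℝ) ≤ y := by exact_mod_cast hy2
  have hly : 0 < Real.log (y : ℝ) := Real.log_pos (by linarith)
  set θ := Real.log (primorial y) with hθ
  have hθ0 : 0 < θ := by linarith
  set lb := max θ (4 * θ * Real.log y / κ) with hlb
  have hlb0 : 0 < lb := lt_of_lt_of_le hθ0 (le_max_left _ _)
  -- parameters for the small factors
  set δ₀ : ℝ := min δ (κ / (2 * Real.log y) * δ / 2) with hδ₀
  have hδ₀0 : 0 < δ₀ := by positivity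
  obtain ⟨K, hK⟩ : ∃ K : ℕ, 4 / δ₀ < 2 ^ K := pow_unbounded_of_one_lt _ (by norm_num)
  have hK' : 2 * (1 / 2 : ℝ) ^ K ≤ δ₀ / 2 := by
    rw [div_lt_iff₀ hδ₀0] at hK
    have h5 : (0 : ℝ) < 2 ^ K := by positivity
    have h6 : ((1 : ℝ) / 2) ^ K = 1 / 2 ^ K := by rw [_root_.one_div_pow]
    rw [h6]
    have : (2 : ℝ) * (1 / 2 ^ K) = 2 / 2 ^ K := by ring
    rw [this, div_le_div_iff₀ h5 (by norm_num)]
    linarith
  set ε : ℝ := min 1 (δ₀ / (4 * (1 + K) * Real.exp lb)) with hε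
  have hε0 : 0 < ε := by
    have : 0 < Real.exp lb := Real.exp_pos _
    positivity
  have hε1 : ε ≤ 1 := min_le_left _ _
  have hε2 : (1 + K) * (2 * (Real.exp lb * ε)) ≤ δ₀ / 2 := by
    have h1 : ε ≤ δ₀ / (4 * (1 + K) * Real.exp lb) := min_le_right _ _
    have hK1 : (0 : ℝ) < 1 + K := by positivity
    have h2 : 0 < Real.exp lb := Real.exp_pos _
    rw [le_div_iff₀ (by positivity)] at h1
    nlinarith
  set δ' : ℝ := (1 + K) * (2 * (Real.exp lb * ε)) + 2 * (1 / 2) ^ K with hδ'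
  have hδ'1 : δ' ≤ δ₀ := by linarith
  have hδ'2 : δ' ≤ δ := hδ'1.trans (min_le_left _ _)
  have hδ'3 : δ' ≤ κ / (2 * Real.log y) * δ / 2 := hδ'1.trans (min_le_right _ _)
  set b : ℕ := max ⌈Real.exp lb⌉₊ y with hb
  refine ⟨min (κ / lb * δ) (min (κ / (2 * Real.log y) * δ / 2) (ε ^ 2 / (4 * lb) * δ)),
    by positivity, b.factorial * 516, by positivity, ?_⟩
  intro F _ ι _ _ p e _ hp Q _ _ f
  obtain ⟨E, _, _, _, hdeg, hroots⟩ := exists_ext F b
  have hFE : ∀ q : ℕ, (q : E) ≠ 0 → (q : F) ≠ 0 := by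
    intro q hq h0
    apply hq
    rw [← map_natCast (algebraMap F E) q, h0, map_zero]
  have hle : (∏ p ∈ gp E y, p : ℕ) ≤ primorial y := gp_prod_le E y
  have hge := gp_prod_ge E y (by omega)
  have hBpos : 0 < ∏ p ∈ gp E y, p := Finset.prod_pos fun p hp => (gp_prime E y p hp).pos
  have hBR : (0 : ℝ) < ((∏ p ∈ gp E y, p : ℕ) : ℝ) := by exact_mod_cast hBpos
  have hup : Real.log (∏ p ∈ gp E y, p : ℕ) ≤ θ :=
    Real.log_le_log hBR (by exact_mod_cast hle)
  have hlo : θ - Real.log y ≤ Real.log (∏ p ∈ gp E y, p : ℕ) := by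
    have h1 : θ ≤ Real.log (((∏ p ∈ gp E y, p : ℕ) : ℝ) * y) := by
      refine Real.log_le_log (by exact_mod_cast primorial_pos _) ?_
      exact_mod_cast hge
    rw [Real.log_mul hBR.ne' (by linarith)] at h1
    linarith
  have hB2 : 2 ≤ ∏ p ∈ gp E y, p := by
    by_contra hcon
    have h1 : ∏ p ∈ gp E y, p = 1 := by omega
    rw [h1, Nat.cast_one, Real.log_one] at hlo
    linarith
  have hsmall : ∀ i, Real.log ((p i ^ e i : ℕ) : ℝ) < lb → p i ^ e i ≤ b := by
    intro i hi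
    have h0 : (0 : ℝ) < ((p i ^ e i : ℕ) : ℝ) := by
      exact_mod_cast Nat.pos_of_ne_zero (NeZero.ne (p i ^ e i))
    have h1 : ((p i ^ e i : ℕ) : ℝ) ≤ Real.exp lb := by
      rw [← Real.exp_log h0]
      exact Real.exp_le_exp.mpr hi.le
    have h2 : ((p i ^ e i : ℕ) : ℝ) ≤ (⌈Real.exp lb⌉₊ : ℝ) := h1.trans (Nat.le_ceil _)
    exact (by exact_mod_cast h2 : p i ^ e i ≤ ⌈Real.exp lb⌉₊).trans (le_max_left _ _)
  have htri : ∀ i, Real.log ((p i ^ e i : ℕ) : ℝ) < lb → Tri E (p i ^ e i) := by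
    intro i hi
    by_cases h0 : ((p i ^ e i : ℕ) : E) = 0
    · have h1 : (p i : E) = 0 := by
        push_cast at h0
        exact (pow_eq_zero_iff (by
          intro h2
          rw [h2, pow_zero] at h0
          exact one_ne_zero h0)).mp h0
      exact tri_of_char _ (p i) (e i) (hp i) rfl h1
    · obtain ⟨ζ, hζ⟩ := hroots _ (hsmall i hi) (hFE _ h0)
      exact tri_of_root _ ζ hζ h0
  have key := combine2 (E := E) (fun i => p i ^ e i) (gp E y) (gp_prime E y) (gp_ne E y)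
    (fun q hq => hroots q ((gp_le E y q hq).trans (le_max_right _ _)) (hFE _ (gp_ne E y q hq)))
    y (by linarith) (fun q hq => by exact_mod_cast gp_le E y q hq) hB2 δ κ N hδ hδ1
    hN' hκ (T1.trans (mul_le_mul_of_nonneg_left hlo hκ0.le))
    (T2.trans (mul_le_mul_of_nonneg_left hlo hδ.le)) lb (hup.trans (le_max_left _ _)) ?_
    htri ε hε0 hε1 K δ' rfl hδ'2
    (min (κ / lb * δ) (min (κ / (2 * Real.log y) * δ / 2) (ε ^ 2 / (4 * lb) * δ)))
    (min_le_left _ _) ?_ ((min_le_right _ _).trans (min_le_right _ _))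
    (fun q q' k => algebraMap F E (f q q' k))
  · have h1 := descend (E := E) (Matrix.of fun u v : Q × (∀ i, ZMod (p i ^ e i)) =>
      f u.1 v.1 (u.2 - v.2)) key
    refine h1.mono ?_ le_rfl
    rw [mul_assoc (b.factorial : ℝ)]
    refine mul_le_mul_of_nonneg_right ?_ (by positivity)
    exact_mod_cast hdeg
  · have h1 : 4 * Real.log (∏ p ∈ gp E y, p : ℕ) * Real.log y ≤ 4 * θ * Real.log y :=
      mul_le_mul_of_nonneg_right (by linarith) hly.le
    have h2 : 4 * θ * Real.log y = κ * (4 * θ * Real.log y / κ) := by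
      field_simp
    have h3 : κ * (4 * θ * Real.log y / κ) ≤ κ * lb :=
      mul_le_mul_of_nonneg_left (le_max_right _ _) hκ0.le
    linarith
  · have h1 : min (κ / lb * δ) (min (κ / (2 * Real.log y) * δ / 2) (ε ^ 2 / (4 * lb) * δ)) ≤
        κ / (2 * Real.log y) * δ / 2 := (min_le_right _ _).trans (min_le_left _ _)
    linarith

end

end MP0775d3.Kron
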