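import Pool.Agent.Lib.MP_0775d3_lc.Kron.Combine
import Pool.Agent.Lib.MP_0775d3_lc.Kron.Asym

/-! Choice of the constants. -/

set_option linter.unusedSectionVars false
set_option linter.unusedVariables false
set_option linter.deprecated false

namespace MP0775d3.Kron

open Matrix Filter

section

/-- The primes up to `y` that are not zero in `E`. -/
noncomputable def gp (E : Type*) [Field E] (y : ℕ) : Finset ℕ :=
  open Classical in (Nat.primesLE y).filter (fun p : ℕ => (p : E) ≠ 0)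

theorem gp_prime (E : Type*) [Field E] (y : ℕ) : ∀ p ∈ gp E y, p.Prime := by
  intro p hp
  classical
  rw [gp, Finset.mem_filter, Nat.mem_primesLE] at hp
  exact hp.1.2

theorem gp_le (E : Type*) [Field E] (y : ℕ) : ∀ p ∈ gp E y, p ≤ y := by
  intro p hp
  classical
  rw [gp, Finset.mem_filter, Nat.mem_primesLE] at hp
  exact hp.1.1

theorem gp_ne (E : Type*) [Field E] (y : ℕ) : ∀ p ∈ gp E y, (p : E) ≠ 0 := by
  intro p hp
  classical
  rw [gp, Finset.mem_filter] at hp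
  exact hp.2

theorem gp_prod_le (E : Type*) [Field E] (y : ℕ) : ∏ p ∈ gp E y, p ≤ primorial y := by
  classical
  rw [primorial_eq_prod_primesLE]
  refine Finset.prod_le_prod_of_subset_of_one_le' (Finset.filter_subset _ _) fun p hp _ => ?_
  rw [Nat.mem_primesLE] at hp
  exact hp.2.pos

theorem gp_prod_ge (E : Type*) [Field E] (y : ℕ) (hy : 1 ≤ y) :
    primorial y ≤ (∏ p ∈ gp E y, p) * y := by
  classical
  rw [primorial_eq_prod_primesLE, gp,
    ← Finset.prod_filter_mul_prod_filter_not (Nat.primesLE y) (fun p : ℕ => (p : E) ≠ 0)]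
  refine Nat.mul_le_mul_left _ ?_
  have hc : ∀ p ∈ (Nat.primesLE y).filter (fun p : ℕ => ¬ (p : E) ≠ 0), p = ringChar E := by
    intro p hp
    rw [Finset.mem_filter, Nat.mem_primesLE, not_not] at hp
    have h1 : ringChar E ∣ p := (ringChar.spec E p).mp hp.2
    rcases (Nat.dvd_prime hp.1.2).mp h1 with h2 | h2
    · have h3 : ((1 : ℕ) : E) = 0 := (ringChar.spec E 1).mpr (by rw [h2])
      rw [Nat.cast_one] at h3
      exact absurd h3 one_ne_zero
    · exact h2.symm
  have hcard : ((Nat.primesLE y).filter (fun p : ℕ => ¬ (p : E) ≠ 0)).card ≤ 1 := by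
    rw [Finset.card_le_one]
    intro a ha b hb
    rw [hc a ha, hc b hb]
  rcases Nat.eq_zero_or_pos ((Nat.primesLE y).filter (fun p : ℕ => ¬ (p : E) ≠ 0)).card with h0 | h0
  · rw [Finset.card_eq_zero] at h0
    rw [h0, Finset.prod_empty]
    exact hy
  · obtain ⟨p, hp⟩ := Finset.card_eq_one.mp (le_antisymm hcard h0)
    rw [hp, Finset.prod_singleton]
    have : p ∈ (Nat.primesLE y).filter (fun p : ℕ => ¬ (p : E) ≠ 0) := by
      rw [hp]; exact Finset.mem_singleton_self p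
    rw [Finset.mem_filter, Nat.mem_primesLE] at this
    exact this.1.1

theorem exists_consts (δ : ℝ) (hδ : 0 < δ) (κ : ℝ) (hκ : 0 < κ) : ∃ y : ℕ, 2 ≤ y ∧
    8 * Real.log 2 * Real.log y ≤ κ * (Real.log (primorial y) - Real.log y) ∧
    2 * Real.log 2 ≤ δ * (Real.log (primorial y) - Real.log y) ∧
    0 < Real.log (primorial y) - Real.log y := by
  have h1 : ∀ᶠ y : ℕ in atTop, Real.log (y : ℝ) ≤ (1 / 4) * (y : ℝ) :=
    tendsto_natCast_atTop_atTop.eventually (log_le_eps _ (by norm_num))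
  have h2 : ∀ᶠ y : ℕ in atTop, Real.log (y : ℝ) ≤ (κ / 32) * (y : ℝ) :=
    tendsto_natCast_atTop_atTop.eventually (log_le_eps _ (by positivity))
  have h3 : ∀ᶠ y : ℕ in atTop, 8 / δ ≤ (y : ℝ) :=
    tendsto_natCast_atTop_atTop.eventually_ge_atTop _
  obtain ⟨y, g1, g2, g3, g4, g5⟩ := (h1.and (h2.and (h3.and (theta_ev.and
    (eventually_ge_atTop 2))))).exists
  have hy2 : (2 : ℝ) ≤ y := by exact_mod_cast g5
  have hl2 := Real.log_two_lt_d9
  have hl20 := Real.log_two_gt_d9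
  have hly : 0 ≤ Real.log (y : ℝ) := Real.log_nonneg (by linarith)
  have hd : (y : ℝ) / 4 ≤ Real.log (primorial y) - Real.log y := by linarith
  refine ⟨y, g5, ?_, ?_, by linarith⟩
  · have a1 : κ * ((y : ℝ) / 4) ≤ κ * (Real.log (primorial y) - Real.log y) :=
      mul_le_mul_of_nonneg_left hd hκ.le
    nlinarith
  · have a1 : δ * ((y : ℝ) / 4) ≤ δ * (Real.log (primorial y) - Real.log y) :=
      mul_le_mul_of_nonneg_left hd hδ.le
    have a2 : 8 ≤ δ * y := by
      rw [div_le_iff₀ hδ] at g3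
      linarith
    linarith

universe u v w

theorem ker_dec (δ : ℝ) (hδ : 0 < δ) (hδ1 : δ ≤ 1) : ∃ γ : ℝ, 0 < γ ∧ ∃ b : ℕ,
    ∀ (E : Type u) [Field E], (∀ q : ℕ, q ≤ b → (q : E) ≠ 0 → ∃ ζ : E, IsPrimitiveRoot ζ q) →
    ∀ (ι : Type v) [Fintype ι] [DecidableEq ι] (m : ι → ℕ) [∀ i, NeZero (m i)],
      (∀ i, m i ≤ b → (m i : E) ≠ 0) →
    ∀ (Q : Type w) [Fintype Q] [DecidableEq Q] (F : Q → Q → (∀ i, ZMod (m i)) → E),
    Dec (Matrix.of fun u v : Q × (∀ i, ZMod (m i)) => F u.1 v.1 (u.2 - v.2))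
      (512 * (Fintype.card Q * Real.exp ((1 - γ) * ∑ i, Real.log (m i))))
      (Fintype.card Q * Real.exp (7 * δ * ∑ i, Real.log (m i))) := by
  obtain ⟨N, hN⟩ : ∃ N : ℕ, 128 / δ < 2 ^ N := pow_unbounded_of_one_lt _ (by norm_num)
  have hN' : 128 ≤ δ * 2 ^ N := by
    rw [div_lt_iff₀ hδ] at hN
    linarith
  set κ : ℝ := (δ / (256 * (N + 1))) ^ 2 with hκ
  have hκ0 : 0 < κ := by positivity
  obtain ⟨y, hy2, T1, T2, T3⟩ := exists_consts δ hδ κ hκ0
  have hyR : (2 : ℝ) ≤ y := by exact_mod_cast hy2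
  have hly : 0 < Real.log (y : ℝ) := Real.log_pos (by linarith)
  set θ := Real.log (primorial y) with hθ
  have hθ0 : 0 < θ := by linarith
  set lb := max θ (4 * θ * Real.log y / κ) with hlb
  have hlb0 : 0 < lb := lt_of_lt_of_le hθ0 (le_max_left _ _)
  refine ⟨min (κ / lb * δ) (κ / (2 * Real.log y) * δ), by positivity,
    max ⌈Real.exp lb⌉₊ y, ?_⟩
  intro E _ hroots ι _ _ m _ hgood Q _ _ F
  have hle : (∏ p ∈ gp E y, p : ℕ) ≤ primorial y := gp_prod_le E y
  have hge := gp_prod_ge E y (by omega)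
  have hBpos : 0 < ∏ p ∈ gp E y, p := Finset.prod_pos fun p hp => (gp_prime E y p hp).pos
  have hBR : (0 : ℝ) < ((∏ p ∈ gp E y, p : ℕ) : ℝ) := by exact_mod_cast hBpos
  have hup : Real.log (∏ p ∈ gp E y, p : ℕ) ≤ θ :=
    Real.log_le_log hBR (by exact_mod_cast hle)
  have hlo : θ - Real.log y ≤ Real.log (∏ p ∈ gp E y, p : ℕ) := by
    have h1 : θ ≤ Real.log (((∏ p ∈ gp E y, p : ℕ) : ℝ) * y) := by
      refine Real.log_le_log (by exact_mod_cast primorial_pos _) ?_
      exact_mod_cast hge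
    rw [Real.log_mul hBR.ne' (by linarith)] at h1
    linarith
  have hB2 : 2 ≤ ∏ p ∈ gp E y, p := by
    by_contra hcon
    have h1 : ∏ p ∈ gp E y, p = 1 := by omega
    rw [h1, Nat.cast_one, Real.log_one] at hlo
    linarith
  have hsmall : ∀ i, Real.log (m i : ℝ) < lb → m i ≤ max ⌈Real.exp lb⌉₊ y := by
    intro i hi
    have h0 : (0 : ℝ) < m i := by exact_mod_cast Nat.pos_of_ne_zero (NeZero.ne (m i))
    have h1 : (m i : ℝ) ≤ Real.exp lb := by
      rw [← Real.exp_log h0]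
      exact Real.exp_le_exp.mpr hi.le
    have h2 : (m i : ℝ) ≤ (⌈Real.exp lb⌉₊ : ℝ) := h1.trans (Nat.le_ceil _)
    exact (by exact_mod_cast h2 : m i ≤ ⌈Real.exp lb⌉₊).trans (le_max_left _ _)
  refine combine m (gp E y) (gp_prime E y) (gp_ne E y) ?_ y (by linarith) ?_ hB2 δ κ N hδ hδ1
    hN' hκ ?_ ?_ lb (hup.trans (le_max_left _ _)) ?_ (fun i hi => hgood i (hsmall i hi))
    (fun i hi => hroots _ (hsmall i hi) (hgood i (hsmall i hi))) _ (min_le_left _ _)
    (min_le_right _ _) F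
  · intro p hp
    exact hroots p ((gp_le E y p hp).trans (le_max_right _ _)) (gp_ne E y p hp)
  · intro p hp
    exact_mod_cast gp_le E y p hp
  · exact T1.trans (mul_le_mul_of_nonneg_left hlo hκ0.le)
  · exact T2.trans (mul_le_mul_of_nonneg_left hlo hδ.le)
  · have h1 : 4 * Real.log (∏ p ∈ gp E y, p : ℕ) * Real.log y ≤ 4 * θ * Real.log y :=
      mul_le_mul_of_nonneg_right (by linarith) hly.le
    have h2 : 4 * θ * Real.log y = κ * (4 * θ * Real.log y / κ) := by
      field_simp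
    have h3 : κ * (4 * θ * Real.log y / κ) ≤ κ * lb :=
      mul_le_mul_of_nonneg_left (le_max_right _ _) hκ0.le
    linarith

end

end MP0775d3.Kron
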