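import Mathlib

/-! Definitions: sparse matrices and composed matrices. -/

namespace MP0775d3.Kron

/-- Each row and each column of `S` has at most `s` nonzero entries. -/
def Sparse {F : Type*} [Field F] {X : Type*} (S : Matrix X X F) (s : ℝ) : Prop :=
  (∀ x, (({y | S x y ≠ 0} : Set X).ncard : ℝ) ≤ s) ∧
    (∀ y, (({x | S x y ≠ 0} : Set X).ncard : ℝ) ≤ s)

/-- For bijections `e`, `e'` of `X` with a product of finite sets `I i` of size at most `|X| ^ η`,
`A` is a combination with arbitrary coefficients `Φ T` of the `2 ^ |ι|` Kronecker products in which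
the `i`-th factor is an arbitrary matrix `M i` (if `T i` is true) or an arbitrary matrix
`a i * (b i)ᵀ` of rank at most one (if `T i` is false). -/
def Composed {F : Type*} [Field F] {X : Type*} [Fintype X] (η : ℝ) (A : Matrix X X F) : Prop :=
  ∃ (ι : Type) (_ : Fintype ι) (_ : DecidableEq ι) (I : ι → Type) (_ : ∀ i, Fintype (I i))
    (e e' : X ≃ ∀ i, I i) (M : ∀ i, Matrix (I i) (I i) F) (a b : ∀ i, I i → F)
    (Φ : (ι → Bool) → F),
    (∀ i, (Fintype.card (I i) : ℝ) ≤ (Fintype.card X : ℝ) ^ η) ∧
    ∀ x y, A x y = ∑ T : ι → Bool, Φ T *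
      ∏ i, (if T i then M i (e x i) (e' y i) else a i (e x i) * b i (e' y i))

end MP0775d3.Kron
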