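import Pool.Agent.Lib.MP_0775d3_lc.Kron.Pow

/-! Discrete Fourier transforms are Toeplitz up to diagonal matrices; one step of the recursion. -/

set_option linter.unusedSectionVars false
set_option linter.unusedVariables false
set_option linter.deprecated false

namespace MP0775d3.Kron

open Matrix

section

/-- Toeplitz matrices. -/
def Toep (n : ℕ) (t : ℤ → ℂ) : Matrix (Fin n) (Fin n) ℂ :=
  Matrix.of fun i j => t ((i : ℤ) - (j : ℤ))

theorem chirp_dec (m : ℕ) [NeZero m] {r s : ℝ} (hs : 0 ≤ s) (h : ∀ t, Dec (Toep m t) r s)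
    (c : ℂ) (ε : ℤ) :
    Dec (fun x ξ : ZMod m => c * ZMod.stdAddChar ((ε : ZMod m) * (x * ξ))) r s := by
  set u : ℤ → ℂ := fun k => c * Complex.exp (-(Real.pi * Complex.I * ε * (k : ℂ) ^ 2 / m)) with hu
  set D : ZMod m → ℂ := fun x => Complex.exp (Real.pi * Complex.I * ε * (x.val : ℂ) ^ 2 / m)
    with hD
  have hmC : (m : ℂ) ≠ 0 := by exact_mod_cast NeZero.ne m
  set f : ZMod m → Fin m := fun x => ⟨x.val, ZMod.val_lt x⟩ with hf
  have hfi : Function.Injective f := by
    intro x y hxy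
    exact ZMod.val_injective m (Fin.mk.inj hxy)
  have key : (fun x ξ : ZMod m => c * ZMod.stdAddChar ((ε : ZMod m) * (x * ξ)) :
      Matrix (ZMod m) (ZMod m) ℂ) =
      Matrix.diagonal D * (Toep m u).submatrix f f * Matrix.diagonal D := by
    ext x ξ
    rw [Matrix.mul_diagonal, Matrix.diagonal_mul, Matrix.submatrix_apply]
    show c * ZMod.stdAddChar ((ε : ZMod m) * (x * ξ)) =
      D x * u (((f x : ℕ) : ℤ) - ((f ξ : ℕ) : ℤ)) * D ξ
    have e1 : ((ε : ZMod m) * (x * ξ)) = ((ε * ((x.val : ℤ) * (ξ.val : ℤ)) : ℤ) : ZMod m) := by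
      push_cast
      rw [ZMod.natCast_zmod_val, ZMod.natCast_zmod_val]
    rw [e1, ZMod.stdAddChar_coe]
    simp only [hD, hu, hf]
    have e2 : ∀ a b d : ℂ, Complex.exp a * (c * Complex.exp b) * Complex.exp d =
        c * Complex.exp (a + b + d) := by
      intro a b d
      rw [Complex.exp_add, Complex.exp_add]
      ring
    rw [e2]
    congr 2
    push_cast
    field_simp
    ring
  rw [key]
  have h1 := ((h u).submatrix_inj f hfi)
  have h2 := Dec.mul (by rw [one_mul]; exact hs) zero_le_one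
    (Dec.mul zero_le_one hs (isMono_diagonal D).dec h1) (isMono_diagonal D).dec
  refine h2.mono (le_of_eq ?_) (le_of_eq ?_)
  · ring
  · ring

variable {ι : Type*} [Fintype ι] [DecidableEq ι] (m : ι → ℕ) [∀ i, NeZero (m i)]

theorem dftM_dec {r s : ℝ} (i : ι) (hs : 0 ≤ s) (h : ∀ t, Dec (Toep (m i) t) r s) :
    Dec (dftM m i) r s := by
  have := chirp_dec (m i) hs h 1 1
  refine (congrArg (fun A => Dec A r s) ?_).mp this
  ext x ξ
  simp [dftM]

theorem dftI_dec {r s : ℝ} (i : ι) (hs : 0 ≤ s) (h : ∀ t, Dec (Toep (m i) t) r s) :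
    Dec (dftI m i) r s := by
  have := chirp_dec (m i) hs h (1 / (m i : ℂ)) (-1)
  refine (congrArg (fun A => Dec A r s) ?_).mp this
  ext x ξ
  simp [dftI]
  ring

/-- Toeplitz matrices are submatrices of circulant matrices of a product of cyclic groups of
prime order. -/
theorem toep_eq_sub (y n : ℕ) (hn : 2 * n ≤ primorial y) (t : ℤ → ℂ) :
    ∃ (g : (∀ p : PI y, ZMod p.1) → ℂ) (f : Fin n → ∀ p : PI y, ZMod p.1),
      Function.Injective f ∧
      Toep n t = (Matrix.of fun x z => g (x - z) : Matrix (∀ p : PI y, ZMod p.1)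
        (∀ p : PI y, ZMod p.1) ℂ).submatrix f f := by
  classical
  set ph : ℤ → (∀ p : PI y, ZMod p.1) := fun k p => (k : ZMod p.1) with hph
  have hinj : ∀ k k' : ℤ, |k| < n → |k'| < n → ph k = ph k' → k = k' := by
    intro k k' hk hk' h
    have h1 : primorial y ∣ (k - k').natAbs := by
      rw [primorial_eq_prod_primesLE]
      refine Finset.prod_primes_dvd _ (fun p hp => ?_) (fun p hp => ?_)
      · exact Nat.prime_iff.mp (PI.prime ⟨p, hp⟩)
      · have h2 := congrFun h ⟨p, hp⟩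
        simp only [hph] at h2
        have h3 : (((k - k' : ℤ)) : ZMod p) = 0 := by
          push_cast
          rw [h2, sub_self]
        rw [ZMod.intCast_zmod_eq_zero_iff_dvd] at h3
        exact Int.natCast_dvd.mp h3
    have h4 : (k - k').natAbs < 2 * n := by
      have h5 := abs_lt.mp hk
      have h6 := abs_lt.mp hk'
      omega
    have h7 : (k - k').natAbs = 0 := by
      by_contra h8
      have := Nat.le_of_dvd (Nat.pos_of_ne_zero h8) h1
      omega
    omega
  let g : (∀ p : PI y, ZMod p.1) → ℂ := fun h =>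
    if H : ∃ k : ℤ, |k| < n ∧ ph k = h then t H.choose else 0
  have hg : ∀ k : ℤ, |k| < n → g (ph k) = t k := by
    intro k hk
    have H : ∃ k' : ℤ, |k'| < n ∧ ph k' = ph k := ⟨k, hk, rfl⟩
    show (if H : ∃ k' : ℤ, |k'| < n ∧ ph k' = ph k then t H.choose else 0) = t k
    rw [dif_pos H]
    congr 1
    exact hinj _ _ H.choose_spec.1 hk H.choose_spec.2
  refine ⟨g, fun i => ph (i : ℤ), ?_, ?_⟩
  · intro i j hij
    have h1 := i.isLt
    have h2 := j.isLt
    have := hinj (i : ℤ) (j : ℤ) (by rw [abs_lt]; constructor <;> omega)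
      (by rw [abs_lt]; constructor <;> omega) hij
    exact Fin.ext (by exact_mod_cast this)
  · ext i j
    rw [Matrix.submatrix_apply]
    show t ((i : ℤ) - (j : ℤ)) = g (ph i - ph j)
    have e : ph (i : ℤ) - ph (j : ℤ) = ph ((i : ℤ) - (j : ℤ)) := by
      funext p
      simp [hph]
    rw [e, hg]
    have h1 := i.isLt
    have h2 := j.isLt
    rw [abs_lt]
    constructor <;> omega

/-- One step of the recursion. -/
theorem step_finite (y n : ℕ) (hn : 2 * n ≤ primorial y) (ρ σ : PI y → ℝ)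
    (hσ : ∀ p, 0 ≤ σ p) (h : ∀ p : PI y, ∀ t, Dec (Toep p.1 t) (ρ p) (σ p))
    (H : Finset (PI y) → Prop) (r s : ℝ) (hr0 : 0 ≤ r) (hs0 : 0 ≤ s)
    (hr : ∀ A, H A → (∏ p ∈ A, ρ p) * ∏ p ∈ Aᶜ, (p.1 : ℝ) ≤ r)
    (hs : ∀ A, ¬ H A → (∏ p ∈ A, (p.1 : ℝ)) * ∏ p ∈ Aᶜ, σ p ≤ s) (t : ℤ → ℂ) :
    Dec (Toep n t) (2 * (2 ^ Fintype.card (PI y) * r)) ((2 ^ Fintype.card (PI y) * s) ^ 2) := by
  classical
  obtain ⟨g, f, hf, he⟩ := toep_eq_sub y n hn t
  rw [he]
  refine Dec.submatrix_inj ?_ f hf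
  rw [circ_eq (fun p : PI y => p.1) g]
  have hc : ∀ p : PI y, (Fintype.card (ZMod p.1) : ℝ) = p.1 := fun p => by rw [ZMod.card]
  have hM : Dec (kron (dftM (fun p : PI y => p.1))) (2 ^ Fintype.card (PI y) * r)
      (2 ^ Fintype.card (PI y) * s) := by
    choose R S h1 h2 h3 using fun p => dftM_dec (fun p : PI y => p.1) p (hσ p) (h p)
    refine dec_pow _ R S h1 ρ σ h2 h3 hσ H r s hr0 hs0 ?_ ?_
    · intro A hA
      simp only [hc]
      exact hr A hA
    · intro A hA
      simp only [hc]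
      exact hs A hA
  have hI : Dec (kron (dftI (fun p : PI y => p.1))) (2 ^ Fintype.card (PI y) * r)
      (2 ^ Fintype.card (PI y) * s) := by
    choose R S h1 h2 h3 using fun p => dftI_dec (fun p : PI y => p.1) p (hσ p) (h p)
    refine dec_pow _ R S h1 ρ σ h2 h3 hσ H r s hr0 hs0 ?_ ?_
    · intro A hA
      simp only [hc]
      exact hr A hA
    · intro A hA
      simp only [hc]
      exact hs A hA
  have hs' : (0 : ℝ) ≤ 2 ^ Fintype.card (PI y) * s := by positivity
  have h4 := Dec.mul (by rw [mul_one]; exact hs') hs'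
    (Dec.mul hs' zero_le_one hM (isMono_diagonal
      (fun ξ : ∀ p : PI y, ZMod p.1 => ∑ h, g h * ∏ i, ZMod.stdAddChar (-(ξ i * h i)))).dec) hI
  refine h4.mono (le_of_eq ?_) (le_of_eq ?_)
  · ring
  · ring

end

end MP0775d3.Kron
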