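import Pool.Agent.Lib.MP_0775d3_lc.Kron.Fib
import Pool.Agent.Lib.MP_0775d3_lc.Kron.Circ

/-! Kernels of products of large cyclic groups, by expansion in a fixed base. -/

set_option linter.unusedSectionVars false
set_option linter.unusedVariables false
set_option linter.deprecated false

namespace MP0775d3.Kron

open Matrix

section
variable {ι : Type*} [Fintype ι] [DecidableEq ι] (m a : ι → ℕ) [∀ i, NeZero (m i)] (B : ℕ)

/-- The digits in base `B`. -/
def dig (hm : ∀ i, m i ≤ B ^ a i) (x : ∀ i, ZMod (m i)) (d : Σ i, Fin (a i)) : Fin B :=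
  finFunctionFinEquiv.symm ⟨(x d.1).val, lt_of_lt_of_le (ZMod.val_lt _) (hm d.1)⟩ d.2

theorem dig_sum (hm : ∀ i, m i ≤ B ^ a i) (x : ∀ i, ZMod (m i)) (i : ι) :
    ((x i).val : ℤ) = ∑ j : Fin (a i), ((dig m a B hm x ⟨i, j⟩ : ℕ) : ℤ) * (B : ℤ) ^ (j : ℕ) := by
  have h := finFunctionFinEquiv_apply (finFunctionFinEquiv.symm
    (⟨(x i).val, lt_of_lt_of_le (ZMod.val_lt _) (hm i)⟩ : Fin (B ^ a i)))
  rw [Equiv.apply_symm_apply] at h
  have h' : ((x i).val : ℕ) = ∑ j : Fin (a i), (dig m a B hm x ⟨i, j⟩ : ℕ) * B ^ (j : ℕ) := h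
  rw [h']
  push_cast
  rfl

variable (P : Finset ℕ)

theorem eq_zero_of_prod (hP : ∀ p ∈ P, p.Prime) (k : ℤ) (hk : |k| < ((∏ p ∈ P, p : ℕ) : ℤ))
    (h : ∀ p ∈ P, ((k : ℤ) : ZMod p) = 0) : k = 0 := by
  have h1 : (∏ p ∈ P, p) ∣ k.natAbs := by
    refine Finset.prod_primes_dvd _ (fun p hp => ?_) (fun p hp => ?_)
    · exact Nat.prime_iff.mp (hP p hp)
    · have := h p hp
      rw [ZMod.intCast_zmod_eq_zero_iff_dvd] at this
      exact Int.natCast_dvd.mp this
  by_contra hcon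
  have h2 := Nat.le_of_dvd (Int.natAbs_pos.mpr hcon) h1
  have h3 : ((∏ p ∈ P, p : ℕ) : ℤ) ≤ (k.natAbs : ℤ) := by exact_mod_cast h2
  rw [Int.natCast_natAbs] at h3
  exact absurd hk (not_lt.mpr h3)

variable (hm : ∀ i, m i ≤ (∏ p ∈ P, p) ^ a i)

/-- The residues of the digits. -/
def res (x : ∀ i, ZMod (m i)) (j : (Σ i, Fin (a i)) × P) : ZMod j.2.1 :=
  ((dig m a (∏ p ∈ P, p) hm x j.1 : ℕ) : ZMod j.2.1)

/-- The halves in which the digits lie. -/
def half (x : ∀ i, ZMod (m i)) (d : Σ i, Fin (a i)) : Bool :=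
  decide ((∏ p ∈ P, p) / 2 ≤ (dig m a (∏ p ∈ P, p) hm x d : ℕ))

theorem sub_eq_of_res (hP : ∀ p ∈ P, p.Prime) (x y z w : ∀ i, ZMod (m i))
    (h : res m a P hm x - res m a P hm y = res m a P hm z - res m a P hm w)
    (h1 : half m a P hm x = half m a P hm z) (h2 : half m a P hm y = half m a P hm w) :
    x - y = z - w := by
  have hd : ∀ d, ((dig m a (∏ p ∈ P, p) hm x d : ℕ) : ℤ) - ((dig m a (∏ p ∈ P, p) hm y d : ℕ) : ℤ) =
      ((dig m a (∏ p ∈ P, p) hm z d : ℕ) : ℤ) - ((dig m a (∏ p ∈ P, p) hm w d : ℕ) : ℤ) := by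
    intro d
    have k1 := congrFun h1 d
    have k2 := congrFun h2 d
    simp only [half, decide_eq_decide] at k1 k2
    have a1 := (dig m a (∏ p ∈ P, p) hm x d).isLt
    have a2 := (dig m a (∏ p ∈ P, p) hm y d).isLt
    have a3 := (dig m a (∏ p ∈ P, p) hm z d).isLt
    have a4 := (dig m a (∏ p ∈ P, p) hm w d).isLt
    have hz := eq_zero_of_prod P hP
      ((((dig m a (∏ p ∈ P, p) hm x d : ℕ) : ℤ) - ((dig m a (∏ p ∈ P, p) hm y d : ℕ) : ℤ)) -
      (((dig m a (∏ p ∈ P, p) hm z d : ℕ) : ℤ) - ((dig m a (∏ p ∈ P, p) hm w d : ℕ) : ℤ))) ?_ ?_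
    · linarith
    · rw [abs_lt]
      by_cases c1 : (∏ p ∈ P, p) / 2 ≤ (dig m a (∏ p ∈ P, p) hm x d : ℕ) <;>
      by_cases c2 : (∏ p ∈ P, p) / 2 ≤ (dig m a (∏ p ∈ P, p) hm y d : ℕ)
      · have c3 := k1.mp c1
        have c4 := k2.mp c2
        constructor <;> omega
      · have c3 := k1.mp c1
        have c4 := (not_iff_not.mpr k2).mp c2
        constructor <;> omega
      · have c3 := (not_iff_not.mpr k1).mp c1
        have c4 := k2.mp c2
        constructor <;> omega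
      · have c3 := (not_iff_not.mpr k1).mp c1
        have c4 := (not_iff_not.mpr k2).mp c2
        constructor <;> omega
    · intro p hp
      have := congrFun h (d, ⟨p, hp⟩)
      simp only [Pi.sub_apply, res] at this
      push_cast
      rw [this, sub_self]
  funext i
  rw [Pi.sub_apply, Pi.sub_apply]
  have e : ((x i).val : ℤ) - ((y i).val : ℤ) = ((z i).val : ℤ) - ((w i).val : ℤ) := by
    rw [dig_sum m a (∏ p ∈ P, p) hm x i, dig_sum m a (∏ p ∈ P, p) hm y i,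
      dig_sum m a (∏ p ∈ P, p) hm z i, dig_sum m a (∏ p ∈ P, p) hm w i,
      ← Finset.sum_sub_distrib, ← Finset.sum_sub_distrib]
    refine Finset.sum_congr rfl fun j _ => ?_
    have := hd ⟨i, j⟩
    rw [← sub_mul, this, sub_mul]
  have e2 := congrArg (fun k : ℤ => (k : ZMod (m i))) e
  push_cast at e2
  rwa [ZMod.natCast_zmod_val, ZMod.natCast_zmod_val, ZMod.natCast_zmod_val,
    ZMod.natCast_zmod_val] at e2

theorem res_half_inj (hP : ∀ p ∈ P, p.Prime) (x y : ∀ i, ZMod (m i))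
    (h : res m a P hm x = res m a P hm y) : x = y := by
  have hd : ∀ d, ((dig m a (∏ p ∈ P, p) hm x d : ℕ) : ℤ) =
      ((dig m a (∏ p ∈ P, p) hm y d : ℕ) : ℤ) := by
    intro d
    have a1 := (dig m a (∏ p ∈ P, p) hm x d).isLt
    have a2 := (dig m a (∏ p ∈ P, p) hm y d).isLt
    have hz := eq_zero_of_prod P hP
      ((((dig m a (∏ p ∈ P, p) hm x d : ℕ) : ℤ) - ((dig m a (∏ p ∈ P, p) hm y d : ℕ) : ℤ))) ?_ ?_
    · linarith
    · rw [abs_lt]
      constructor <;> omega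
    · intro p hp
      have := congrFun h (d, ⟨p, hp⟩)
      simp only [res] at this
      push_cast
      rw [this, sub_self]
  funext i
  have e : ((x i).val : ℤ) = ((y i).val : ℤ) := by
    rw [dig_sum m a (∏ p ∈ P, p) hm x i, dig_sum m a (∏ p ∈ P, p) hm y i]
    exact Finset.sum_congr rfl fun j _ => by rw [hd ⟨i, j⟩]
  exact ZMod.val_injective _ (by exact_mod_cast e)

end

section
variable {E : Type*} [Field E]
variable {ι : Type*} [Fintype ι] [DecidableEq ι] (m a : ι → ℕ) [∀ i, NeZero (m i)]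
  (P : Finset ℕ) [∀ p : P, NeZero p.1]
variable {Q : Type*} [Fintype Q] [DecidableEq Q]

theorem digits_dec (hm : ∀ i, m i ≤ (∏ p ∈ P, p) ^ a i) (hP : ∀ p ∈ P, p.Prime)
    (ψ : ∀ j : (Σ i, Fin (a i)) × P, AddChar (ZMod j.2.1) E) (hψ : ∀ j, (ψ j).IsPrimitive)
    (hE : ∀ p ∈ P, (p : E) ≠ 0)
    (F : Q → Q → (∀ i, ZMod (m i)) → E) {r s : ℝ} (hs : 0 ≤ s)
    (hV : Dec (kron (fM (fun j : (Σ i, Fin (a i)) × P => j.2.1) ψ)) r s)
    (hV' : Dec (kron (fI (fun j : (Σ i, Fin (a i)) × P => j.2.1) ψ)) r s) :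
    Dec (Matrix.of fun u v : Q × (∀ i, ZMod (m i)) => F u.1 v.1 (u.2 - v.2))
      (2 * (Fintype.card Q * 2 ^ (∑ i, a i) * r)) (Fintype.card Q * 2 ^ (∑ i, a i) * s ^ 2) := by
  classical
  set Φ : (∀ j : (Σ i, Fin (a i)) × P, ZMod j.2.1) → (Q × ((Σ i, Fin (a i)) → Bool)) →
      (Q × ((Σ i, Fin (a i)) → Bool)) → E := fun h u v =>
    if H : ∃ xy : (∀ i, ZMod (m i)) × (∀ i, ZMod (m i)), res m a P hm xy.1 - res m a P hm xy.2 = h ∧
      half m a P hm xy.1 = u.2 ∧ half m a P hm xy.2 = v.2 then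
      F u.1 v.1 (H.choose.1 - H.choose.2) else 0 with hΦ
  have hΦe : ∀ (q q' : Q) (x y : ∀ i, ZMod (m i)),
      Φ (res m a P hm x - res m a P hm y) (q, half m a P hm x) (q', half m a P hm y) =
        F q q' (x - y) := by
    intro q q' x y
    have H : ∃ xy : (∀ i, ZMod (m i)) × (∀ i, ZMod (m i)), res m a P hm xy.1 - res m a P hm xy.2 =
        res m a P hm x - res m a P hm y ∧
      half m a P hm xy.1 = half m a P hm x ∧ half m a P hm xy.2 = half m a P hm y :=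
      ⟨(x, y), rfl, rfl, rfl⟩
    have e1 : Φ (res m a P hm x - res m a P hm y) (q, half m a P hm x) (q', half m a P hm y) =
        F q q' (H.choose.1 - H.choose.2) := by
      simp only [hΦ]
      rw [dif_pos H]
    rw [e1]
    congr 1
    exact sub_eq_of_res m a P hm hP _ _ _ _ H.choose_spec.1 H.choose_spec.2.1 H.choose_spec.2.2
  have key := fib_dec (fun j : (Σ i, Fin (a i)) × P => j.2.1) ψ hψ (fun j => hE _ j.2.2) Φ hs
    (Nat.cast_nonneg _) hV hV' (fun ξ => dec_triv' _)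
  set f : Q × (∀ i, ZMod (m i)) → (∀ j : (Σ i, Fin (a i)) × P, ZMod j.2.1) ×
    (Q × ((Σ i, Fin (a i)) → Bool)) := fun u => (res m a P hm u.2, (u.1, half m a P hm u.2)) with hf
  have hfi : Function.Injective f := by
    intro u v huv
    simp only [hf, Prod.mk.injEq] at huv
    exact Prod.ext huv.2.1 (res_half_inj m a P hm hP _ _ huv.1)
  have e : (Matrix.of fun u v : Q × (∀ i, ZMod (m i)) => F u.1 v.1 (u.2 - v.2)) =
      (Matrix.of fun u v : (∀ j : (Σ i, Fin (a i)) × P, ZMod j.2.1) ×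
        (Q × ((Σ i, Fin (a i)) → Bool)) => Φ (u.1 - v.1) u.2 v.2).submatrix f f := by
    ext u v
    rw [Matrix.submatrix_apply, Matrix.of_apply, Matrix.of_apply]
    exact (hΦe u.1 v.1 u.2 v.2).symm
  rw [e]
  have hc : (Fintype.card (Q × ((Σ i, Fin (a i)) → Bool)) : ℝ) =
      Fintype.card Q * 2 ^ (∑ i, a i) := by
    rw [Fintype.card_prod, Fintype.card_fun, Fintype.card_bool, Fintype.card_sigma]
    simp only [Fintype.card_fin]
    push_cast
    rfl
  refine (key.submatrix_inj f hfi).mono (le_of_eq ?_) (le_of_eq ?_)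
  · rw [mul_zero, add_zero, hc]
  · rw [hc]; ring

end

end MP0775d3.Kron
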