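import Pool.Agent.Lib.MP_0775d3_lc.Kron.Calc

/-! Products of monomial and block elementary matrices. -/

set_option linter.unusedSectionVars false
set_option linter.unusedVariables false
set_option linter.deprecated false

namespace MP0775d3.Kron

open Matrix

variable {F : Type*} [Field F]

section
variable {α : Type*} [Fintype α] [DecidableEq α]

/-- Off-diagonal nonzero entries sit in rows outside `Z` and columns in `Z`. -/
def IsElem (E : Matrix α α F) : Prop :=
  ∃ Z : Set α, ∀ a b, E a b ≠ 0 → a = b ∨ (a ∉ Z ∧ b ∈ Z)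

/-- Products with `t` elementary factors, with monomial matrices in between. -/
def Fac : ℕ → Matrix α α F → Prop
  | 0, M => IsMono M
  | t + 1, M => ∃ A E N, M = A * E * N ∧ Fac t A ∧ IsElem E ∧ IsMono N

theorem isMono_one : IsMono (1 : Matrix α α F) := by
  constructor
  · intro a b c hb hc
    have h1 : a = b := by by_contra h; exact hb (Matrix.one_apply_ne h)
    have h2 : a = c := by by_contra h; exact hc (Matrix.one_apply_ne h)
    rw [← h1, ← h2]
  · intro a b c hb hc
    have h1 : b = a := by by_contra h; exact hb (Matrix.one_apply_ne h)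
    have h2 : c = a := by by_contra h; exact hc (Matrix.one_apply_ne h)
    rw [h1, h2]

theorem isElem_one : IsElem (1 : Matrix α α F) := by
  refine ⟨∅, fun a b h => Or.inl ?_⟩
  by_contra hab
  exact h (Matrix.one_apply_ne hab)

theorem isMono_diagonal (D : α → F) : IsMono (Matrix.diagonal D) := by
  constructor
  · intro a b c hb hc
    have h1 : a = b := by by_contra h; exact hb (Matrix.diagonal_apply_ne _ h)
    have h2 : a = c := by by_contra h; exact hc (Matrix.diagonal_apply_ne _ h)
    rw [← h1, ← h2]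
  · intro a b c hb hc
    have h1 : b = a := by by_contra h; exact hb (Matrix.diagonal_apply_ne _ h)
    have h2 : c = a := by by_contra h; exact hc (Matrix.diagonal_apply_ne _ h)
    rw [h1, h2]

theorem exists_of_mul_ne {A B : Matrix α α F} {a b : α} (h : (A * B) a b ≠ 0) :
    ∃ z, A a z ≠ 0 ∧ B z b ≠ 0 := by
  rw [Matrix.mul_apply] at h
  obtain ⟨z, _, hz⟩ := Finset.exists_ne_zero_of_sum_ne_zero h
  exact ⟨z, left_ne_zero_of_mul hz, right_ne_zero_of_mul hz⟩

theorem IsMono.mul {A B : Matrix α α F} (hA : IsMono A) (hB : IsMono B) : IsMono (A * B) := by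
  constructor
  · intro a b c hb hc
    obtain ⟨z, h1, h2⟩ := exists_of_mul_ne hb
    obtain ⟨z', h1', h2'⟩ := exists_of_mul_ne hc
    have := hA.1 a z z' h1 h1'
    subst this
    exact hB.1 z b c h2 h2'
  · intro a b c hb hc
    obtain ⟨z, h1, h2⟩ := exists_of_mul_ne hb
    obtain ⟨z', h1', h2'⟩ := exists_of_mul_ne hc
    have := hB.2 a z z' h2 h2'
    subst this
    exact hA.2 z b c h1 h1'

theorem IsMono.transpose {A : Matrix α α F} (hA : IsMono A) : IsMono Aᵀ :=
  ⟨fun a b c hb hc => hA.2 a b c hb hc, fun a b c hb hc => hA.1 a b c hb hc⟩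

theorem IsElem.transpose {A : Matrix α α F} (hA : IsElem A) : IsElem Aᵀ := by
  obtain ⟨Z, hZ⟩ := hA
  refine ⟨Zᶜ, fun a b h => ?_⟩
  rcases hZ b a h with h1 | ⟨h1, h2⟩
  · exact Or.inl h1.symm
  · exact Or.inr ⟨fun h3 => h3 h2, h1⟩

theorem Fac.mul_mono {t : ℕ} {A N : Matrix α α F} (hA : Fac t A) (hN : IsMono N) :
    Fac t (A * N) := by
  cases t with
  | zero => exact IsMono.mul hA hN
  | succ t =>
    obtain ⟨A', E, N', rfl, h1, h2, h3⟩ := hA
    exact ⟨A', E, N' * N, by simp only [Matrix.mul_assoc], h1, h2,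
      h3.mul hN⟩

theorem Fac.mul {s t : ℕ} {A B : Matrix α α F} (hA : Fac s A) (hB : Fac t B) :
    Fac (s + t) (A * B) := by
  induction t generalizing B with
  | zero => exact hA.mul_mono hB
  | succ t ih =>
    obtain ⟨B', E, N, rfl, h1, h2, h3⟩ := hB
    exact ⟨A * B', E, N, by simp only [Matrix.mul_assoc], ih h1, h2, h3⟩

theorem IsElem.fac {E : Matrix α α F} (h : IsElem E) : Fac 1 E :=
  ⟨1, E, 1, by simp, isMono_one, h, isMono_one⟩

theorem IsMono.fac {N : Matrix α α F} (h : IsMono N) : Fac 0 N := h

theorem Fac.succ {t : ℕ} {A : Matrix α α F} (hA : Fac t A) : Fac (t + 1) A :=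
  ⟨A, 1, 1, by simp, hA, isElem_one, isMono_one⟩

theorem Fac.mono {s t : ℕ} {A : Matrix α α F} (hA : Fac s A) (hst : s ≤ t) : Fac t A := by
  induction hst with
  | refl => exact hA
  | step _ ih => exact ih.succ

theorem Fac.transpose {t : ℕ} {A : Matrix α α F} (hA : Fac t A) : Fac t Aᵀ := by
  induction t generalizing A with
  | zero => exact IsMono.transpose hA
  | succ t ih =>
    obtain ⟨A', E, N, rfl, h1, h2, h3⟩ := hA
    rw [Matrix.transpose_mul, Matrix.transpose_mul]
    have h4 := (h3.transpose.fac).mul ((h2.transpose.fac).mul (ih h1))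
    refine h4.mono ?_
    omega

end

section
variable {α β : Type*} [Fintype α] [DecidableEq α] [Fintype β] [DecidableEq β]

theorem IsMono.submatrix {A : Matrix α α F} (hA : IsMono A) (e : β ≃ α) :
    IsMono (A.submatrix e e) :=
  ⟨fun a b c hb hc => e.injective (hA.1 _ _ _ hb hc),
    fun a b c hb hc => e.injective (hA.2 _ _ _ hb hc)⟩

theorem IsElem.submatrix {A : Matrix α α F} (hA : IsElem A) (e : β ≃ α) :
    IsElem (A.submatrix e e) := by
  obtain ⟨Z, hZ⟩ := hA
  refine ⟨e ⁻¹' Z, fun a b h => ?_⟩
  rcases hZ _ _ h with h1 | ⟨h1, h2⟩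
  · exact Or.inl (e.injective h1)
  · exact Or.inr ⟨h1, h2⟩

theorem Fac.submatrix {t : ℕ} {A : Matrix α α F} (hA : Fac t A) (e : β ≃ α) :
    Fac t (A.submatrix e e) := by
  induction t generalizing A with
  | zero => exact IsMono.submatrix hA e
  | succ t ih =>
    obtain ⟨A', E, N, rfl, h1, h2, h3⟩ := hA
    refine ⟨A'.submatrix e e, E.submatrix e e, N.submatrix e e, ?_, ih h1, h2.submatrix e,
      h3.submatrix e⟩
    rw [Matrix.submatrix_mul_equiv, Matrix.submatrix_mul_equiv]

theorem Fac.of_submatrix {t : ℕ} {A : Matrix α α F} (e : β ≃ α) (hA : Fac t (A.submatrix e e)) :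
    Fac t A := by
  have := hA.submatrix e.symm
  simpa using this

theorem IsMono.blocks {A : Matrix α α F} {B : Matrix β β F} (hA : IsMono A) (hB : IsMono B) :
    IsMono (Matrix.fromBlocks A 0 0 B) := by
  constructor
  · rintro (a | a) (b | b) (c | c) hb hc
    · exact congrArg _ (hA.1 a b c hb hc)
    · exact absurd rfl hc
    · exact absurd rfl hb
    · exact absurd rfl hb
    · exact absurd rfl hb
    · exact absurd rfl hb
    · exact absurd rfl hc
    · exact congrArg _ (hB.1 a b c hb hc)
  · rintro (a | a) (b | b) (c | c) hb hc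
    · exact congrArg _ (hA.2 a b c hb hc)
    · exact absurd rfl hc
    · exact absurd rfl hb
    · exact absurd rfl hb
    · exact absurd rfl hb
    · exact absurd rfl hb
    · exact absurd rfl hc
    · exact congrArg _ (hB.2 a b c hb hc)

theorem IsElem.blocks {A : Matrix α α F} {B : Matrix β β F} (hA : IsElem A) (hB : IsElem B) :
    IsElem (Matrix.fromBlocks A 0 0 B) := by
  obtain ⟨Z, hZ⟩ := hA
  obtain ⟨W, hW⟩ := hB
  refine ⟨{p | Sum.elim (· ∈ Z) (· ∈ W) p}, ?_⟩
  rintro (a | a) (b | b) h
  · rcases hZ a b h with h1 | h1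
    · exact Or.inl (congrArg _ h1)
    · exact Or.inr h1
  · exact absurd rfl h
  · exact absurd rfl h
  · rcases hW a b h with h1 | h1
    · exact Or.inl (congrArg _ h1)
    · exact Or.inr h1

theorem Fac.blocks {t : ℕ} {A : Matrix α α F} {B : Matrix β β F} (hA : Fac t A) (hB : Fac t B) :
    Fac t (Matrix.fromBlocks A 0 0 B) := by
  induction t generalizing A B with
  | zero => exact IsMono.blocks hA hB
  | succ t ih =>
    obtain ⟨A', E, N, rfl, h1, h2, h3⟩ := hA
    obtain ⟨B', E', N', rfl, h1', h2', h3'⟩ := hB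
    refine ⟨_, _, _, ?_, ih h1 h1', h2.blocks h2', h3.blocks h3'⟩
    rw [Matrix.fromBlocks_multiply, Matrix.fromBlocks_multiply]
    simp

/-- Upper block elementary matrices. -/
theorem isElem_upper (A : Matrix α β F) :
    IsElem (Matrix.fromBlocks (1 : Matrix α α F) A 0 (1 : Matrix β β F)) := by
  refine ⟨Set.range Sum.inr, ?_⟩
  rintro (a | a) (b | b) h
  · left
    by_contra hab
    apply h
    show (1 : Matrix α α F) a b = 0
    exact Matrix.one_apply_ne (fun h' => hab (congrArg _ h'))
  · right
    exact ⟨by simp, by simp⟩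
  · exact absurd rfl h
  · left
    by_contra hab
    apply h
    show (1 : Matrix β β F) a b = 0
    exact Matrix.one_apply_ne (fun h' => hab (congrArg _ h'))

/-- Lower block elementary matrices. -/
theorem isElem_lower (A : Matrix β α F) :
    IsElem (Matrix.fromBlocks (1 : Matrix α α F) 0 A (1 : Matrix β β F)) := by
  refine ⟨Set.range Sum.inl, ?_⟩
  rintro (a | a) (b | b) h
  · left
    by_contra hab
    apply h
    show (1 : Matrix α α F) a b = 0
    exact Matrix.one_apply_ne (fun h' => hab (congrArg _ h'))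
  · exact absurd rfl h
  · right
    exact ⟨by simp, by simp⟩
  · left
    by_contra hab
    apply h
    show (1 : Matrix β β F) a b = 0
    exact Matrix.one_apply_ne (fun h' => hab (congrArg _ h'))

theorem isMono_swap :
    IsMono (Matrix.fromBlocks (0 : Matrix α α F) (-1) (1 : Matrix α α F) 0) := by
  have key : ∀ a b : α, (-1 : Matrix α α F) a b ≠ 0 → a = b := by
    intro a b h
    by_contra hab
    apply h
    rw [Matrix.neg_apply, Matrix.one_apply_ne hab, neg_zero]
  have key' : ∀ a b : α, (1 : Matrix α α F) a b ≠ 0 → a = b := by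
    intro a b h
    by_contra hab
    exact h (Matrix.one_apply_ne hab)
  constructor
  · rintro (a | a) (b | b) (c | c) hb hc
    · exact absurd rfl hb
    · exact absurd rfl hb
    · exact absurd rfl hc
    · exact congrArg _ ((key a b hb).symm.trans (key a c hc))
    · exact congrArg _ ((key' a b hb).symm.trans (key' a c hc))
    · exact absurd rfl hc
    · exact absurd rfl hb
    · exact absurd rfl hb
  · rintro (a | a) (b | b) (c | c) hb hc
    · exact absurd rfl hb
    · exact absurd rfl hb
    · exact absurd rfl hc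
    · exact congrArg _ ((key' b a hb).trans (key' c a hc).symm)
    · exact congrArg _ ((key b a hb).trans (key c a hc).symm)
    · exact absurd rfl hc
    · exact absurd rfl hb
    · exact absurd rfl hb

/-- Whitehead. -/
theorem fac_whitehead {A A' : Matrix α α F} (h : A * A' = 1) :
    Fac 3 (Matrix.fromBlocks A 0 0 A') := by
  have h' : A' * A = 1 := mul_eq_one_comm.mp h
  have e : Matrix.fromBlocks A 0 0 A' =
      Matrix.fromBlocks 1 A 0 1 * Matrix.fromBlocks 1 0 (-A') 1 * Matrix.fromBlocks 1 A 0 1 *
        Matrix.fromBlocks 0 (-1) 1 0 := by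
    rw [Matrix.fromBlocks_multiply, Matrix.fromBlocks_multiply, Matrix.fromBlocks_multiply]
    simp [h, h']
  rw [e]
  exact (((isElem_upper A).fac.mul (isElem_lower (-A')).fac).mul
    (isElem_upper A).fac).mul_mono isMono_swap

end

end MP0775d3.Kron
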