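import Pool.Agent.Lib.MP_0775d3_lc.Kron.Asym

/-! The recursion from size `log n` to size `n`. -/

set_option linter.unusedSectionVars false
set_option linter.unusedVariables false
set_option linter.deprecated false

namespace MP0775d3.Kron

open Matrix Filter

section

/-- The statement that is proved by induction on `k`. -/
def PP (k : ℕ) : Prop := ∀ δ : ℝ, 0 < δ → δ ≤ 1 → ∃ c : ℝ, 0 < c ∧ ∃ n₀ : ℕ, ∀ n : ℕ, n₀ ≤ n →
  ∀ t : ℤ → ℂ, Dec (Toep n t) (Real.exp ((1 - c / Real.log^[k + 2] n) * Real.log n))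
    (Real.exp (δ * Real.log n))

theorem PP_zero : PP 0 := by
  intro δ hδ hδ1
  obtain ⟨N, hN⟩ : ∃ N : ℕ, 128 / (δ / 3) < 2 ^ N := pow_unbounded_of_one_lt _ (by norm_num)
  have hN' : 128 ≤ (δ / 3) * 2 ^ N := by
    rw [div_lt_iff₀ (by positivity)] at hN
    linarith
  set κ : ℝ := ((δ / 3) / (256 * (N + 1))) ^ 2 with hκ
  have hκ0 : 0 < κ := by positivity
  obtain ⟨Y, hY, hYev⟩ := exists_Y
  have e1 : ∀ᶠ n : ℕ in atTop, (Real.log 512 + 2 * Real.log (Real.log n)) * Real.log (Real.log n) ≤
      (κ / 4) * Real.log n :=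
    log_cast_tendsto.eventually (log_sq_le _ _ (by positivity))
  have e2 : ∀ᶠ n : ℕ in atTop, Real.log (Real.log n) ≤ (1 / 8) * Real.log n :=
    log_cast_tendsto.eventually (log_le_eps _ (by norm_num))
  refine ⟨κ / 4, by positivity, ?_⟩
  have key : ∀ᶠ n : ℕ in atTop, ∀ t : ℤ → ℂ,
      Dec (Toep n t) (Real.exp ((1 - κ / 4 / Real.log^[0 + 2] n) * Real.log n))
        (Real.exp (δ * Real.log n)) := by
    filter_upwards [hYev, e1, e2, log_cast_tendsto.eventually_ge_atTop 4] with n hn f1 f2 f3 t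
    obtain ⟨a1, a2, a3, a4, a5⟩ := hn
    have h := dec_toeplitz (Y n) n (by omega) a2 t (δ / 3) N (by positivity) (by linarith) hN'
    have hP0 : (0 : ℝ) < primorial (Y n) := by exact_mod_cast primorial_pos _
    set Λ := Real.log (primorial (Y n)) with hΛ
    set L := Real.log (n : ℝ) with hL
    have hl2 := Real.log_two_lt_d9
    have hl20 := Real.log_two_gt_d9
    have hll : 1 < Real.log L := by
      rw [Real.lt_log_iff_exp_lt (by linarith)]
      have := Real.exp_one_lt_d9
      linarith
    have hY3 : (3 : ℝ) ≤ Y n := by exact_mod_cast a1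
    have hlY0 : 0 < Real.log (Y n : ℝ) := Real.log_pos (by linarith)
    have hlY : Real.log (Y n : ℝ) ≤ 2 * Real.log L := by
      have := Real.log_le_log (by linarith) a3
      rw [Real.log_pow] at this
      push_cast at this
      exact this
    have hit : Real.log^[0 + 2] (n : ℝ) = Real.log L := by
      simp [Function.iterate_succ_apply', hL]
    refine h.mono ?_ ?_
    · rw [hit]
      have g1 : κ * (L / (2 * Real.log L)) ≤ κ * (Λ / Real.log (Y n)) := by
        refine mul_le_mul_of_nonneg_left ?_ hκ0.le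
        rw [div_le_div_iff₀ (by linarith) hlY0]
        have : L * Real.log (Y n) ≤ Λ * (2 * Real.log L) :=
          mul_le_mul a4 hlY hlY0.le (by linarith)
        exact this
      have g2 : 256 * Real.exp (-(κ * (Λ / Real.log (Y n)))) * primorial (Y n) =
          Real.exp (Real.log 256 - κ * (Λ / Real.log (Y n)) + Λ) := by
        rw [Real.exp_add, hΛ, Real.exp_log hP0, Real.exp_sub, Real.exp_log (by norm_num),
          Real.exp_neg]
        ring
      rw [g2]
      apply Real.exp_le_exp.mpr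
      have g3 : Real.log 512 = Real.log 256 + Real.log 2 := by
        rw [← Real.log_mul (by norm_num) (by norm_num)]
        norm_num
      have g4 : κ * (L / (2 * Real.log L)) = κ / 2 * (L / Real.log L) := by
        field_simp
      have g5 : Real.log 512 + 2 * Real.log L ≤ κ / 4 * (L / Real.log L) := by
        rw [← mul_div_assoc, le_div_iff₀ (by linarith)]
        exact f1
      have g6 : (1 - κ / 4 / Real.log L) * L = L - κ / 4 * (L / Real.log L) := by
        field_simp
      rw [g6]
      linarith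
    · apply Real.exp_le_exp.mpr
      have g1 : Λ ≤ 3 / 2 * L := by linarith
      have := mul_le_mul_of_nonneg_left g1 (show 0 ≤ 2 * (δ / 3) by positivity)
      linarith
  exact eventually_atTop.mp key

theorem dec_triv {X : Type*} [Fintype X] [DecidableEq X] {F : Type*} [Field F]
    (A : Matrix X X F) : Dec A 0 (Fintype.card X) := by
  refine Sparse.dec ⟨fun x => ?_, fun y => ?_⟩
  · have := Set.ncard_le_card ({y | A x y ≠ 0} : Set X)
    rw [Nat.card_eq_fintype_card] at this
    exact_mod_cast this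
  · have := Set.ncard_le_card ({x | A x y ≠ 0} : Set X)
    rw [Nat.card_eq_fintype_card] at this
    exact_mod_cast this

/-- One step, with the profile of the prime sizes inserted. -/
theorem step_num (y n m₁ : ℕ) (hm₁ : 1 ≤ m₁) (hn : 2 * n ≤ primorial y) (κ δ₁ β : ℝ)
    (hκ : 0 ≤ κ) (hδ₁ : 0 ≤ δ₁)
    (h : ∀ p : ℕ, m₁ ≤ p → p ≤ y → ∀ t, Dec (Toep p t) (Real.exp ((1 - κ) * Real.log p))
      (Real.exp (δ₁ * Real.log p))) (t : ℤ → ℂ) :
    Dec (Toep n t)
      (2 * (2 ^ Fintype.card (PI y) *
        Real.exp (Real.log (primorial y) - κ * (β * Real.log (primorial y)))))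
      ((2 ^ Fintype.card (PI y) *
        (Real.exp ((β + δ₁) * Real.log (primorial y)) * (m₁ : ℝ) ^ m₁)) ^ 2) := by
  classical
  set Λ := Real.log (primorial y) with hΛ
  set C : PI y → ℝ := fun p => if p.1 < m₁ then (m₁ : ℝ) else 1 with hC
  have hm₁R : (1 : ℝ) ≤ m₁ := by exact_mod_cast hm₁
  have hC1 : ∀ p, 1 ≤ C p := by
    intro p
    simp only [hC]
    split_ifs
    · exact hm₁R
    · exact le_refl _
  have hlog : ∀ p : PI y, 0 ≤ Real.log (p.1 : ℝ) := fun p =>
    Real.log_nonneg (by exact_mod_cast p.prime.one_lt.le)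
  have hppos : ∀ p : PI y, (0 : ℝ) < (p.1 : ℝ) := fun p => by exact_mod_cast p.prime.pos
  have hsum : ∀ A : Finset (PI y), ∑ p ∈ A, Real.log (p.1 : ℝ) + ∑ p ∈ Aᶜ, Real.log (p.1 : ℝ) =
      Λ := by
    intro A
    rw [Finset.sum_add_sum_compl, sum_log_PI]
  have hprodlog : ∀ A : Finset (PI y), ∏ p ∈ A, (p.1 : ℝ) =
      Real.exp (∑ p ∈ A, Real.log (p.1 : ℝ)) := by
    intro A
    rw [Real.exp_sum]
    exact Finset.prod_congr rfl fun p _ => (Real.exp_log (hppos p)).symm
  have hCprod : ∀ A : Finset (PI y), ∏ p ∈ A, C p ≤ (m₁ : ℝ) ^ m₁ := by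
    intro A
    have h0 : (1 : ℝ) ≤ ∏ p ∈ Aᶜ, C p := by
      have := Finset.prod_le_prod (s := Aᶜ) (f := fun _ => (1 : ℝ)) (g := C)
        (fun _ _ => zero_le_one) (fun p _ => hC1 p)
      rwa [Finset.prod_const_one] at this
    have h00 : (0 : ℝ) ≤ ∏ p ∈ A, C p :=
      Finset.prod_nonneg fun p _ => zero_le_one.trans (hC1 p)
    have h1 : ∏ p ∈ A, C p ≤ ∏ p : PI y, C p := by
      rw [← Finset.prod_mul_prod_compl A]
      exact le_mul_of_one_le_right h00 h0
    refine h1.trans ?_
    simp only [hC]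
    rw [Finset.prod_ite, Finset.prod_const, Finset.prod_const_one, mul_one]
    refine pow_le_pow_right₀ hm₁R ?_
    have h3 : (Finset.univ.filter (fun p : PI y => p.1 < m₁)).card ≤ (Finset.range m₁).card := by
      refine Finset.card_le_card_of_injOn (fun p => p.1) ?_ ?_
      · intro p hp
        exact Finset.mem_coe.mpr (Finset.mem_range.mpr (Finset.mem_filter.mp (Finset.mem_coe.mp hp)).2)
      · intro p _ q _ hpq
        exact Subtype.ext hpq
    rwa [Finset.card_range] at h3
  refine step_finite y n hn (fun p => Real.exp ((1 - κ) * Real.log p.1))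
    (fun p => Real.exp (δ₁ * Real.log p.1) * C p) ?_ ?_
    (fun A => β * Λ < ∑ p ∈ A, Real.log (p.1 : ℝ)) _ _ (Real.exp_pos _).le (by positivity) ?_ ?_ t
  · intro p
    exact mul_nonneg (Real.exp_pos _).le (zero_le_one.trans (hC1 p))
  · intro p t
    by_cases hp : p.1 < m₁
    · refine (dec_triv (Toep p.1 t)).mono (Real.exp_pos _).le ?_
      rw [Fintype.card_fin]
      simp only [hC, if_pos hp]
      have h1 : (1 : ℝ) ≤ Real.exp (δ₁ * Real.log p.1) := by
        rw [← Real.exp_zero]
        exact Real.exp_le_exp.mpr (mul_nonneg hδ₁ (hlog p))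
      have h2 : (p.1 : ℝ) ≤ m₁ := by exact_mod_cast hp.le
      nlinarith
    · refine (h p.1 (not_lt.mp hp) p.le t).mono (le_refl _) ?_
      simp only [hC, if_neg hp, mul_one]
      exact le_refl _
  · intro A hA
    rw [hprodlog, ← Real.exp_sum, ← Real.exp_add, ← Finset.mul_sum]
    apply Real.exp_le_exp.mpr
    have h1 := hsum A
    have h2 : κ * (β * Λ) ≤ κ * ∑ p ∈ A, Real.log (p.1 : ℝ) :=
      mul_le_mul_of_nonneg_left hA.le hκ
    linarith
  · intro A hA
    push Not at hA
    rw [Finset.prod_mul_distrib, hprodlog, ← Real.exp_sum, ← Finset.mul_sum, ← mul_assoc,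
      ← Real.exp_add]
    refine mul_le_mul ?_ (hCprod _) (Finset.prod_nonneg fun p _ => zero_le_one.trans (hC1 p))
      (Real.exp_pos _).le
    apply Real.exp_le_exp.mpr
    have h1 := hsum A
    have h3 : ∑ p ∈ Aᶜ, Real.log (p.1 : ℝ) ≤ Λ := by
      have : 0 ≤ ∑ p ∈ A, Real.log (p.1 : ℝ) := Finset.sum_nonneg fun p _ => hlog p
      linarith
    have h4 := mul_le_mul_of_nonneg_left h3 hδ₁
    linarith

theorem PP_succ (k : ℕ) (hk : PP k) : PP (k + 1) := by
  intro δ hδ hδ1
  obtain ⟨c₁, hc₁, m₀, hm₀⟩ := hk (δ / 6) (by positivity) (by linarith)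
  obtain ⟨Y, hY, hYev⟩ := exists_Y
  -- threshold for the small primes
  have hth : ∀ᶠ p : ℕ in atTop, 0 < Real.log^[k + 2] (p : ℝ) ∧
      (∀ z : ℝ, (p : ℝ) ≤ z → Real.log^[k + 2] (p : ℝ) ≤ Real.log^[k + 2] z) := by
    filter_upwards [tendsto_natCast_atTop_atTop.eventually ((itlog_tendsto (k + 2)).eventually_gt_atTop 0),
      tendsto_natCast_atTop_atTop.eventually (itlog_mono (k + 2))] with p h1 h2
    exact ⟨h1, h2⟩
  obtain ⟨m₂, hm₂⟩ := eventually_atTop.mp hth
  set m₁ := max (max m₀ m₂) 1 with hm₁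
  set β : ℝ := δ / 6 with hβ
  have hβ0 : 0 < β := by positivity
  set C₁ : ℝ := m₁ * Real.log m₁ with hC₁
  -- events for `y`
  have E1 : ∀ᶠ n : ℕ in atTop, ((Fintype.card (PI (Y n)) : ℝ) + 1) *
      Real.log (Real.log (Y n)) ≤ (β * c₁ / 4) * Real.log (primorial (Y n)) :=
    hY.eventually (card_ev _ (by positivity))
  have E2 : ∀ᶠ n : ℕ in atTop, ((Fintype.card (PI (Y n)) : ℝ) + 1) *
      Real.log (Real.log (Y n)) ≤ (δ / 32) * Real.log (primorial (Y n)) :=
    hY.eventually (card_ev _ (by positivity))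
  have hYR : Tendsto (fun n => ((Y n : ℕ) : ℝ)) atTop atTop :=
    tendsto_natCast_atTop_atTop.comp hY
  have E3 : ∀ᶠ n : ℕ in atTop, 1 ≤ Real.log (Real.log (Y n : ℝ)) :=
    ((Real.tendsto_log_atTop.comp Real.tendsto_log_atTop).comp hYR).eventually_ge_atTop 1
  have E4 : ∀ᶠ n : ℕ in atTop, Real.log^[k + 2] (Y n : ℝ) ≤ Real.log (Real.log (Y n : ℝ)) :=
    hYR.eventually (itlog_le k)
  have E5 : ∀ᶠ n : ℕ in atTop, 0 < Real.log^[k + 2] (Y n : ℝ) :=
    hYR.eventually ((itlog_tendsto (k + 2)).eventually_gt_atTop 0)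
  have E6 : ∀ᶠ n : ℕ in atTop, ∀ z : ℝ, (Y n : ℝ) ≤ z →
      Real.log^[k + 2] (Y n : ℝ) ≤ Real.log^[k + 2] z :=
    hYR.eventually (itlog_mono (k + 2))
  -- events for `log n`
  have E7 : ∀ᶠ n : ℕ in atTop, Real.log^[k + 2] ((Real.log n) ^ 2) ≤
      2 * Real.log^[k + 2] (Real.log n) :=
    log_cast_tendsto.eventually (itlog_sq (k + 1))
  have E8 : ∀ᶠ n : ℕ in atTop, (Real.log 2 + 2 * Real.log (Real.log n)) *
      Real.log (Real.log n) ≤ (β * c₁ / 8) * Real.log n :=
    log_cast_tendsto.eventually (log_sq_le _ _ (by positivity))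
  have E9 : ∀ᶠ n : ℕ in atTop, Real.log (Real.log n) ≤ (1 / 16) * Real.log n :=
    log_cast_tendsto.eventually (log_le_eps _ (by norm_num))
  have E10 : ∀ᶠ n : ℕ in atTop, 24 * C₁ / δ ≤ Real.log n :=
    log_cast_tendsto.eventually_ge_atTop _
  refine ⟨β * c₁ / 4, by positivity, ?_⟩
  have key : ∀ᶠ n : ℕ in atTop, ∀ t : ℤ → ℂ,
      Dec (Toep n t) (Real.exp ((1 - β * c₁ / 4 / Real.log^[k + 1 + 2] n) * Real.log n))
        (Real.exp (δ * Real.log n)) := by
    filter_upwards [hYev, E1, E2, E3, E4, E5, E6, E7, E8, E9, E10,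
      log_cast_tendsto.eventually_ge_atTop 16] with n hn f1 f2 f3 f4 f5 f6 f7 f8 f9 f10 f11 t
    obtain ⟨a1, a2, a3, a4, a5⟩ := hn
    have hP0 : (0 : ℝ) < primorial (Y n) := by exact_mod_cast primorial_pos _
    set Λ := Real.log (primorial (Y n)) with hΛ
    set L := Real.log (n : ℝ) with hL
    set Lk := Real.log^[k + 2] (Y n : ℝ) with hLk
    set K := (Fintype.card (PI (Y n)) : ℝ) with hK
    set ll := Real.log (Real.log (Y n : ℝ)) with hll
    have hl2 := Real.log_two_lt_d9
    have hl20 := Real.log_two_gt_d9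
    have hK0 : 0 ≤ K := Nat.cast_nonneg _
    have hY3 : (3 : ℝ) ≤ Y n := by exact_mod_cast a1
    have hL0 : 0 < L := by linarith
    have hlogL : 1 < Real.log L := by
      rw [Real.lt_log_iff_exp_lt (by linarith)]
      have := Real.exp_one_lt_d9
      linarith
    set κ : ℝ := c₁ / Lk with hκ
    have hκ0 : 0 < κ := div_pos hc₁ f5
    have hstep := step_num (Y n) n m₁ (le_max_right _ _) a2 κ (δ / 6) β hκ0.le (by positivity) ?_ t
    · -- assemble
      have hcard : ((2 : ℝ) ^ Fintype.card (PI (Y n))) = Real.exp (K * Real.log 2) := by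
        rw [hK, ← Real.log_pow, Real.exp_log (by positivity)]
      have hm₁0 : (0 : ℝ) < m₁ := by
        have : 0 < m₁ := lt_of_lt_of_le one_pos (le_max_right _ _)
        exact_mod_cast this
      have hpow : (m₁ : ℝ) ^ m₁ = Real.exp C₁ := by
        rw [hC₁, ← Real.log_pow, Real.exp_log (by positivity)]
      -- comparison of iterated logarithms
      have g0 : Real.log^[k + 1 + 2] (n : ℝ) = Real.log^[k + 2] L := by
        show Real.log^[k + 2 + 1] (n : ℝ) = _
        rw [Function.iterate_succ_apply]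
      have g1 : Lk ≤ 2 * Real.log^[k + 2] L := (f6 _ a3).trans f7
      have g2 : 0 < Real.log^[k + 2] L := by linarith
      have g3 : Lk ≤ 2 * Real.log L := by
        have h1 : Real.log (Y n : ℝ) ≤ 2 * Real.log L := by
          have := Real.log_le_log (by linarith) a3
          rw [Real.log_pow] at this
          push_cast at this
          exact this
        have h2 : ll ≤ Real.log (Y n : ℝ) := by
          have h3 : 0 < Real.log (Y n : ℝ) := Real.log_pos (by linarith)
          have := Real.log_le_sub_one_of_pos h3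
          linarith
        linarith
      refine hstep.mono ?_ ?_
      · -- rank
        rw [hcard, g0]
        have e1 : 2 * (Real.exp (K * Real.log 2) * Real.exp (Λ - κ * (β * Λ))) =
            Real.exp (Real.log 2 + (K * Real.log 2 + (Λ - κ * (β * Λ)))) := by
          rw [Real.exp_add, Real.exp_add, Real.exp_log (by norm_num)]
        rw [e1]
        apply Real.exp_le_exp.mpr
        have h1 : (K + 1) * Lk ≤ β * c₁ / 4 * Λ := by
          have : (K + 1) * Lk ≤ (K + 1) * ll := mul_le_mul_of_nonneg_left f4 (by linarith)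
          linarith
        have h2 : K + 1 ≤ β / 4 * (κ * Λ) := by
          have h3 : K + 1 ≤ β * c₁ / 4 * Λ / Lk := by
            rw [le_div_iff₀ f5]; exact h1
          have h4 : β * c₁ / 4 * Λ / Lk = β / 4 * (κ * Λ) := by
            rw [hκ]; field_simp
          linarith
        have h3 : κ * L ≤ κ * Λ := mul_le_mul_of_nonneg_left a4 hκ0.le
        have h4 : Real.log 2 + 2 * Real.log L ≤ β * c₁ / 8 * (L / Real.log L) := by
          rw [← mul_div_assoc, le_div_iff₀ (by linarith)]
          exact f8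
        have h5 : c₁ * (L / (2 * Real.log L)) ≤ κ * L := by
          rw [hκ]
          have : L / (2 * Real.log L) ≤ L / Lk :=
            div_le_div_of_nonneg_left hL0.le f5 g3
          have h6 := mul_le_mul_of_nonneg_left this hc₁.le
          have h7 : c₁ * (L / Lk) = c₁ / Lk * L := by ring
          linarith
        have h6 : β * c₁ / 8 * (L / Real.log L) ≤ β / 4 * (κ * L) := by
          have := mul_le_mul_of_nonneg_left h5 (show 0 ≤ β / 4 by positivity)
          have h7 : β / 4 * (c₁ * (L / (2 * Real.log L))) = β * c₁ / 8 * (L / Real.log L) := by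
            field_simp
            norm_num
          linarith
        have h7 : β * c₁ / 4 / Real.log^[k + 2] L * L ≤ β / 2 * (κ * L) := by
          have h8 : 1 / (2 * Real.log^[k + 2] L) ≤ 1 / Lk := one_div_le_one_div_of_le f5 g1
          have h9 := mul_le_mul_of_nonneg_left h8 (show 0 ≤ β * c₁ / 2 * L by positivity)
          have h10 : β * c₁ / 2 * L * (1 / (2 * Real.log^[k + 2] L)) =
              β * c₁ / 4 / Real.log^[k + 2] L * L := by
            field_simp
            norm_num
          have h11 : β * c₁ / 2 * L * (1 / Lk) = β / 2 * (κ * L) := by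
            rw [hκ]; field_simp
          linarith
        have h12 : K * Real.log 2 ≤ K := by nlinarith
        have h13 : κ * (β * Λ) = β * (κ * Λ) := by ring
        have h14 : β * (κ * L) ≤ β * (κ * Λ) := mul_le_mul_of_nonneg_left h3 hβ0.le
        have h15 : (1 - β * c₁ / 4 / Real.log^[k + 2] L) * L =
            L - β * c₁ / 4 / Real.log^[k + 2] L * L := by ring
        rw [h15, h13]
        nlinarith
      · -- sparsity
        rw [hcard, hpow]
        have e1 : (Real.exp (K * Real.log 2) * (Real.exp ((β + δ / 6) * Λ) * Real.exp C₁)) ^ 2 =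
            Real.exp (2 * (K * Real.log 2 + ((β + δ / 6) * Λ + C₁))) := by
          rw [← Real.exp_add, ← Real.exp_add, ← Real.exp_nat_mul]
          norm_num
        rw [e1]
        apply Real.exp_le_exp.mpr
        have h1 : K + 1 ≤ δ / 32 * Λ := by
          have : (K + 1) * 1 ≤ (K + 1) * ll := mul_le_mul_of_nonneg_left f3 (by linarith)
          linarith
        have h2 : Λ ≤ 5 / 4 * L := by linarith
        have h12 : K * Real.log 2 ≤ K := by nlinarith
        have h3 : C₁ ≤ δ * L / 24 := by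
          rw [div_le_iff₀ hδ] at f10
          linarith
        have h4 : δ * Λ ≤ δ * (5 / 4 * L) := mul_le_mul_of_nonneg_left h2 hδ.le
        rw [hβ]
        nlinarith
    · -- hypothesis of the step
      intro p hp hpY t
      have hpm₀ : m₀ ≤ p := (le_max_left _ _).trans ((le_max_left _ _).trans hp)
      have hpm₂ : m₂ ≤ p := (le_max_right _ _).trans ((le_max_left _ _).trans hp)
      have hp1 : 1 ≤ p := (le_max_right _ _).trans hp
      obtain ⟨b1, b2⟩ := hm₂ p hpm₂
      refine (hm₀ p hpm₀ t).mono ?_ (le_refl _)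
      apply Real.exp_le_exp.mpr
      refine mul_le_mul_of_nonneg_right ?_ (Real.log_nonneg (by exact_mod_cast hp1))
      have h1 : Real.log^[k + 2] (p : ℝ) ≤ Lk := b2 _ (by exact_mod_cast hpY)
      have h2 : c₁ / Lk ≤ c₁ / Real.log^[k + 2] (p : ℝ) :=
        div_le_div_of_nonneg_left hc₁.le b1 h1
      linarith
  exact eventually_atTop.mp key

theorem PP_all (k : ℕ) : PP k := by
  induction k with
  | zero => exact PP_zero
  | succ k ih => exact PP_succ k ih

end

end MP0775d3.Kron
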