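import Pool.Agent.Lib.MP_0775d3_lc.Kron.Bounded

/-! LDU decomposition with complete pivoting; every matrix is a product with 32 elementary
factors. -/

set_option linter.unusedSectionVars false
set_option linter.unusedVariables false
set_option linter.deprecated false

namespace MP0775d3.Kron

open Matrix

variable {F : Type*} [Field F]

/-- Block form of an `(n+1) × (n+1)` matrix. -/
def glue {n : ℕ} (a : F) (r c : Fin n → F) (A : Matrix (Fin n) (Fin n) F) :
    Matrix (Fin (n + 1)) (Fin (n + 1)) F :=
  fun i => Fin.cases (fun j => Fin.cases a r j) (fun i' j => Fin.cases (c i') (A i') j) i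

section
variable {n : ℕ} (a : F) (r c : Fin n → F) (A : Matrix (Fin n) (Fin n) F)

@[simp] theorem glue_00 : glue a r c A 0 0 = a := rfl
@[simp] theorem glue_0s (j : Fin n) : glue a r c A 0 j.succ = r j := rfl
@[simp] theorem glue_s0 (i : Fin n) : glue a r c A i.succ 0 = c i := rfl
@[simp] theorem glue_ss (i j : Fin n) : glue a r c A i.succ j.succ = A i j := rfl
end

theorem eq_glue {n : ℕ} (M : Matrix (Fin (n + 1)) (Fin (n + 1)) F) (a : F) (r c : Fin n → F)
    (A : Matrix (Fin n) (Fin n) F) (h1 : M 0 0 = a) (h2 : ∀ j, M 0 j.succ = r j)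
    (h3 : ∀ i, M i.succ 0 = c i) (h4 : ∀ i j, M i.succ j.succ = A i j) : M = glue a r c A := by
  ext i j
  refine Fin.cases ?_ (fun i' => ?_) i
  · refine Fin.cases ?_ (fun j' => ?_) j
    · exact h1
    · exact h2 j'
  · refine Fin.cases ?_ (fun j' => ?_) j
    · exact h3 i'
    · exact h4 i' j'

theorem exists_LDU (d : ℕ) (M : Matrix (Fin d) (Fin d) F) :
    ∃ (σ τ : Equiv.Perm (Fin d)) (L U : Matrix (Fin d) (Fin d) F) (D : Fin d → F),
      UL L ∧ UL Uᵀ ∧ M.submatrix σ τ = L * Matrix.diagonal D * U := by
  induction d with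
  | zero =>
    exact ⟨Equiv.refl _, Equiv.refl _, 1, 1, fun _ => 0,
      ⟨fun i => i.elim0, fun i => i.elim0⟩, ⟨fun i => i.elim0, fun i => i.elim0⟩,
      Subsingleton.elim _ _⟩
  | succ d ih =>
    by_cases hM : M = 0
    · refine ⟨Equiv.refl _, Equiv.refl _, 1, 1, fun _ => 0,
        ⟨fun i => Matrix.one_apply_eq i, fun i j h => Matrix.one_apply_ne h.ne⟩,
        ⟨fun i => Matrix.one_apply_eq i, fun i j h => ?_⟩, ?_⟩
      · rw [Matrix.transpose_apply]
        exact Matrix.one_apply_ne h.ne'
      · rw [hM]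
        ext i j
        simp
    · obtain ⟨i₀, j₀, h0⟩ : ∃ i j, M i j ≠ 0 := by
        by_contra hcon
        push Not at hcon
        exact hM (by ext i j; exact hcon i j)
      set M₀ := M.submatrix (Equiv.swap 0 i₀) (Equiv.swap 0 j₀) with hM0
      have ha : M₀ 0 0 ≠ 0 := by
        rw [hM0]
        simpa using h0
      set a := M₀ 0 0 with ha'
      let M₁ : Matrix (Fin d) (Fin d) F :=
        fun i j => M₀ i.succ j.succ - M₀ i.succ 0 * a⁻¹ * M₀ 0 j.succ
      obtain ⟨σ₁, τ₁, L₁, U₁, D₁, hL, hU, hEq⟩ := ih M₁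
      let σ' : Equiv.Perm (Fin (d + 1)) := Equiv.Perm.decomposeFin.symm (0, σ₁)
      let τ' : Equiv.Perm (Fin (d + 1)) := Equiv.Perm.decomposeFin.symm (0, τ₁)
      have s0 : σ' 0 = 0 := by simp [σ']
      have ss : ∀ i : Fin d, σ' i.succ = (σ₁ i).succ := by intro i; simp [σ']
      have t0 : τ' 0 = 0 := by simp [τ']
      have ts : ∀ i : Fin d, τ' i.succ = (τ₁ i).succ := by intro i; simp [τ']
      have hM1 : ∀ i j, M₁ (σ₁ i) (τ₁ j) = (L₁ * Matrix.diagonal D₁ * U₁) i j := by
        intro i j
        rw [← hEq]; rfl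
      refine ⟨σ'.trans (Equiv.swap 0 i₀), τ'.trans (Equiv.swap 0 j₀),
        glue 1 0 (fun i => M₀ (σ₁ i).succ 0 * a⁻¹) L₁,
        glue 1 (fun j => a⁻¹ * M₀ 0 (τ₁ j).succ) 0 U₁,
        Fin.cases a D₁, ?_, ?_, ?_⟩
      · constructor
        · intro i
          refine Fin.cases rfl (fun i' => ?_) i
          exact hL.1 i'
        · intro i j
          refine Fin.cases ?_ (fun i' => ?_) i
          · refine Fin.cases ?_ (fun j' => ?_) j
            · intro h; exact absurd h (lt_irrefl _)
            · intro _; rfl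
          · refine Fin.cases ?_ (fun j' => ?_) j
            · intro h; exact absurd h (by simp)
            · intro h
              exact hL.2 i' j' (Fin.succ_lt_succ_iff.mp h)
      · constructor
        · intro i
          refine Fin.cases rfl (fun i' => ?_) i
          exact hU.1 i'
        · intro i j
          refine Fin.cases ?_ (fun i' => ?_) i
          · refine Fin.cases ?_ (fun j' => ?_) j
            · intro h; exact absurd h (lt_irrefl _)
            · intro _; rfl
          · refine Fin.cases ?_ (fun j' => ?_) j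
            · intro h; exact absurd h (by simp)
            · intro h
              exact hU.2 i' j' (Fin.succ_lt_succ_iff.mp h)
      · have e1 : M.submatrix (σ'.trans (Equiv.swap 0 i₀)) (τ'.trans (Equiv.swap 0 j₀)) =
            M₀.submatrix σ' τ' := rfl
        rw [e1]
        have e2 : M₀.submatrix σ' τ' = glue a (fun j => M₀ 0 (τ₁ j).succ)
            (fun i => M₀ (σ₁ i).succ 0)
            (fun i j => M₀ (σ₁ i).succ (τ₁ j).succ) := by
          refine eq_glue _ _ _ _ _ ?_ ?_ ?_ ?_
          · rw [Matrix.submatrix_apply, s0, t0]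
          · intro j; rw [Matrix.submatrix_apply, s0, ts]
          · intro i; rw [Matrix.submatrix_apply, ss, t0]
          · intro i j; rw [Matrix.submatrix_apply, ss, ts]
        rw [e2]
        symm
        refine eq_glue _ _ _ _ _ ?_ ?_ ?_ ?_
        · rw [Matrix.mul_apply, Fin.sum_univ_succ]
          simp [Matrix.mul_diagonal]
        · intro j
          rw [Matrix.mul_apply, Fin.sum_univ_succ]
          simp only [Matrix.mul_diagonal, glue_00, glue_0s, Fin.cases_zero, Fin.cases_succ,
            Pi.zero_apply, zero_mul, Finset.sum_const_zero, add_zero, one_mul]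
          rw [← mul_assoc, mul_inv_cancel₀ ha, one_mul]
        · intro i
          rw [Matrix.mul_apply, Fin.sum_univ_succ]
          simp only [Matrix.mul_diagonal, glue_00, glue_s0, Fin.cases_zero, Fin.cases_succ,
            Pi.zero_apply, mul_zero, Finset.sum_const_zero, add_zero, mul_one]
          rw [mul_assoc, inv_mul_cancel₀ ha, mul_one]
        · intro i j
          rw [Matrix.mul_apply, Fin.sum_univ_succ]
          simp only [Matrix.mul_diagonal, glue_0s, glue_s0, glue_ss, Fin.cases_zero,
            Fin.cases_succ]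
          have h5 := hM1 i j
          rw [Matrix.mul_apply] at h5
          simp only [Matrix.mul_diagonal] at h5
          rw [← h5]
          show M₀ (σ₁ i).succ 0 * a⁻¹ * a * (a⁻¹ * M₀ 0 (τ₁ j).succ) +
            (M₀ (σ₁ i).succ (τ₁ j).succ - M₀ (σ₁ i).succ 0 * a⁻¹ * M₀ 0 (τ₁ j).succ) = _
          rw [mul_assoc (M₀ (σ₁ i).succ 0) a⁻¹ a, inv_mul_cancel₀ ha]
          ring

/-- Every square matrix is a product of monomial matrices and 32 elementary ones. -/
theorem fac_fin (d : ℕ) (M : Matrix (Fin d) (Fin d) F) : Fac 32 M := by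
  obtain ⟨σ, τ, L, U, D, hL, hU, h⟩ := exists_LDU d M
  have e : M = (1 : Matrix (Fin d) (Fin d) F).submatrix σ.symm id *
      (L * Matrix.diagonal D * U) * (1 : Matrix (Fin d) (Fin d) F).submatrix id τ.symm := by
    rw [perm_mul, mul_perm, ← h]
    ext i j
    simp
  rw [e]
  have hU' : Fac 16 U := by
    have := hU.fac.transpose
    rwa [Matrix.transpose_transpose] at this
  have f1 : Fac 32 (L * Matrix.diagonal D * U) :=
    (hL.fac.mul_mono (isMono_diagonal D)).mul hU'
  have f2 : Fac 0 ((1 : Matrix (Fin d) (Fin d) F).submatrix σ.symm id) :=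
    isMono_perm σ.symm (Equiv.refl _)
  exact ((f2.mul f1).mul_mono (isMono_perm (Equiv.refl _) τ.symm)).mono (by omega)

theorem fac_all {α : Type*} [Fintype α] [DecidableEq α] (M : Matrix α α F) : Fac 32 M := by
  have e := (Fintype.equivFin α).symm
  exact Fac.of_submatrix e (fac_fin _ _)

end MP0775d3.Kron
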