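import Pool.Agent.Lib.MP_0775d3_lc.Kron.LDU

/-! Kronecker products of elementary matrices: concentration and counting. -/

set_option linter.unusedSectionVars false
set_option linter.unusedVariables false
set_option linter.deprecated false

namespace MP0775d3.Kron

open Matrix

variable {F : Type*} [Field F]

section
variable {ι : Type*} [Fintype ι] {I : ι → Type*}

/-- The Kronecker product of a finite family of square matrices. -/
def kron (M : ∀ i, Matrix (I i) (I i) F) : Matrix (∀ i, I i) (∀ i, I i) F :=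
  fun x y => ∏ i, M i (x i) (y i)

variable [DecidableEq ι] [∀ i, Fintype (I i)] [∀ i, DecidableEq (I i)]

theorem kron_mul (A B : ∀ i, Matrix (I i) (I i) F) :
    kron (fun i => A i * B i) = kron A * kron B := by
  ext x y
  rw [Matrix.mul_apply]
  simp only [kron, Matrix.mul_apply]
  rw [Fintype.prod_sum]
  refine Finset.sum_congr rfl fun z _ => ?_
  rw [Finset.prod_mul_distrib]

theorem kron_ne {M : ∀ i, Matrix (I i) (I i) F} {x y : ∀ i, I i} (h : kron M x y ≠ 0) (i : ι) :
    M i (x i) (y i) ≠ 0 := by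
  intro h0
  exact h (Finset.prod_eq_zero (Finset.mem_univ i) h0)

theorem IsMono.kron {M : ∀ i, Matrix (I i) (I i) F} (h : ∀ i, IsMono (M i)) :
    IsMono (kron M) := by
  constructor
  · intro x y z hy hz
    funext i
    exact (h i).1 _ _ _ (kron_ne hy i) (kron_ne hz i)
  · intro x y z hy hz
    funext i
    exact (h i).2 _ _ _ (kron_ne hy i) (kron_ne hz i)

/-- Exponential moment of one coordinate. -/
theorem moment_one {α : Type*} [Fintype α] (g : α → ℝ) (ℓ s : ℝ) (hs : 0 ≤ s) (h0 : ∑ a, g a = 0)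
    (hg : ∀ a, |g a| ≤ ℓ) (hsl : s * ℓ ≤ 1) :
    ∑ a, Real.exp (s * g a) ≤ Fintype.card α * Real.exp (s ^ 2 * ℓ ^ 2) := by
  have h1 : ∀ a, Real.exp (s * g a) ≤ 1 + s * g a + s ^ 2 * ℓ ^ 2 := by
    intro a
    have hb : |s * g a| ≤ s * ℓ := by
      rw [abs_mul, abs_of_nonneg hs]
      exact mul_le_mul_of_nonneg_left (hg a) hs
    have h2 := Real.abs_exp_sub_one_sub_id_le (hb.trans hsl)
    have h3 := (abs_le.mp h2).2
    have h4 : (s * g a) ^ 2 ≤ s ^ 2 * ℓ ^ 2 := by
      rw [← mul_pow, ← sq_abs (s * g a)]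
      exact pow_le_pow_left₀ (abs_nonneg _) hb 2
    linarith
  calc ∑ a, Real.exp (s * g a) ≤ ∑ a, (1 + s * g a + s ^ 2 * ℓ ^ 2) :=
        Finset.sum_le_sum fun a _ => h1 a
    _ = Fintype.card α * (1 + s ^ 2 * ℓ ^ 2) := by
        rw [Finset.sum_add_distrib, Finset.sum_add_distrib, ← Finset.mul_sum, h0]
        simp only [Finset.sum_const, Finset.card_univ, nsmul_eq_mul]
        ring
    _ ≤ Fintype.card α * Real.exp (s ^ 2 * ℓ ^ 2) := by
        refine mul_le_mul_of_nonneg_left ?_ (Nat.cast_nonneg _)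
        have := Real.add_one_le_exp (s ^ 2 * ℓ ^ 2)
        linarith

/-- One-sided tail bound for sums of independent centred coordinates. -/
theorem tail_one (g : ∀ i, I i → ℝ) (ℓ : ι → ℝ) (s t : ℝ) (hs : 0 ≤ s)
    (h0 : ∀ i, ∑ a, g i a = 0) (hg : ∀ i a, |g i a| ≤ ℓ i) (hsl : ∀ i, s * ℓ i ≤ 1) :
    (({x | t < ∑ i, g i (x i)} : Set (∀ i, I i)).ncard : ℝ) ≤
      Real.exp (-(s * t) + s ^ 2 * ∑ i, ℓ i ^ 2) * Fintype.card (∀ i, I i) := by
  classical
  have e1 : (({x | t < ∑ i, g i (x i)} : Set (∀ i, I i)).ncard : ℝ) =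
      ∑ x : ∀ i, I i, if t < ∑ i, g i (x i) then (1 : ℝ) else 0 := by
    rw [Finset.sum_boole, ← Set.ncard_coe_finset]
    congr 2
    ext x
    simp
  rw [e1]
  have e2 : ∀ x : ∀ i, I i, (if t < ∑ i, g i (x i) then (1 : ℝ) else 0) ≤
      Real.exp (-(s * t)) * ∏ i, Real.exp (s * g i (x i)) := by
    intro x
    rw [← Real.exp_sum, ← Finset.mul_sum, ← Real.exp_add]
    split_ifs with h
    · apply Real.one_le_exp
      nlinarith [mul_le_mul_of_nonneg_left h.le hs]
    · exact (Real.exp_pos _).le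
  calc (∑ x : ∀ i, I i, if t < ∑ i, g i (x i) then (1 : ℝ) else 0)
      ≤ ∑ x : ∀ i, I i, Real.exp (-(s * t)) * ∏ i, Real.exp (s * g i (x i)) :=
        Finset.sum_le_sum fun x _ => e2 x
    _ = Real.exp (-(s * t)) * ∏ i, ∑ a, Real.exp (s * g i a) := by
        rw [← Finset.mul_sum, Fintype.prod_sum]
    _ ≤ Real.exp (-(s * t)) * ∏ i, (Fintype.card (I i) * Real.exp (s ^ 2 * ℓ i ^ 2)) := by
        refine mul_le_mul_of_nonneg_left ?_ (Real.exp_pos _).le
        refine Finset.prod_le_prod (fun i _ => Finset.sum_nonneg fun a _ => (Real.exp_pos _).le)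
          fun i _ => moment_one (g i) (ℓ i) s hs (h0 i) (hg i) (hsl i)
    _ = Real.exp (-(s * t) + s ^ 2 * ∑ i, ℓ i ^ 2) * Fintype.card (∀ i, I i) := by
        rw [Finset.prod_mul_distrib, ← Real.exp_sum, Fintype.card_pi, Real.exp_add,
          Finset.mul_sum]
        push_cast
        ring

/-- Number of points differing from `x` in coordinates of small total log-size. -/
theorem count_near (x : ∀ i, I i) (N : ℕ) (t : ℝ) :
    (({y | ∑ i, (if x i = y i then (0 : ℝ) else Real.log (Fintype.card (I i))) ≤ t} :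
      Set (∀ i, I i)).ncard : ℝ) ≤
      Real.exp ((1 + N) * t + 2 * (1 / 2) ^ N * ∑ i, Real.log (Fintype.card (I i))) := by
  classical
  have e1 : (({y | ∑ i, (if x i = y i then (0 : ℝ) else Real.log (Fintype.card (I i))) ≤ t} :
      Set (∀ i, I i)).ncard : ℝ) =
      ∑ y : ∀ i, I i, if ∑ i, (if x i = y i then (0 : ℝ) else Real.log (Fintype.card (I i))) ≤ t
        then (1 : ℝ) else 0 := by
    rw [Finset.sum_boole, ← Set.ncard_coe_finset]
    congr 2
    ext y
    simp
  rw [e1]
  have hN : (0 : ℝ) ≤ 1 + N := by positivity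
  have e2 : ∀ y : ∀ i, I i,
      (if ∑ i, (if x i = y i then (0 : ℝ) else Real.log (Fintype.card (I i))) ≤ t
        then (1 : ℝ) else 0) ≤
      Real.exp ((1 + N) * t) * ∏ i, Real.exp (-((1 + N) *
        (if x i = y i then (0 : ℝ) else Real.log (Fintype.card (I i))))) := by
    intro y
    rw [← Real.exp_sum, ← Real.exp_add, Finset.sum_neg_distrib, ← Finset.mul_sum]
    split_ifs with h
    · apply Real.one_le_exp
      nlinarith [mul_le_mul_of_nonneg_left h hN]
    · exact (Real.exp_pos _).le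
  have e3 : ∀ i, ∑ b : I i, Real.exp (-((1 + N) *
        (if x i = b then (0 : ℝ) else Real.log (Fintype.card (I i))))) ≤
      Real.exp (2 * (1 / 2) ^ N * Real.log (Fintype.card (I i))) := by
    intro i
    have hpos : 0 < Fintype.card (I i) := Fintype.card_pos_iff.mpr ⟨x i⟩
    set d := Fintype.card (I i) with hd
    have hdpos : (0 : ℝ) < d := by exact_mod_cast hpos
    have f1 : ∑ b : I i, Real.exp (-((1 + N) *
        (if x i = b then (0 : ℝ) else Real.log d))) =
        1 + ((d : ℝ) - 1) * Real.exp (-((1 + N) * Real.log d)) := by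
      rw [← Finset.add_sum_erase _ _ (Finset.mem_univ (x i))]
      simp only [if_true, mul_zero, neg_zero, Real.exp_zero]
      congr 1
      rw [Finset.sum_congr rfl (g := fun _ => Real.exp (-((1 + N) * Real.log d)))]
      · rw [Finset.sum_const, Finset.card_erase_of_mem (Finset.mem_univ _), Finset.card_univ,
          ← hd, nsmul_eq_mul, Nat.cast_sub hpos]
        simp
      · intro b hb
        rw [if_neg (Finset.ne_of_mem_erase hb).symm]
    rw [f1]
    rcases Nat.lt_or_ge 1 d with h1 | h1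
    · -- d ≥ 2
      have hd2 : (2 : ℝ) ≤ d := by exact_mod_cast h1
      have g1 : Real.exp (-((1 + N) * Real.log d)) = 1 / (d : ℝ) ^ (N + 1) := by
        rw [Real.exp_neg, one_div]
        congr 1
        have : (1 + (N : ℝ)) * Real.log d = ((N + 1 : ℕ) : ℝ) * Real.log d := by
          push_cast; ring
        rw [this, ← Real.log_pow, Real.exp_log (by positivity)]
      rw [g1]
      have g2 : ((d : ℝ) - 1) * (1 / (d : ℝ) ^ (N + 1)) ≤ (1 / 2) ^ N := by
        have : ((d : ℝ) - 1) * (1 / (d : ℝ) ^ (N + 1)) ≤ 1 / (d : ℝ) ^ N := by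
          rw [pow_succ, mul_one_div, div_le_div_iff₀ (by positivity) (by positivity)]
          have : 0 < (d : ℝ) ^ N := by positivity
          nlinarith
        refine this.trans ?_
        rw [_root_.one_div_pow]
        exact one_div_le_one_div_of_le (by positivity) (pow_le_pow_left₀ (by norm_num) hd2 N)
      have g3 : (1 / 2 : ℝ) ^ N ≤ 2 * (1 / 2) ^ N * Real.log d := by
        have hl2 : (1 / 2 : ℝ) ≤ Real.log 2 := by
          have := Real.log_two_gt_d9
          linarith
        have hl : Real.log 2 ≤ Real.log d := Real.log_le_log (by norm_num) hd2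
        have : (0 : ℝ) < (1 / 2) ^ N := by positivity
        nlinarith
      have g4 := Real.add_one_le_exp (2 * (1 / 2) ^ N * Real.log d)
      linarith
    · have hd1 : d = 1 := le_antisymm h1 hpos
      rw [hd1]
      simp
  calc _ ≤ ∑ y : ∀ i, I i, Real.exp ((1 + N) * t) * ∏ i, Real.exp (-((1 + N) *
        (if x i = y i then (0 : ℝ) else Real.log (Fintype.card (I i))))) :=
        Finset.sum_le_sum fun y _ => e2 y
    _ = Real.exp ((1 + N) * t) * ∏ i, ∑ b : I i, Real.exp (-((1 + N) *
        (if x i = b then (0 : ℝ) else Real.log (Fintype.card (I i))))) := by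
        rw [← Finset.mul_sum, Fintype.prod_sum]
    _ ≤ Real.exp ((1 + N) * t) *
        ∏ i, Real.exp (2 * (1 / 2) ^ N * Real.log (Fintype.card (I i))) := by
        refine mul_le_mul_of_nonneg_left ?_ (Real.exp_pos _).le
        exact Finset.prod_le_prod (fun i _ => Finset.sum_nonneg fun a _ => (Real.exp_pos _).le)
          fun i _ => e3 i
    _ = _ := by
        rw [← Real.exp_sum, ← Real.exp_add, ← Finset.mul_sum]

end

end MP0775d3.Kron
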