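import Pool.Agent.Lib.MP_0775d3_lc.Kron.Layer

/-! Kronecker products of small matrices are of small rank up to sparse matrices. -/

set_option linter.unusedSectionVars false
set_option linter.unusedVariables false
set_option linter.deprecated false

namespace MP0775d3.Kron

open Matrix

variable {F : Type*} [Field F]

section
variable {ι : Type*} [Fintype ι] [DecidableEq ι] {I : ι → Type*} [∀ i, Fintype (I i)]
  [∀ i, DecidableEq (I i)]

/-- The total log-size. -/
noncomputable def logSize (I : ι → Type*) [∀ i, Fintype (I i)] : ℝ :=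
  ∑ i, Real.log (Fintype.card (I i))

theorem two_tails (g : ∀ i, I i → ℝ) (η ε : ℝ) (hη : 0 < η) (hε : 0 < ε) (hε1 : ε ≤ 1)
    (hΛ : 0 < logSize I) (hd : ∀ i, Real.log (Fintype.card (I i)) ≤ η * logSize I)
    (h0 : ∀ i, ∑ a, g i a = 0) (hg : ∀ i a, |g i a| ≤ Real.log (Fintype.card (I i))) :
    (({x | |∑ i, g i (x i)| ≤ ε * logSize I}ᶜ : Set (∀ i, I i)).ncard : ℝ) ≤
      2 * Real.exp (-(ε ^ 2 / (4 * η))) * Fintype.card (∀ i, I i) := by
  classical
  set Λ := logSize I with hΛdef
  have hl0 : ∀ i, 0 ≤ Real.log (Fintype.card (I i)) := fun i => Real.log_natCast_nonneg _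
  set s : ℝ := ε / (2 * η * Λ) with hs
  have hs0 : 0 ≤ s := by positivity
  have hsl : ∀ i, s * Real.log (Fintype.card (I i)) ≤ 1 := by
    intro i
    calc s * Real.log (Fintype.card (I i)) ≤ s * (η * Λ) :=
          mul_le_mul_of_nonneg_left (hd i) hs0
      _ = ε / 2 := by rw [hs]; field_simp
      _ ≤ 1 := by linarith
  have hsum : ∑ i, Real.log (Fintype.card (I i)) ^ 2 ≤ η * Λ ^ 2 := by
    calc ∑ i, Real.log (Fintype.card (I i)) ^ 2
        ≤ ∑ i, (η * Λ) * Real.log (Fintype.card (I i)) := by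
          refine Finset.sum_le_sum fun i _ => ?_
          rw [sq]
          exact mul_le_mul_of_nonneg_right (hd i) (hl0 i)
      _ = η * Λ ^ 2 := by
          rw [← Finset.mul_sum]
          change η * Λ * Λ = _
          ring
  have hexp : Real.exp (-(s * (ε * Λ)) + s ^ 2 * ∑ i, Real.log (Fintype.card (I i)) ^ 2) ≤
      Real.exp (-(ε ^ 2 / (4 * η))) := by
    apply Real.exp_le_exp.mpr
    have h1 : s ^ 2 * ∑ i, Real.log (Fintype.card (I i)) ^ 2 ≤ s ^ 2 * (η * Λ ^ 2) :=
      mul_le_mul_of_nonneg_left hsum (by positivity)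
    have h2 : s ^ 2 * (η * Λ ^ 2) = ε ^ 2 / (4 * η) := by
      rw [hs]; field_simp; norm_num
    have h3 : s * (ε * Λ) = ε ^ 2 / (2 * η) := by
      rw [hs]; field_simp
    have h4 : ε ^ 2 / (2 * η) = 2 * (ε ^ 2 / (4 * η)) := by field_simp; norm_num
    linarith
  have t1 := tail_one g (fun i => Real.log (Fintype.card (I i))) s (ε * Λ) hs0 h0 hg hsl
  have t2 := tail_one (fun i a => - g i a) (fun i => Real.log (Fintype.card (I i))) s (ε * Λ) hs0
    (fun i => by rw [Finset.sum_neg_distrib, h0 i, neg_zero])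
    (fun i a => by rw [abs_neg]; exact hg i a) hsl
  have hsub : ({x | |∑ i, g i (x i)| ≤ ε * Λ}ᶜ : Set (∀ i, I i)) ⊆
      {x | ε * Λ < ∑ i, g i (x i)} ∪ {x | ε * Λ < ∑ i, - g i (x i)} := by
    intro x hx
    simp only [Set.mem_compl_iff, Set.mem_setOf_eq, not_le] at hx
    rcases lt_abs.mp hx with h | h
    · exact Or.inl h
    · right
      show ε * Λ < ∑ i, - g i (x i)
      rw [Finset.sum_neg_distrib]
      exact h
  have hc : (({x | |∑ i, g i (x i)| ≤ ε * Λ}ᶜ : Set (∀ i, I i)).ncard : ℝ) ≤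
      (({x | ε * Λ < ∑ i, g i (x i)} : Set (∀ i, I i)).ncard : ℝ) +
        (({x | ε * Λ < ∑ i, - g i (x i)} : Set (∀ i, I i)).ncard : ℝ) := by
    exact_mod_cast (Set.ncard_le_ncard hsub (Set.toFinite _)).trans (Set.ncard_union_le _ _)
  have hcard : (0 : ℝ) ≤ Fintype.card (∀ i, I i) := Nat.cast_nonneg _
  have u1 := t1.trans (mul_le_mul_of_nonneg_right hexp hcard)
  have u2 := t2.trans (mul_le_mul_of_nonneg_right hexp hcard)
  linarith

/-- Arbitrary matrices supported on a product of elementary patterns. -/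
theorem layer_pattern (B : Matrix (∀ i, I i) (∀ i, I i) F) (Z : ∀ i, Set (I i))
    (hZ : ∀ x y, B x y ≠ 0 → ∀ i, x i = y i ∨ (x i ∉ Z i ∧ y i ∈ Z i)) (η ε : ℝ) (hη : 0 < η)
    (hε : 0 < ε) (hε1 : ε ≤ 1) (N : ℕ) (hΛ : 0 < logSize I)
    (hd : ∀ i, Real.log (Fintype.card (I i)) ≤ η * logSize I) :
    Dec B (4 * Real.exp (-(ε ^ 2 / (4 * η))) * Fintype.card (∀ i, I i))
      (Real.exp (((1 + N) * (2 * ε) + 2 * (1 / 2) ^ N) * logSize I)) := by
  classical
  have hl0 : ∀ i, 0 ≤ Real.log (Fintype.card (I i)) := fun i => Real.log_natCast_nonneg _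
  -- proportion of Z i
  let p : ι → ℝ := fun i => (∑ a : I i, if a ∈ Z i then (1 : ℝ) else 0) / Fintype.card (I i)
  let g : ∀ i, I i → ℝ := fun i a =>
    Real.log (Fintype.card (I i)) * ((if a ∈ Z i then (1 : ℝ) else 0) - p i)
  have hp0 : ∀ i, 0 ≤ p i := fun i => by
    apply div_nonneg _ (Nat.cast_nonneg _)
    exact Finset.sum_nonneg fun a _ => by split_ifs <;> norm_num
  have hp1 : ∀ i, p i ≤ 1 := fun i => by
    apply div_le_one_of_le₀ _ (Nat.cast_nonneg _)
    calc (∑ a : I i, if a ∈ Z i then (1 : ℝ) else 0) ≤ ∑ a : I i, (1 : ℝ) :=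
          Finset.sum_le_sum fun a _ => by split_ifs <;> norm_num
      _ = Fintype.card (I i) := by simp
  have h0 : ∀ i, ∑ a, g i a = 0 := by
    intro i
    by_cases hne : Nonempty (I i)
    · have hc : (Fintype.card (I i) : ℝ) ≠ 0 := by
        exact_mod_cast Fintype.card_ne_zero
      show ∑ a, Real.log (Fintype.card (I i)) * ((if a ∈ Z i then (1 : ℝ) else 0) - p i) = 0
      rw [← Finset.mul_sum, Finset.sum_sub_distrib, Finset.sum_const, Finset.card_univ,
        nsmul_eq_mul]
      have : (Fintype.card (I i) : ℝ) * p i = ∑ a : I i, if a ∈ Z i then (1 : ℝ) else 0 := by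
        show (Fintype.card (I i) : ℝ) * ((∑ a : I i, if a ∈ Z i then (1 : ℝ) else 0) /
          Fintype.card (I i)) = _
        field_simp
      rw [this, sub_self, mul_zero]
    · rw [not_nonempty_iff] at hne
      exact Finset.sum_of_isEmpty _
  have hg : ∀ i a, |g i a| ≤ Real.log (Fintype.card (I i)) := by
    intro i a
    show |Real.log (Fintype.card (I i)) * ((if a ∈ Z i then (1 : ℝ) else 0) - p i)| ≤ _
    rw [abs_mul, abs_of_nonneg (hl0 i)]
    have : |(if a ∈ Z i then (1 : ℝ) else 0) - p i| ≤ 1 := by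
      rw [abs_le]
      split_ifs <;> constructor <;> linarith [hp0 i, hp1 i]
    exact mul_le_of_le_one_right (hl0 i) this
  have htail := two_tails g η ε hη hε hε1 hΛ hd h0 hg
  set G : Set (∀ i, I i) := {x | |∑ i, g i (x i)| ≤ ε * logSize I} with hG
  -- nonzero entries between typical points
  have hnear : ∀ x ∈ G, ∀ y ∈ G, B x y ≠ 0 →
      ∑ i, (if x i = y i then (0 : ℝ) else Real.log (Fintype.card (I i))) ≤
        2 * ε * logSize I := by
    intro x hx y hy hxy
    have h1 : ∀ i, (if x i = y i then (0 : ℝ) else Real.log (Fintype.card (I i))) =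
        g i (y i) - g i (x i) := by
      intro i
      show _ = Real.log (Fintype.card (I i)) * ((if y i ∈ Z i then (1 : ℝ) else 0) - p i) -
        Real.log (Fintype.card (I i)) * ((if x i ∈ Z i then (1 : ℝ) else 0) - p i)
      rcases hZ x y hxy i with h | ⟨ha, hb⟩
      · rw [if_pos h, h]; ring
      · have hne : x i ≠ y i := fun h => ha (h ▸ hb)
        rw [if_neg hne, if_pos hb, if_neg ha]; ring
    rw [Finset.sum_congr rfl (fun i _ => h1 i), Finset.sum_sub_distrib]
    have hx' := (abs_le.mp (show |∑ i, g i (x i)| ≤ ε * logSize I from hx)).1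
    have hy' := (abs_le.mp (show |∑ i, g i (y i)| ≤ ε * logSize I from hy)).2
    linarith
  have hexpeq : Real.exp ((1 + N) * (2 * ε * logSize I) + 2 * (1 / 2) ^ N *
      ∑ i, Real.log (Fintype.card (I i))) =
      Real.exp (((1 + N) * (2 * ε) + 2 * (1 / 2) ^ N) * logSize I) := by
    congr 1
    change _ + 2 * (1 / 2) ^ N * logSize I = _
    ring
  have hdec := dec_of_typical B G
    (Real.exp (((1 + N) * (2 * ε) + 2 * (1 / 2) ^ N) * logSize I))
    (2 * Real.exp (-(ε ^ 2 / (4 * η))) * Fintype.card (∀ i, I i)) htail ?_ ?_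
    (Real.exp_pos _).le
  · refine hdec.mono ?_ le_rfl
    linarith
  · intro x hx
    rw [← hexpeq]
    refine le_trans ?_ (count_near x N (2 * ε * logSize I))
    have : ({y | y ∈ G ∧ B x y ≠ 0} : Set (∀ i, I i)) ⊆
        {y | ∑ i, (if x i = y i then (0 : ℝ) else Real.log (Fintype.card (I i))) ≤
          2 * ε * logSize I} := fun y hy => hnear x hx y hy.1 hy.2
    exact_mod_cast Set.ncard_le_ncard this (Set.toFinite _)
  · intro y hy
    rw [← hexpeq]
    refine le_trans ?_ (count_near y N (2 * ε * logSize I))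
    have : ({x | x ∈ G ∧ B x y ≠ 0} : Set (∀ i, I i)) ⊆
        {x | ∑ i, (if y i = x i then (0 : ℝ) else Real.log (Fintype.card (I i))) ≤
          2 * ε * logSize I} := by
      intro x hx
      have := hnear x hx.1 y hy hx.2
      simp only [Set.mem_setOf_eq]
      simp only [eq_comm] at this ⊢
      exact this
    exact_mod_cast Set.ncard_le_ncard this (Set.toFinite _)

/-- Kronecker products of elementary matrices. -/
theorem layer (E : ∀ i, Matrix (I i) (I i) F) (hE : ∀ i, IsElem (E i)) (η ε : ℝ) (hη : 0 < η)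
    (hε : 0 < ε) (hε1 : ε ≤ 1) (N : ℕ) (hΛ : 0 < logSize I)
    (hd : ∀ i, Real.log (Fintype.card (I i)) ≤ η * logSize I) :
    Dec (kron E) (4 * Real.exp (-(ε ^ 2 / (4 * η))) * Fintype.card (∀ i, I i))
      (Real.exp (((1 + N) * (2 * ε) + 2 * (1 / 2) ^ N) * logSize I)) := by
  choose Z hZ using hE
  exact layer_pattern (kron E) Z (fun x y hxy i => hZ i _ _ (kron_ne hxy i)) η ε hη hε hε1 N hΛ hd

/-- Kronecker products of matrices with `t` elementary factors. -/
theorem dec_of_fac (t : ℕ) (M : ∀ i, Matrix (I i) (I i) F) (hM : ∀ i, Fac t (M i)) (r s : ℝ)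
    (hs : 0 ≤ s)
    (hlayer : ∀ E : ∀ i, Matrix (I i) (I i) F, (∀ i, IsElem (E i)) → Dec (kron E) r s) :
    Dec (kron M) (t * r) (s ^ t) := by
  induction t generalizing M with
  | zero =>
    have : IsMono (kron M) := IsMono.kron fun i => hM i
    refine this.dec.mono ?_ ?_ <;> simp
  | succ t ih =>
    choose A E N hMe hA hE hN using hM
    have e : M = fun i => A i * E i * N i := funext hMe
    have e2 : kron M = kron A * kron E * kron N := by
      rw [e, kron_mul, kron_mul]
    rw [e2]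
    have h1 := ih A hA
    have h2 := hlayer E hE
    have h3 := (IsMono.kron hN).dec
    have hst : 0 ≤ s ^ t := pow_nonneg hs t
    have h4 := (Dec.mul (Dec.mul h1 h2 (hs := hst) (hs' := hs)) h3 (hs := mul_nonneg hst hs)
      (hs' := zero_le_one))
    refine h4.mono ?_ ?_
    · push_cast; linarith
    · rw [pow_succ, mul_one]

end

end MP0775d3.Kron
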