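import Pool.Agent.Lib.MP_0775d3_lc.Kron.Normal

/-! Composed matrices and products with sparse matrices. -/

set_option linter.unusedSectionVars false
set_option linter.unusedVariables false
set_option linter.deprecated false

namespace MP0775d3.Kron

open Matrix

variable {F : Type*} [Field F]

section
variable {ι : Type*} [Fintype ι] [DecidableEq ι] {I : ι → Type*}

/-- Combination of Kronecker products of `M i` and `N i`. -/
def mix (Φ : (ι → Bool) → F) (M N : ∀ i, Matrix (I i) (I i) F) :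
    Matrix (∀ i, I i) (∀ i, I i) F :=
  ∑ T : ι → Bool, Φ T • kron (fun i => if T i then M i else N i)

variable [∀ i, Fintype (I i)] [∀ i, DecidableEq (I i)]

theorem mix_mul (Φ : (ι → Bool) → F) (P D D' Q : ∀ i, Matrix (I i) (I i) F) :
    mix Φ (fun i => P i * D i * Q i) (fun i => P i * D' i * Q i) =
      kron P * mix Φ D D' * kron Q := by
  unfold mix
  rw [Finset.mul_sum, Finset.sum_mul]
  refine Finset.sum_congr rfl fun T _ => ?_
  rw [Matrix.mul_smul, Matrix.smul_mul, ← kron_mul, ← kron_mul]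
  congr 2
  funext i
  split_ifs <;> rfl

theorem mix_supp (Φ : (ι → Bool) → F) (D D' : ∀ i, Matrix (I i) (I i) F) (Z : ∀ i, Set (I i))
    (hD : ∀ i, SuppOn (Z i) (D i)) (hD' : ∀ i, SuppOn (Z i) (D' i)) (x y : ∀ i, I i)
    (h : mix Φ D D' x y ≠ 0) (i : ι) : x i = y i ∨ (x i ∉ Z i ∧ y i ∈ Z i) := by
  unfold mix at h
  rw [Matrix.sum_apply] at h
  obtain ⟨T, _, hT⟩ := Finset.exists_ne_zero_of_sum_ne_zero h
  rw [Matrix.smul_apply, smul_eq_mul] at hT
  have h1 := kron_ne (right_ne_zero_of_mul hT) i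
  split_ifs at h1
  · exact hD i _ _ h1
  · exact hD' i _ _ h1

/-- The main decomposition. -/
theorem dec_mix (Φ : (ι → Bool) → F) (M : ∀ i, Matrix (I i) (I i) F) (a b : ∀ i, I i → F)
    (η ε : ℝ) (hη : 0 < η) (hε : 0 < ε) (hε1 : ε ≤ 1) (N : ℕ) (hΛ : 0 < logSize I)
    (hd : ∀ i, Real.log (Fintype.card (I i)) ≤ η * logSize I) :
    Dec (mix Φ M (fun i => Matrix.vecMulVec (a i) (b i)))
      (65 * (4 * Real.exp (-(ε ^ 2 / (4 * η))) * Fintype.card (∀ i, I i)))
      (Real.exp (((1 + N) * (2 * ε) + 2 * (1 / 2) ^ N) * logSize I) ^ 65) := by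
  choose P Q D D' Z hM hab hD hD' using fun i => exists_normal (M i) (a i) (b i)
  have e : mix Φ M (fun i => Matrix.vecMulVec (a i) (b i)) =
      kron P * mix Φ D D' * kron Q := by
    rw [← mix_mul]
    congr 1
    · funext i; exact hM i
    · funext i; exact hab i
  rw [e]
  set r := 4 * Real.exp (-(ε ^ 2 / (4 * η))) * Fintype.card (∀ i, I i) with hr
  set s := Real.exp (((1 + N) * (2 * ε) + 2 * (1 / 2) ^ N) * logSize I) with hs
  have hs0 : 0 ≤ s := (Real.exp_pos _).le
  have hl : ∀ E : ∀ i, Matrix (I i) (I i) F, (∀ i, IsElem (E i)) → Dec (kron E) r s :=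
    fun E hE => layer E hE η ε hη hε hε1 N hΛ hd
  have h1 := dec_of_fac 32 P (fun i => fac_all (P i)) r s hs0 hl
  have h2 := dec_of_fac 32 Q (fun i => fac_all (Q i)) r s hs0 hl
  have h3 := layer_pattern (mix Φ D D') Z
    (fun x y hxy i => mix_supp Φ D D' Z hD hD' x y hxy i) η ε hη hε hε1 N hΛ hd
  have hp : (0 : ℝ) ≤ s ^ 32 := pow_nonneg hs0 _
  have h4 := Dec.mul (mul_nonneg hp hs0) hp (Dec.mul hp hs0 h1 h3) h2
  refine h4.mono ?_ ?_
  · push_cast
    linarith
  · rw [← pow_succ, ← pow_add]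

end

section
variable {X Y : Type*} [Fintype X] [DecidableEq X] [Fintype Y] [DecidableEq Y]

theorem Dec.submatrix {A : Matrix Y Y F} {r s : ℝ} (h : Dec A r s) (e e' : X ≃ Y) :
    Dec (A.submatrix e e') r s := by
  obtain ⟨R, S, rfl, h2, h3⟩ := h
  refine ⟨R.submatrix e e', S.submatrix e e', rfl, ?_, ?_, ?_⟩
  · rw [Matrix.rank_submatrix]; exact h2
  · intro x
    have : ({y | S.submatrix e e' x y ≠ 0} : Set X) = e' ⁻¹' {z | S (e x) z ≠ 0} := rfl
    rw [this, Set.ncard_preimage_of_injective_subset_range e'.injective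
      (by rw [e'.surjective.range_eq]; exact Set.subset_univ _)]
    exact h3.1 (e x)
  · intro y
    have : ({x | S.submatrix e e' x y ≠ 0} : Set X) = e ⁻¹' {z | S z (e' y) ≠ 0} := rfl
    rw [this, Set.ncard_preimage_of_injective_subset_range e.injective
      (by rw [e.surjective.range_eq]; exact Set.subset_univ _)]
    exact h3.2 (e' y)

theorem dec_small (A : Matrix X X F) (h : Fintype.card X ≤ 1) : Dec A 0 1 := by
  refine Sparse.dec ⟨fun x => ?_, fun y => ?_⟩
  · have : ({y | A x y ≠ 0} : Set X).ncard ≤ 1 :=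
      (Set.ncard_le_card _).trans (by rwa [Nat.card_eq_fintype_card])
    exact_mod_cast this
  · have : ({x | A x y ≠ 0} : Set X).ncard ≤ 1 :=
      (Set.ncard_le_card _).trans (by rwa [Nat.card_eq_fintype_card])
    exact_mod_cast this

theorem Composed.dec {η : ℝ} (hη : 0 < η) {A : Matrix X X F} (h : Composed η A) (δ : ℝ) (N : ℕ)
    (hδ : 0 < δ) (hδ1 : δ ≤ 1) (hN : 260 ≤ δ * 2 ^ N) :
    Dec A (260 * Real.exp (-((δ / (520 * (N + 1))) ^ 2 / η)) * Fintype.card X)
      ((Fintype.card X : ℝ) ^ δ) := by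
  classical
  rcases Nat.lt_or_ge 1 (Fintype.card X) with hX | hX
  swap
  · rcases Nat.lt_or_ge 0 (Fintype.card X) with hX0 | hX0
    · have h1 : Fintype.card X = 1 := le_antisymm hX hX0
      refine (dec_small A hX).mono (by positivity) ?_
      rw [h1]; simp
    · have h0 : IsEmpty X := Fintype.card_eq_zero_iff.mp (Nat.le_zero.mp hX0)
      refine ⟨0, A, by rw [zero_add], ?_, fun x => h0.elim x, fun y => h0.elim y⟩
      rw [Matrix.rank_zero, Nat.cast_zero]
      positivity
  obtain ⟨ι, _, _, I, _, e, e', M, a, b, Φ, hI, hA⟩ := h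
  have hXpos : (0 : ℝ) < Fintype.card X := by positivity
  have hcard : Fintype.card X = Fintype.card (∀ i, I i) := Fintype.card_congr e
  have hne : ∀ i, 0 < Fintype.card (I i) := by
    intro i
    obtain ⟨x⟩ : Nonempty X := Fintype.card_pos_iff.mp (by omega)
    exact Fintype.card_pos_iff.mpr ⟨e x i⟩
  have hlog : logSize I = Real.log (Fintype.card X) := by
    unfold logSize
    rw [hcard, Fintype.card_pi]
    push_cast
    rw [Real.log_prod]
    intro i _
    exact_mod_cast (hne i).ne'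
  have hΛ : 0 < logSize I := by
    rw [hlog]
    exact Real.log_pos (by exact_mod_cast hX)
  have hd : ∀ i, Real.log (Fintype.card (I i)) ≤ η * logSize I := by
    intro i
    rw [hlog, ← Real.log_rpow hXpos]
    exact Real.log_le_log (by exact_mod_cast hne i) (hI i)
  have hA' : A = (mix Φ M (fun i => Matrix.vecMulVec (a i) (b i))).submatrix e e' := by
    ext x y
    rw [hA, Matrix.submatrix_apply]
    unfold mix
    rw [Matrix.sum_apply]
    refine Finset.sum_congr rfl fun T _ => ?_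
    rw [Matrix.smul_apply, smul_eq_mul]
    congr 1
    refine Finset.prod_congr rfl fun i _ => ?_
    change _ = (if T i then M i else Matrix.vecMulVec (a i) (b i)) (e x i) (e' y i)
    by_cases hT : T i = true
    · rw [if_pos hT, if_pos hT]
    · rw [if_neg hT, if_neg hT, Matrix.vecMulVec_apply]
  rw [hA']
  set ε : ℝ := δ / (260 * (N + 1)) with hε
  have hN1 : (0 : ℝ) < N + 1 := by positivity
  have hε0 : 0 < ε := by positivity
  have hε1 : ε ≤ 1 := by
    rw [hε, div_le_one (by positivity)]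
    have : (1 : ℝ) ≤ 260 * (N + 1) := by
      have : (0 : ℝ) ≤ N := Nat.cast_nonneg _
      linarith
    linarith
  have h1 := (dec_mix Φ M a b η ε hη hε0 hε1 N hΛ hd).submatrix e e'
  refine h1.mono (le_of_eq ?_) ?_
  · rw [← hcard]
    have : ε ^ 2 / (4 * η) = (δ / (520 * (N + 1))) ^ 2 / η := by
      rw [hε]; field_simp; norm_num
    rw [this]; ring
  · rw [← Real.exp_nat_mul, Real.rpow_def_of_pos hXpos, ← hlog]
    apply Real.exp_le_exp.mpr
    have h2 : ((65 : ℕ) : ℝ) * ((1 + N) * (2 * ε) + 2 * (1 / 2) ^ N) ≤ δ := by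
      have h3 : (65 : ℝ) * ((1 + N) * (2 * ε)) = δ / 2 := by
        rw [hε]; field_simp; ring
      have h4 : (65 : ℝ) * (2 * (1 / 2) ^ N) ≤ δ / 2 := by
        have h5 : (0 : ℝ) < 2 ^ N := by positivity
        have h6 : ((1 : ℝ) / 2) ^ N = 1 / 2 ^ N := by rw [_root_.one_div_pow]
        rw [h6]
        have : (65 : ℝ) * (2 * (1 / 2 ^ N)) = 130 / 2 ^ N := by ring
        rw [this, div_le_div_iff₀ h5 (by norm_num)]
        linarith
      push_cast
      linarith
    calc ((65 : ℕ) : ℝ) * (((1 + N) * (2 * ε) + 2 * (1 / 2) ^ N) * logSize I)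
        = (((65 : ℕ) : ℝ) * ((1 + N) * (2 * ε) + 2 * (1 / 2) ^ N)) * logSize I := by ring
      _ ≤ δ * logSize I := mul_le_mul_of_nonneg_right h2 hΛ.le
      _ = logSize I * δ := mul_comm _ _

theorem dec_prod {r s : ℝ} (hs : 0 ≤ s) (m : ℕ) (A : Fin m → Matrix X X F)
    (hA : ∀ j, Dec (A j) r s) : Dec (List.ofFn A).prod (m * r) (s ^ m) := by
  induction m with
  | zero =>
    simp only [List.ofFn_zero, List.prod_nil]
    refine isMono_one.dec.mono ?_ ?_ <;> simp
  | succ m ih =>
    rw [List.ofFn_succ, List.prod_cons]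
    have h1 := Dec.mul hs (pow_nonneg hs m) (hA 0) (ih (fun j => A j.succ) fun j => hA j.succ)
    refine h1.mono ?_ ?_
    · push_cast; linarith
    · rw [pow_succ']

/-- Products of composed matrices and sparse matrices. -/
theorem main {η : ℝ} (hη : 0 < η) (δ : ℝ) (N : ℕ) (hδ : 0 < δ) (hδ1 : δ ≤ 1)
    (hN : 260 ≤ δ * 2 ^ N) (s : ℝ) (hs : 0 ≤ s) (m : ℕ) (W B : Fin m → Matrix X X F)
    (hW : ∀ j, Composed η (W j)) (hB : ∀ j, Sparse (B j) s) :
    Dec (List.ofFn fun j => W j * B j).prod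
      (m * (260 * Real.exp (-((δ / (520 * (N + 1))) ^ 2 / η)) * Fintype.card X))
      ((s * (Fintype.card X : ℝ) ^ δ) ^ m) := by
  have hn : (0 : ℝ) ≤ (Fintype.card X : ℝ) ^ δ := Real.rpow_nonneg (Nat.cast_nonneg _) _
  refine dec_prod (mul_nonneg hs hn) m _ fun j => ?_
  have h1 := Dec.mul hn hs ((hW j).dec hη δ N hδ hδ1 hN) (hB j).dec
  refine h1.mono ?_ ?_
  · rw [add_zero]
  · rw [mul_comm]

end

end MP0775d3.Kron
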