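import Pool.Agent.Lib.MP_0775d3_lc.Kron.Main

/-! Simultaneous normal form of a matrix and a matrix of rank one. -/

set_option linter.unusedSectionVars false
set_option linter.unusedVariables false
set_option linter.deprecated false

namespace MP0775d3.Kron

open Matrix

variable {F : Type*} [Field F]

section
variable {α : Type*} [Fintype α] [DecidableEq α]

/-- Supported on the diagonal and on `Zᶜ × Z`. -/
def SuppOn (Z : Set α) (D : Matrix α α F) : Prop :=
  ∀ a b, D a b ≠ 0 → a = b ∨ (a ∉ Z ∧ b ∈ Z)

theorem suppOn_diagonal (Z : Set α) (d : α → F) : SuppOn Z (Matrix.diagonal d) := by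
  intro a b h
  left
  by_contra hab
  exact h (Matrix.diagonal_apply_ne _ hab)

theorem exists_PDQ (M : Matrix α α F) : ∃ (P Q : Matrix α α F) (d : α → F),
    P.det = 1 ∧ Q.det = 1 ∧ M = P * Matrix.diagonal d * Q := by
  obtain ⟨L, L', D, h⟩ := Matrix.Pivot.exists_list_transvec_mul_diagonal_mul_list_transvec M
  exact ⟨_, _, D, TransvectionStruct.det_toMatrix_prod _, TransvectionStruct.det_toMatrix_prod _, h⟩

theorem mul_diag_single_mul (P Q : Matrix α α F) (z : α) :
    P * Matrix.diagonal (Pi.single z 1) * Q = Matrix.vecMulVec (fun i => P i z) (Q z) := by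
  ext i j
  rw [Matrix.mul_apply, Finset.sum_eq_single z]
  · simp [Matrix.mul_diagonal, Matrix.vecMulVec_apply]
  · intro k _ hk
    rw [Matrix.mul_diagonal, Pi.single_eq_of_ne hk, mul_zero, zero_mul]
  · intro h; exact absurd (Finset.mem_univ _) h

/-- Singular case: both matrices become diagonal. -/
theorem normal_singular (M : Matrix α α F) (hM : M.det = 0) (a b : α → F) :
    ∃ (P Q : Matrix α α F) (d d' : α → F),
      M = P * Matrix.diagonal d * Q ∧ Matrix.vecMulVec a b = P * Matrix.diagonal d' * Q := by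
  obtain ⟨P₀, Q₀, d, hP, hQ, h⟩ := exists_PDQ M
  have hd : ∃ z, d z = 0 := by
    rw [h, Matrix.det_mul, Matrix.det_mul, hP, hQ, one_mul, mul_one, Matrix.det_diagonal] at hM
    obtain ⟨z, _, hz⟩ := Finset.prod_eq_zero_iff.mp hM
    exact ⟨z, hz⟩
  obtain ⟨z, hz⟩ := hd
  refine ⟨P₀.updateCol z a, Q₀.updateRow z b, d, Pi.single z 1, ?_, ?_⟩
  · rw [h]
    ext i j
    rw [Matrix.mul_apply, Matrix.mul_apply]
    refine Finset.sum_congr rfl fun k _ => ?_
    rw [Matrix.mul_diagonal, Matrix.mul_diagonal]
    by_cases hk : k = z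
    · rw [hk, hz]; simp
    · rw [Matrix.updateCol_ne hk, Matrix.updateRow_ne hk]
  · rw [mul_diag_single_mul]
    ext i j
    simp [Matrix.vecMulVec_apply]

theorem det_updateCol_one (p : α) (v : α → F) :
    ((1 : Matrix α α F).updateCol p v).det = v p := by
  rw [← Matrix.cramer_apply, Matrix.cramer_one]
  rfl

theorem det_updateRow_one (q : α) (v : α → F) :
    ((1 : Matrix α α F).updateRow q v).det = v q := by
  rw [← Matrix.det_transpose, ← Matrix.updateCol_transpose, Matrix.transpose_one,
    det_updateCol_one]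

/-- The normal form. -/
theorem exists_normal (M : Matrix α α F) (a b : α → F) :
    ∃ (P Q D D' : Matrix α α F) (Z : Set α), M = P * D * Q ∧
      Matrix.vecMulVec a b = P * D' * Q ∧ SuppOn Z D ∧ SuppOn Z D' := by
  by_cases hM : M.det = 0
  · obtain ⟨P, Q, d, d', h1, h2⟩ := normal_singular M hM a b
    exact ⟨P, Q, _, _, ∅, h1, h2, suppOn_diagonal _ _, suppOn_diagonal _ _⟩
  have hMu : IsUnit M.det := isUnit_iff_ne_zero.mpr hM
  set a' : α → F := M⁻¹ *ᵥ a with ha'
  have haa : M *ᵥ a' = a := by
    rw [ha', Matrix.mulVec_mulVec, Matrix.mul_nonsing_inv _ hMu, Matrix.one_mulVec]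
  set τ : F := b ⬝ᵥ a' with hτ
  by_cases hτ0 : τ = 0
  · by_cases hb : b = 0
    · refine ⟨M, 1, 1, 0, ∅, by simp, ?_, ?_, ?_⟩
      · rw [hb]; ext i j; simp [Matrix.vecMulVec_apply]
      · rw [← Matrix.diagonal_one]; exact suppOn_diagonal _ _
      · intro x y h; exact absurd rfl h
    by_cases haz : a' = 0
    · have ha0 : a = 0 := by rw [← haa, haz, Matrix.mulVec_zero]
      refine ⟨M, 1, 1, 0, ∅, by simp, ?_, ?_, ?_⟩
      · rw [ha0]; ext i j; simp [Matrix.vecMulVec_apply]
      · rw [← Matrix.diagonal_one]; exact suppOn_diagonal _ _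
      · intro x y h; exact absurd rfl h
    obtain ⟨q, hq⟩ : ∃ q, b q ≠ 0 := by
      by_contra hcon
      push Not at hcon
      exact hb (funext hcon)
    obtain ⟨p, hp, hpq⟩ : ∃ p, a' p ≠ 0 ∧ p ≠ q := by
      by_contra hcon
      push Not at hcon
      -- a' is supported at q
      have h1 : τ = b q * a' q := by
        rw [hτ]
        show ∑ i, b i * a' i = _
        refine Finset.sum_eq_single q ?_ ?_
        · intro k _ hk
          have : a' k = 0 := by
            by_contra h0
            exact hk (hcon k h0)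
          rw [this, mul_zero]
        · intro h; exact absurd (Finset.mem_univ _) h
      rw [hτ0] at h1
      have h2 : a' q = 0 := by
        rcases mul_eq_zero.mp h1.symm with h | h
        · exact absurd h hq
        · exact h
      apply haz
      funext k
      by_contra h0
      have hk := hcon k h0
      rw [hk] at h0
      exact h0 h2
    set R : Matrix α α F := (1 : Matrix α α F).updateRow q b with hR
    set v : α → F := R *ᵥ a' with hv
    set C : Matrix α α F := (1 : Matrix α α F).updateCol p v with hC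
    have hvq : v q = 0 := by
      show (R q) ⬝ᵥ a' = 0
      rw [hR, Matrix.updateRow_self]
      exact hτ0
    have hvp : v p = a' p := by
      show (R p) ⬝ᵥ a' = a' p
      rw [hR, Matrix.updateRow_ne hpq]
      show ∑ i, (1 : Matrix α α F) p i * a' i = a' p
      simp [Matrix.one_apply]
    have hRu : IsUnit R.det := by
      rw [hR, det_updateRow_one]; exact isUnit_iff_ne_zero.mpr hq
    have hCu : IsUnit C.det := by
      rw [hC, det_updateCol_one, hvp]; exact isUnit_iff_ne_zero.mpr hp
    have hCC : C * C⁻¹ = 1 := Matrix.mul_nonsing_inv _ hCu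
    have hRR : R⁻¹ * R = 1 := Matrix.nonsing_inv_mul _ hRu
    refine ⟨M * (R⁻¹ * C), C⁻¹ * R, 1, Matrix.vecMulVec (Pi.single p 1) (Pi.single q 1), {q},
      ?_, ?_, ?_, ?_⟩
    · calc M = M * (R⁻¹ * (C * C⁻¹) * R) := by rw [hCC, Matrix.mul_one, hRR, Matrix.mul_one]
        _ = _ := by simp only [Matrix.mul_assoc, Matrix.mul_one]
    · rw [Matrix.mul_vecMulVec, Matrix.vecMulVec_mul]
      have e1 : (M * (R⁻¹ * C)) *ᵥ (Pi.single p 1) = a := by
        rw [← Matrix.mulVec_mulVec, ← Matrix.mulVec_mulVec]
        have : C *ᵥ (Pi.single p 1) = v := by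
          rw [Matrix.mulVec_single_one]
          funext i
          show C i p = v i
          rw [hC, Matrix.updateCol_self]
        have h5 : R⁻¹ *ᵥ (R *ᵥ a') = a' := by
          rw [Matrix.mulVec_mulVec, hRR, Matrix.one_mulVec]
        rw [this, hv, h5, haa]
      have e2 : (Pi.single q (1 : F)) ᵥ* (C⁻¹ * R) = b := by
        have h3 : (Pi.single q (1 : F)) ᵥ* C = Pi.single q 1 := by
          rw [Matrix.single_one_vecMul]
          funext j
          show C q j = _
          by_cases hj : j = p
          · rw [hj, hC, Matrix.updateCol_self, hvq, Pi.single_eq_of_ne hpq]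
          · rw [hC, Matrix.updateCol_ne hj, Matrix.one_apply]
            by_cases hjq : j = q
            · rw [hjq]; simp
            · rw [if_neg (fun h => hjq h.symm), Pi.single_eq_of_ne hjq]
        have h4 : (Pi.single q (1 : F)) ᵥ* C⁻¹ = Pi.single q 1 := by
          conv_lhs => rw [← h3]
          rw [Matrix.vecMul_vecMul, hCC, Matrix.vecMul_one]
        rw [← Matrix.vecMul_vecMul, h4, Matrix.single_one_vecMul]
        show R q = b
        rw [hR, Matrix.updateRow_self]
      rw [e1, e2]
    · rw [← Matrix.diagonal_one]; exact suppOn_diagonal _ _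
    · intro x y h
      rw [Matrix.vecMulVec_apply] at h
      have h1 := left_ne_zero_of_mul h
      have h2 := right_ne_zero_of_mul h
      have hx : x = p := by by_contra h0; exact h1 (Pi.single_eq_of_ne h0 _)
      have hy : y = q := by by_contra h0; exact h2 (Pi.single_eq_of_ne h0 _)
      right
      rw [hx, hy]
      exact ⟨hpq, rfl⟩
  · set M' : Matrix α α F := M - τ⁻¹ • Matrix.vecMulVec a b with hM'
    have hsing : M'.det = 0 := by
      rw [← Matrix.exists_mulVec_eq_zero_iff]
      refine ⟨a', ?_, ?_⟩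
      · intro h0
        apply hτ0
        rw [hτ, h0, dotProduct_zero]
      · rw [hM', Matrix.sub_mulVec, haa, Matrix.smul_mulVec, Matrix.vecMulVec_mulVec]
        funext i
        simp only [Pi.sub_apply, Pi.smul_apply, smul_eq_mul, MulOpposite.smul_eq_mul_unop,
          MulOpposite.unop_op, Pi.zero_apply]
        rw [← hτ]
        field_simp
        simp
    obtain ⟨P, Q, d, d', h1, h2⟩ := normal_singular M' hsing a b
    refine ⟨P, Q, Matrix.diagonal d + τ⁻¹ • Matrix.diagonal d', Matrix.diagonal d', ∅, ?_, h2, ?_,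
      suppOn_diagonal _ _⟩
    · rw [Matrix.mul_add, Matrix.add_mul, ← h1, Matrix.mul_smul, Matrix.smul_mul, ← h2, hM']
      abel
    · rw [← Matrix.diagonal_smul, Matrix.diagonal_add]
      exact suppOn_diagonal _ _

end

end MP0775d3.Kron
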