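import Pool.Agent.Lib.MP_0775d3_lc.Kron.Toep

/-! The tensor power trick. -/

set_option linter.unusedSectionVars false
set_option linter.unusedVariables false
set_option linter.deprecated false

namespace MP0775d3.Kron

open Matrix

section
variable {F : Type*} [Field F]
variable {X : Type*} [Fintype X] [DecidableEq X]

theorem Sparse.add {S S' : Matrix X X F} {s s' : ℝ} (h : Sparse S s) (h' : Sparse S' s') :
    Sparse (S + S') (s + s') := by
  have key : ∀ (f g : X → F), (({y | f y + g y ≠ 0} : Set X).ncard : ℝ) ≤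
      (({y | f y ≠ 0} : Set X).ncard : ℝ) + (({y | g y ≠ 0} : Set X).ncard : ℝ) := by
    intro f g
    have h1 : ({y | f y + g y ≠ 0} : Set X) ⊆ {y | f y ≠ 0} ∪ {y | g y ≠ 0} := by
      intro y hy
      by_contra hcon
      simp only [Set.mem_union, Set.mem_setOf_eq, not_or, not_not] at hcon hy
      exact hy (by rw [hcon.1, hcon.2, add_zero])
    have h2 := (Set.ncard_le_ncard h1 (Set.toFinite _)).trans (Set.ncard_union_le _ _)
    exact_mod_cast h2
  exact ⟨fun x => (key (S x) (S' x)).trans (add_le_add (h.1 x) (h'.1 x)),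
    fun y => (key (fun x => S x y) (fun x => S' x y)).trans (add_le_add (h.2 y) (h'.2 y))⟩

theorem sparse_zero : Sparse (0 : Matrix X X F) 0 := by
  constructor <;> intro x <;> simp

theorem sparse_sum {κ : Type*} (s : Finset κ) (S : κ → Matrix X X F) (a : ℝ)
    (h : ∀ k ∈ s, Sparse (S k) a) : Sparse (∑ k ∈ s, S k) (s.card * a) := by
  classical
  induction s using Finset.induction_on with
  | empty => simpa using sparse_zero
  | insert k s hk ih =>
    rw [Finset.sum_insert hk, Finset.card_insert_of_notMem hk]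
    have h1 := (h k (Finset.mem_insert_self _ _)).add
      (ih (fun j hj => h j (Finset.mem_insert_of_mem hj)))
    refine h1.mono (le_of_eq ?_)
    push_cast
    ring

theorem rank_sum_le {κ : Type*} (s : Finset κ) (R : κ → Matrix X X F) (a : ℝ)
    (h : ∀ k ∈ s, ((R k).rank : ℝ) ≤ a) : (((∑ k ∈ s, R k).rank : ℕ) : ℝ) ≤ s.card * a := by
  classical
  induction s using Finset.induction_on with
  | empty => simp
  | insert k s hk ih =>
    rw [Finset.sum_insert hk, Finset.card_insert_of_notMem hk]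
    have h1 : (((R k + ∑ j ∈ s, R j).rank : ℕ) : ℝ) ≤ (R k).rank + ((∑ j ∈ s, R j).rank : ℕ) := by
      exact_mod_cast rank_add_le _ _
    have h2 := h k (Finset.mem_insert_self _ _)
    have h3 := ih (fun j hj => h j (Finset.mem_insert_of_mem hj))
    push_cast
    linarith

end

section
variable {F : Type*} [Field F]
variable {ι : Type*} [Fintype ι] [DecidableEq ι] {I : ι → Type*} [∀ i, Fintype (I i)]
  [∀ i, DecidableEq (I i)]

theorem ncard_pi (Q : ∀ i, Set (I i)) :
    ({y | ∀ i, y i ∈ Q i} : Set (∀ i, I i)).ncard = ∏ i, (Q i).ncard := by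
  classical
  have h1 : ({y | ∀ i, y i ∈ Q i} : Set (∀ i, I i)) =
      ((Fintype.piFinset fun i => (Q i).toFinite.toFinset : Finset (∀ i, I i)) :
        Set (∀ i, I i)) := by
    ext y
    rw [Finset.mem_coe, Fintype.mem_piFinset]
    constructor
    · intro h i
      exact (Set.Finite.mem_toFinset _).mpr (h i)
    · intro h i
      exact (Set.Finite.mem_toFinset _).mp (h i)
  rw [h1, Set.ncard_coe_finset, Fintype.card_piFinset]
  refine Finset.prod_congr rfl fun i _ => ?_
  rw [Set.ncard_eq_toFinset_card _ (Q i).toFinite]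

theorem Sparse.kron {M : ∀ i, Matrix (I i) (I i) F} {σ : ι → ℝ} (h : ∀ i, Sparse (M i) (σ i)) :
    Sparse (kron M) (∏ i, σ i) := by
  constructor
  · intro x
    have h1 : ({y | Kron.kron M x y ≠ 0} : Set (∀ i, I i)) ⊆
        {y | ∀ i, y i ∈ ({z | M i (x i) z ≠ 0} : Set (I i))} := by
      intro y hy i
      exact kron_ne hy i
    have h2 := Set.ncard_le_ncard h1 (Set.toFinite _)
    rw [ncard_pi] at h2
    calc ((({y | Kron.kron M x y ≠ 0} : Set (∀ i, I i)).ncard : ℕ) : ℝ)
        ≤ ((∏ i, ({z | M i (x i) z ≠ 0} : Set (I i)).ncard : ℕ) : ℝ) := by exact_mod_cast h2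
      _ = ∏ i, ((({z | M i (x i) z ≠ 0} : Set (I i)).ncard : ℕ) : ℝ) := by push_cast; rfl
      _ ≤ ∏ i, σ i := Finset.prod_le_prod (fun i _ => Nat.cast_nonneg _) (fun i _ => (h i).1 (x i))
  · intro y
    have h1 : ({x | Kron.kron M x y ≠ 0} : Set (∀ i, I i)) ⊆
        {x | ∀ i, x i ∈ ({z | M i z (y i) ≠ 0} : Set (I i))} := by
      intro x hx i
      exact kron_ne hx i
    have h2 := Set.ncard_le_ncard h1 (Set.toFinite _)
    rw [ncard_pi] at h2
    calc ((({x | Kron.kron M x y ≠ 0} : Set (∀ i, I i)).ncard : ℕ) : ℝ)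
        ≤ ((∏ i, ({z | M i z (y i) ≠ 0} : Set (I i)).ncard : ℕ) : ℝ) := by exact_mod_cast h2
      _ = ∏ i, ((({z | M i z (y i) ≠ 0} : Set (I i)).ncard : ℕ) : ℝ) := by push_cast; rfl
      _ ≤ ∏ i, σ i := Finset.prod_le_prod (fun i _ => Nat.cast_nonneg _) (fun i _ => (h i).2 (y i))

theorem rank_PDQ {α : Type*} [Fintype α] [DecidableEq α] {M P Q : Matrix α α F} {d : α → F}
    (hP : P.det = 1) (hQ : Q.det = 1) (h : M = P * Matrix.diagonal d * Q) :
    M.rank = ({z | d z ≠ 0} : Set α).ncard := by
  classical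
  have hPu : IsUnit P.det := by rw [hP]; exact isUnit_one
  have hQu : IsUnit Q.det := by rw [hQ]; exact isUnit_one
  rw [h, Matrix.rank_mul_eq_left_of_isUnit_det _ _ hQu,
    Matrix.rank_mul_eq_right_of_isUnit_det _ _ hPu, Matrix.rank_diagonal,
    ← Nat.card_eq_fintype_card]
  rfl

theorem rank_kron (M : ∀ i, Matrix (I i) (I i) F) : (kron M).rank ≤ ∏ i, (M i).rank := by
  classical
  choose P Q d hP hQ h using fun i => exists_PDQ (M i)
  have h1 : kron M = kron P * kron (fun i => Matrix.diagonal (d i)) * kron Q := by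
    rw [← kron_mul, ← kron_mul]
    congr 1
    funext i
    exact h i
  have h2 : kron (fun i => Matrix.diagonal (d i)) =
      Matrix.diagonal (fun x : ∀ i, I i => ∏ i, d i (x i)) := by
    ext x y
    by_cases hxy : x = y
    · subst hxy
      rw [Matrix.diagonal_apply_eq]
      exact Finset.prod_congr rfl fun i _ => Matrix.diagonal_apply_eq _ _
    · rw [Matrix.diagonal_apply_ne _ hxy]
      obtain ⟨i, hi⟩ := Function.ne_iff.mp hxy
      exact Finset.prod_eq_zero (Finset.mem_univ i) (Matrix.diagonal_apply_ne _ hi)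
  have h3 : (Matrix.diagonal (fun x : ∀ i, I i => ∏ i, d i (x i))).rank ≤ ∏ i, (M i).rank := by
    rw [Matrix.rank_diagonal, ← Nat.card_eq_fintype_card]
    have e : Nat.card {x : ∀ i, I i // ∏ i, d i (x i) ≠ 0} =
        ({x | ∀ i, x i ∈ ({z | d i z ≠ 0} : Set (I i))} : Set (∀ i, I i)).ncard := by
      rw [← Nat.card_coe_set_eq]
      refine Nat.card_congr (Equiv.subtypeEquivRight fun x => ?_)
      simp only [Set.mem_setOf_eq]
      rw [Finset.prod_ne_zero_iff]
      simp
    rw [e, ncard_pi]
    refine Finset.prod_le_prod' fun i _ => le_of_eq ?_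
    exact (rank_PDQ (hP i) (hQ i) (h i)).symm
  rw [h1, h2]
  exact (Matrix.rank_mul_le_left _ _).trans ((Matrix.rank_mul_le_right _ _).trans h3)

/-- The tensor power trick. -/
theorem dec_pow (M R S : ∀ i, Matrix (I i) (I i) F) (hM : ∀ i, M i = R i + S i) (ρ σ : ι → ℝ)
    (hρ : ∀ i, ((R i).rank : ℝ) ≤ ρ i) (hσ : ∀ i, Sparse (S i) (σ i)) (hσ0 : ∀ i, 0 ≤ σ i)
    (H : Finset ι → Prop) (r s : ℝ) (hr0 : 0 ≤ r) (hs0 : 0 ≤ s)
    (hr : ∀ A, H A → (∏ i ∈ A, ρ i) * ∏ i ∈ Aᶜ, (Fintype.card (I i) : ℝ) ≤ r)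
    (hs : ∀ A, ¬ H A → (∏ i ∈ A, (Fintype.card (I i) : ℝ)) * ∏ i ∈ Aᶜ, σ i ≤ s) :
    Dec (kron M) (2 ^ Fintype.card ι * r) (2 ^ Fintype.card ι * s) := by
  classical
  set N : Finset ι → ∀ i, Matrix (I i) (I i) F := fun A i => if i ∈ A then R i else S i with hN
  have h1 : kron M = ∑ A : Finset ι, kron (N A) := by
    ext x y
    rw [Matrix.sum_apply]
    have e : kron M x y = ∏ i, (R i (x i) (y i) + S i (x i) (y i)) := by
      refine Finset.prod_congr rfl fun i _ => ?_
      rw [hM, Matrix.add_apply]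
    rw [e, Finset.prod_add, Finset.powerset_univ]
    refine Finset.sum_congr rfl fun A _ => ?_
    unfold kron
    rw [← Finset.prod_mul_prod_compl A]
    congr 1
    · refine Finset.prod_congr rfl fun i hi => ?_
      simp only [hN, if_pos hi]
    · rw [Finset.compl_eq_univ_sdiff]
      refine Finset.prod_congr rfl fun i hi => ?_
      have : i ∉ A := by
        rw [Finset.mem_sdiff] at hi
        exact hi.2
      simp only [hN, if_neg this]
  have h2 : kron M = ∑ A ∈ Finset.univ.filter H, kron (N A) +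
      ∑ A ∈ Finset.univ.filter (fun A => ¬ H A), kron (N A) := by
    rw [h1, Finset.sum_filter_add_sum_filter_not]
  have hcard : ∀ Pr : Finset ι → Prop, [DecidablePred Pr] →
      (((Finset.univ.filter Pr).card : ℕ) : ℝ) ≤ 2 ^ Fintype.card ι := by
    intro Pr _
    have := Finset.card_filter_le (Finset.univ : Finset (Finset ι)) Pr
    rw [Finset.card_univ, Fintype.card_finset] at this
    exact_mod_cast this
  refine ⟨_, _, h2, ?_, ?_⟩
  · refine (rank_sum_le _ _ r ?_).trans (mul_le_mul_of_nonneg_right (hcard _) hr0)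
    intro A hA
    have hHA : H A := (Finset.mem_filter.mp hA).2
    refine le_trans ?_ (hr A hHA)
    have h3 : (((kron (N A)).rank : ℕ) : ℝ) ≤ ∏ i, (((N A i).rank : ℕ) : ℝ) := by
      exact_mod_cast rank_kron (N A)
    refine h3.trans ?_
    rw [← Finset.prod_mul_prod_compl A]
    refine mul_le_mul ?_ ?_ (Finset.prod_nonneg fun i _ => Nat.cast_nonneg _)
      (Finset.prod_nonneg fun i _ => (Nat.cast_nonneg _).trans (hρ i))
    · refine Finset.prod_le_prod (fun i _ => Nat.cast_nonneg _) fun i hi => ?_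
      simp only [hN, if_pos hi]
      exact hρ i
    · refine Finset.prod_le_prod (fun i _ => Nat.cast_nonneg _) fun i hi => ?_
      exact_mod_cast Matrix.rank_le_card_width _
  · refine (sparse_sum _ _ s ?_).mono (mul_le_mul_of_nonneg_right (hcard _) hs0)
    intro A hA
    have hHA : ¬ H A := (Finset.mem_filter.mp hA).2
    have h3 : Sparse (kron (N A)) (∏ i, if i ∈ A then (Fintype.card (I i) : ℝ) else σ i) := by
      refine Sparse.kron fun i => ?_
      by_cases hi : i ∈ A
      · simp only [hN, if_pos hi]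
        constructor
        · intro x
          have := Set.ncard_le_card ({y | R i x y ≠ 0} : Set (I i))
          rw [Nat.card_eq_fintype_card] at this
          exact_mod_cast this
        · intro y
          have := Set.ncard_le_card ({x | R i x y ≠ 0} : Set (I i))
          rw [Nat.card_eq_fintype_card] at this
          exact_mod_cast this
      · simp only [hN, if_neg hi]
        exact hσ i
    refine h3.mono (le_trans (le_of_eq ?_) (hs A hHA))
    rw [← Finset.prod_mul_prod_compl A]
    congr 1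
    · exact Finset.prod_congr rfl fun i hi => if_pos hi
    · refine Finset.prod_congr rfl fun i hi => if_neg (Finset.mem_compl.mp hi)

end

end MP0775d3.Kron
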