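import Pool.Agent.Lib.MP_0775d3_lc.Kron.Circ

/-! Toeplitz matrices. -/

set_option linter.unusedSectionVars false
set_option linter.unusedVariables false
set_option linter.deprecated false

namespace MP0775d3.Kron

open Matrix Filter

section

/-- The primes up to `y`. -/
abbrev PI (y : ℕ) : Type := {p : ℕ // p ∈ Nat.primesLE y}

theorem PI.prime {y : ℕ} (p : PI y) : Nat.Prime p.1 := by
  have h : p.1 ∈ Nat.primesBelow (y + 1) := p.2
  exact (Nat.mem_primesBelow.mp h).2

theorem PI.le {y : ℕ} (p : PI y) : p.1 ≤ y := by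
  have h : p.1 ∈ Nat.primesBelow (y + 1) := p.2
  have := (Nat.mem_primesBelow.mp h).1
  omega

instance (y : ℕ) (p : PI y) : NeZero p.1 := ⟨p.prime.ne_zero⟩

theorem prod_PI (y : ℕ) : ∏ p : PI y, (p.1 : ℝ) = primorial y := by
  rw [primorial_eq_prod_primesLE]
  push_cast
  exact Finset.prod_coe_sort (Nat.primesLE y) (fun p => (p : ℝ))

theorem sum_log_PI (y : ℕ) : ∑ p : PI y, Real.log p.1 = Real.log (primorial y) := by
  rw [← prod_PI, Real.log_prod]
  intro p _
  exact_mod_cast p.prime.ne_zero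

/-- Toeplitz matrices are submatrices of circulant matrices of a product of cyclic groups of
prime order. -/
theorem dec_toeplitz (y n : ℕ) (hy : 2 ≤ y) (hn : 2 * n ≤ primorial y) (t : ℤ → ℂ) (δ : ℝ)
    (N : ℕ) (hδ : 0 < δ) (hδ1 : δ ≤ 1) (hN : 128 ≤ δ * 2 ^ N) :
    Dec (Matrix.of fun i j : Fin n => t ((i : ℤ) - (j : ℤ)))
      (256 * Real.exp (-((δ / (256 * (N + 1))) ^ 2 *
        (Real.log (primorial y) / Real.log y))) * primorial y)
      (Real.exp (2 * δ * Real.log (primorial y))) := by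
  classical
  set ph : ℤ → (∀ p : PI y, ZMod p.1) := fun k p => (k : ZMod p.1) with hph
  have hinj : ∀ k k' : ℤ, |k| < n → |k'| < n → ph k = ph k' → k = k' := by
    intro k k' hk hk' h
    have h1 : primorial y ∣ (k - k').natAbs := by
      rw [primorial_eq_prod_primesLE]
      refine Finset.prod_primes_dvd _ (fun p hp => ?_) (fun p hp => ?_)
      · exact Nat.prime_iff.mp (PI.prime ⟨p, hp⟩)
      · have h2 := congrFun h ⟨p, hp⟩
        simp only [hph] at h2
        have h3 : (((k - k' : ℤ)) : ZMod p) = 0 := by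
          push_cast
          rw [h2, sub_self]
        rw [ZMod.intCast_zmod_eq_zero_iff_dvd] at h3
        exact Int.natCast_dvd.mp h3
    have h4 : (k - k').natAbs < 2 * n := by
      have h5 := abs_lt.mp hk
      have h6 := abs_lt.mp hk'
      omega
    have h7 : (k - k').natAbs = 0 := by
      by_contra h8
      have := Nat.le_of_dvd (Nat.pos_of_ne_zero h8) h1
      omega
    omega
  let g : (∀ p : PI y, ZMod p.1) → ℂ := fun h =>
    if H : ∃ k : ℤ, |k| < n ∧ ph k = h then t H.choose else 0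
  have hg : ∀ k : ℤ, |k| < n → g (ph k) = t k := by
    intro k hk
    have H : ∃ k' : ℤ, |k'| < n ∧ ph k' = ph k := ⟨k, hk, rfl⟩
    show (if H : ∃ k' : ℤ, |k'| < n ∧ ph k' = ph k then t H.choose else 0) = t k
    rw [dif_pos H]
    congr 1
    exact hinj _ _ H.choose_spec.1 hk H.choose_spec.2
  have hsub : (Matrix.of fun i j : Fin n => t ((i : ℤ) - (j : ℤ))) =
      (Matrix.of fun x z => g (x - z) : Matrix (∀ p : PI y, ZMod p.1) (∀ p : PI y, ZMod p.1)
        ℂ).submatrix (fun i : Fin n => ph (i : ℤ)) (fun i : Fin n => ph (i : ℤ)) := by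
    ext i j
    rw [Matrix.submatrix_apply, Matrix.of_apply, Matrix.of_apply]
    have e : ph (i : ℤ) - ph (j : ℤ) = ph ((i : ℤ) - (j : ℤ)) := by
      funext p
      simp [hph]
    rw [e, hg]
    have h1 := i.isLt
    have h2 := j.isLt
    rw [abs_lt]
    constructor <;> omega
  have hfi : Function.Injective (fun i : Fin n => ph (i : ℤ)) := by
    intro i j hij
    have h1 := i.isLt
    have h2 := j.isLt
    have := hinj (i : ℤ) (j : ℤ) (by rw [abs_lt]; constructor <;> omega)
      (by rw [abs_lt]; constructor <;> omega) hij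
    exact Fin.ext (by exact_mod_cast this)
  rw [hsub]
  have hlogy : 0 < Real.log y := Real.log_pos (by exact_mod_cast hy)
  have hprim : 2 ≤ primorial y := by
    calc 2 = primorial 2 := by decide
      _ ≤ primorial y := primorial_mono hy
  have hΛ : 0 < Real.log (primorial y) := Real.log_pos (by exact_mod_cast hprim)
  have h1 := dec_circ (fun p : PI y => p.1) g (Real.log y / Real.log (primorial y))
    (div_pos hlogy hΛ) δ N hδ hδ1 hN (by rw [sum_log_PI]; exact hΛ) ?_
  · refine (h1.submatrix_inj _ hfi).mono (le_of_eq ?_) (le_of_eq ?_)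
    · rw [prod_PI]
      congr 3
      field_simp
    · rw [sum_log_PI]
  · intro p
    rw [sum_log_PI, div_mul_cancel₀ _ hΛ.ne']
    exact Real.log_le_log (by exact_mod_cast p.prime.pos) (by exact_mod_cast p.le)

/-- A weak Chebyshev bound. -/
theorem theta_ev : ∀ᶠ m : ℕ in atTop, (m : ℝ) / 2 ≤ Real.log (primorial m) := by
  have h1 : ∀ᶠ x : ℝ in atTop, ‖Real.log x‖ ≤ 1 / 40 * ‖x ^ (1 / 2 : ℝ)‖ :=
    (isLittleO_log_rpow_atTop (r := 1 / 2) (by norm_num)).bound (by norm_num)
  have h2 : ∀ᶠ m : ℕ in atTop, ‖Real.log (m : ℝ)‖ ≤ 1 / 40 * ‖(m : ℝ) ^ (1 / 2 : ℝ)‖ :=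
    tendsto_natCast_atTop_atTop.eventually h1
  have h3 : ∀ᶠ m : ℕ in atTop, ‖Real.log ((m : ℝ) + 1)‖ ≤
      1 / 40 * ‖((m : ℝ) + 1) ^ (1 / 2 : ℝ)‖ :=
    (tendsto_atTop_add_const_right _ _ tendsto_natCast_atTop_atTop).eventually h1
  filter_upwards [h2, h3, eventually_ge_atTop 1] with m hm2 hm3 hm1
  have hm : (1 : ℝ) ≤ m := by exact_mod_cast hm1
  have hm0 : (0 : ℝ) ≤ m := by linarith
  have e1 : ‖(m : ℝ) ^ (1 / 2 : ℝ)‖ = √(m : ℝ) := by
    rw [← Real.sqrt_eq_rpow, Real.norm_of_nonneg (Real.sqrt_nonneg _)]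
  have e2 : ‖((m : ℝ) + 1) ^ (1 / 2 : ℝ)‖ = √((m : ℝ) + 1) := by
    rw [← Real.sqrt_eq_rpow, Real.norm_of_nonneg (Real.sqrt_nonneg _)]
  rw [e1] at hm2
  rw [e2] at hm3
  have l1 : Real.log m ≤ 1 / 40 * √(m : ℝ) := (Real.le_norm_self _).trans hm2
  have l2 : Real.log ((m : ℝ) + 1) ≤ 1 / 40 * √((m : ℝ) + 1) := (Real.le_norm_self _).trans hm3
  have l3 : √((m : ℝ) + 1) ≤ 2 * m := by
    rw [Real.sqrt_le_left (by linarith)]
    nlinarith
  have hsq : √(m : ℝ) * √(m : ℝ) = m := Real.mul_self_sqrt hm0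
  have l4 : 2 * √(m : ℝ) * Real.log m ≤ m / 20 := by
    have := mul_le_mul_of_nonneg_left l1 (Real.sqrt_nonneg (m : ℝ))
    nlinarith
  have h4 := Chebyshev.theta_ge m
  have h5 : Chebyshev.theta (m : ℝ) = Real.log (primorial m) := by
    rw [Chebyshev.theta_eq_log_primorial, Nat.floor_natCast]
  rw [h5] at h4
  have h6 := Real.log_two_gt_d9
  nlinarith

theorem primorial_le_mul (y : ℕ) (hy : 1 ≤ y) : primorial y ≤ y * primorial (y - 1) := by
  obtain ⟨z, rfl⟩ : ∃ z, y = z + 1 := ⟨y - 1, by omega⟩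
  have e : z + 1 - 1 = z := rfl
  rw [e]
  by_cases hz : z = 0
  · subst hz; simp
  have h1 : primorial (z + 1) ∣ primorial z * Nat.choose (z + 1) z :=
    primorial_add_dvd (m := z) (n := 1) (by omega)
  have h2 := Nat.le_of_dvd (Nat.mul_pos (primorial_pos _) (Nat.choose_pos (by omega))) h1
  rw [Nat.choose_succ_self_right] at h2
  rw [mul_comm]
  exact h2

/-- The minimal primorial above `2 n`. -/
theorem exists_y (n : ℕ) (hn : 2 ≤ n) : ∃ y : ℕ, 3 ≤ y ∧ 2 * n ≤ primorial y ∧
    primorial (y - 1) < 2 * n := by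
  classical
  have hex : ∃ y, 2 * n ≤ primorial y := by
    refine ⟨2 * n, ?_⟩
    rcases Nat.lt_or_ge 2 (2 * n) with h | h
    · exact (lt_primorial_self h).le
    · omega
  have h1 := Nat.find_spec hex
  set y := Nat.find hex with hy
  have hy3 : 3 ≤ y := by
    by_contra hcon
    have : primorial y ≤ primorial 2 := primorial_mono (by omega)
    have h2 : primorial 2 = 2 := by decide
    omega
  refine ⟨y, hy3, h1, ?_⟩
  have := Nat.find_min hex (m := y - 1) (by omega)
  omega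

end

end MP0775d3.Kron
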