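import Pool.Agent.Lib.MP_0775d3_lc.Kron.Fib

/-! Simultaneous triangularization of the shifts of a cyclic group. -/

set_option linter.unusedSectionVars false
set_option linter.unusedVariables false
set_option linter.deprecated false

namespace MP0775d3.Kron

open Matrix

section
variable {E : Type*} [Field E]

/-- The shifts of `ZMod m` are simultaneously triangularizable over `E`. -/
def Tri (E : Type*) [Field E] (m : ℕ) [NeZero m] : Prop :=
  ∃ (P P' : Matrix (ZMod m) (ZMod m) E) (N : ZMod m → Matrix (ZMod m) (ZMod m) E),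
    (∀ h x y, (P * N h * P') x y = if x - y = h then 1 else 0) ∧
    ∀ h j k, N h j k ≠ 0 → j = k ∨ j.val < k.val

theorem tri_of_root (m : ℕ) [NeZero m] (ζ : E) (hζ : IsPrimitiveRoot ζ m) (hm : (m : E) ≠ 0) :
    Tri E m := by
  set ψ : AddChar (ZMod m) E := AddChar.zmodChar m ((IsPrimitiveRoot.iff_def _ _).mp hζ).1 with hψ
  have hp : ψ.IsPrimitive := AddChar.zmodChar_primitive_of_primitive_root _ hζ
  refine ⟨fun x ξ => ψ (x * ξ), fun ξ y => ψ (-(ξ * y)) / (m : E),
    fun h => Matrix.diagonal (fun ξ => ψ (-(ξ * h))), ?_, ?_⟩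
  · intro h x y
    rw [Matrix.mul_apply]
    have e1 : ∀ ξ : ZMod m, ((show Matrix (ZMod m) (ZMod m) E from fun x ξ => ψ (x * ξ)) *
        Matrix.diagonal (fun ξ => ψ (-(ξ * h)))) x ξ * (ψ (-(ξ * y)) / (m : E)) =
        ψ (ξ * (x - h - y)) / (m : E) := by
      intro ξ
      rw [Matrix.mul_diagonal]
      rw [← mul_div_assoc, ← AddChar.map_add_eq_mul, ← AddChar.map_add_eq_mul]
      congr 2
      ring
    rw [Finset.sum_congr rfl (fun ξ _ => e1 ξ), ← Finset.sum_div, AddChar.sum_mulShift _ hp]
    by_cases hxy : x - y = h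
    · rw [if_pos hxy, if_pos (by rw [← hxy]; ring), ZMod.card]
      exact div_self hm
    · rw [if_neg hxy, if_neg, Nat.cast_zero, zero_div]
      intro h0
      apply hxy
      linear_combination h0
  · intro h j k hjk
    left
    by_contra hne
    exact hjk (Matrix.diagonal_apply_ne _ hne)

theorem choose_add_pow (p e c k : ℕ) (hp : p.Prime) (hE : (p : E) = 0) (hk : k < p ^ e) :
    (((c + p ^ e).choose k : ℕ) : E) = ((c.choose k : ℕ) : E) := by
  rw [Nat.add_choose_eq, Nat.cast_sum]
  rw [Finset.sum_eq_single (k, 0)]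
  · simp
  · intro ij hij hne
    rw [Finset.HasAntidiagonal.mem_antidiagonal] at hij
    have h0 : ij.2 ≠ 0 := by
      intro h0
      apply hne
      refine Prod.ext ?_ h0
      simp only
      omega
    have h1 : ij.2 ≠ p ^ e := by omega
    obtain ⟨d, hd⟩ := hp.dvd_choose_pow h0 h1
    rw [hd]
    push_cast
    rw [hE]
    ring
  · intro h
    exact absurd (Finset.HasAntidiagonal.mem_antidiagonal.mpr (add_zero k)) h

theorem tri_of_char (m p e : ℕ) [NeZero m] (hp : p.Prime) (hm : m = p ^ e) (hE : (p : E) = 0) :
    Tri E m := by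
  classical
  obtain ⟨n, rfl⟩ : ∃ n, m = n + 1 := ⟨m - 1, by have := NeZero.ne m; omega⟩
  set P : Matrix (ZMod (n + 1)) (ZMod (n + 1)) E := fun x k => ((x.val.choose k.val : ℕ) : E)
    with hP
  have hdet : P.det = 1 := by
    have h1 : (show Matrix (Fin (n + 1)) (Fin (n + 1)) E from P).det = 1 := by
      rw [Matrix.det_of_lowerTriangular]
      · refine Finset.prod_eq_one fun i _ => ?_
        show ((((i : Fin (n + 1)) : ℕ).choose (i : ℕ) : ℕ) : E) = 1
        rw [Nat.choose_self, Nat.cast_one]
      · intro i j hij
        have hij' : i < j := hij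
        show ((((i : Fin (n + 1)) : ℕ).choose (j : ℕ) : ℕ) : E) = 0
        rw [Nat.choose_eq_zero_of_lt (by exact_mod_cast hij'), Nat.cast_zero]
    have h2 : P.det = (show Matrix (Fin (n + 1)) (Fin (n + 1)) E from P).det := by
      show @Matrix.det (ZMod (n + 1)) _ _ E _ P = @Matrix.det (Fin (n + 1)) _ _ E _ P
      congr 1
    rw [h2, h1]
  have hu : IsUnit P.det := by rw [hdet]; exact isUnit_one
  set N : ZMod (n + 1) → Matrix (ZMod (n + 1)) (ZMod (n + 1)) E := fun h j k =>
    if j.val ≤ k.val then (((-h).val.choose (k.val - j.val) : ℕ) : E) else 0 with hN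
  refine ⟨P, P⁻¹, N, ?_, ?_⟩
  · intro h x y
    have key : P * N h = (show Matrix (ZMod (n + 1)) (ZMod (n + 1)) E from
        fun x y => if x - y = h then (1 : E) else 0) * P := by
      ext x k
      rw [Matrix.mul_apply, Matrix.mul_apply]
      have r1 : ∑ j : ZMod (n + 1), (if x - j = h then (1 : E) else 0) * P j k = P (x - h) k := by
        rw [Finset.sum_eq_single (x - h)]
        · rw [if_pos (by ring), one_mul]
        · intro j _ hj
          rw [if_neg, zero_mul]
          intro h0
          apply hj
          rw [← h0]; ring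
        · intro h0
          exact absurd (Finset.mem_univ _) h0
      rw [r1]
      have l1 : ∑ j : ZMod (n + 1), P x j * N h j k =
          (((x.val + (-h).val).choose k.val : ℕ) : E) := by
        rw [Nat.add_choose_eq, Finset.Nat.sum_antidiagonal_eq_sum_range_succ_mk]
        have l2 : ∑ j : ZMod (n + 1), P x j * N h j k =
            ∑ j : Fin (n + 1), (fun j : ℕ => if j ≤ k.val then
              ((x.val.choose j : ℕ) : E) * (((-h).val.choose (k.val - j) : ℕ) : E) else 0) j := by
          refine Finset.sum_congr rfl fun j _ => ?_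
          simp only [hP, hN]
          show ((x.val.choose j.val : ℕ) : E) * (if j.val ≤ k.val then _ else 0) = _
          by_cases hjk : j.val ≤ k.val
          · rw [if_pos hjk]
            exact (if_pos hjk).symm
          · rw [if_neg hjk, mul_zero]
            exact (if_neg hjk).symm
        rw [l2, Fin.sum_univ_eq_sum_range (fun j : ℕ => if j ≤ k.val then
              ((x.val.choose j : ℕ) : E) * (((-h).val.choose (k.val - j) : ℕ) : E) else 0) (n + 1),
          ← Finset.sum_filter]
        push_cast
        have hf : (Finset.range (n + 1)).filter (fun j => j ≤ k.val) =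
            Finset.range (k.val + 1) := by
          ext j
          have := ZMod.val_lt k
          simp only [Finset.mem_filter, Finset.mem_range]
          omega
        rw [hf]
      rw [l1]
      show _ = ((((x - h).val).choose k.val : ℕ) : E)
      have hv : (x - h).val = (x.val + (-h).val) % (n + 1) := by
        rw [sub_eq_add_neg, ZMod.val_add]
      have hk : k.val < p ^ e := by
        rw [← hm]
        exact ZMod.val_lt k
      have b1 := ZMod.val_lt x
      have b2 := ZMod.val_lt (-h)
      rcases Nat.lt_or_ge (x.val + (-h).val) (n + 1) with hlt | hge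
      · rw [hv, Nat.mod_eq_of_lt hlt]
      · have e1 : (x.val + (-h).val) % (n + 1) = x.val + (-h).val - (n + 1) := by
          rw [Nat.mod_eq_sub_mod hge, Nat.mod_eq_of_lt (by omega)]
        rw [hv, e1, ← choose_add_pow p e (x.val + (-h).val - (n + 1)) _ hp hE hk, ← hm,
          Nat.sub_add_cancel hge]
    rw [key, Matrix.mul_assoc, Matrix.mul_nonsing_inv _ hu, Matrix.mul_one]
  · intro h j k hjk
    simp only [hN] at hjk
    split_ifs at hjk with h1
    · rcases Nat.lt_or_eq_of_le h1 with h2 | h2
      · exact Or.inr h2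
      · exact Or.inl (ZMod.val_injective _ h2)
    · exact absurd rfl hjk

end

end MP0775d3.Kron
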